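import Pool.Agent.N175.BG.Defs

/-!
# Points with large height and close directions are few
-/

set_option autoImplicit false

namespace Pool.Agent.N175.BG

open Finset NumberField IsDedekindDomain Pool.Agent.H691R3 Pool.Agent.TH876.Loc
  Pool.Agent.TH876.Pade

namespace Big

variable {K : Type} [Field K] [NumberField K]

theorem dK_pos : 0 < dK K * Real.log 2 := by
  have h : dK K = Module.finrank ℚ K := by
    unfold dK
    rw [← InfinitePlace.sum_mult_eq]
    push_cast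
    rfl
  rw [h]
  have h1 : 0 < Module.finrank ℚ K := Module.finrank_pos
  have h2 : 0 < Real.log 2 := Real.log_pos (by norm_num)
  positivity

/-- the distance of the directions at a place -/
noncomputable def ds (v : Pl K) (x y : K) : ℝ :=
  ∑ i : Fin 3, |lg v (L i x) / hgt x - lg v (L i y) / hgt y|

theorem ds_nonneg (v : Pl K) (x y : K) : 0 ≤ ds v x y := Finset.sum_nonneg fun _ _ => abs_nonneg _

theorem ds_zero {x y : K} (hx : Pt x) (hy : Pt y) {v : Pr K} (hvx : v ∉ sp x) (hvy : v ∉ sp y) :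
    ds (Sum.inr v : Pl K) x y = 0 := by
  unfold ds
  refine Finset.sum_eq_zero fun i _ => ?_
  rw [lg_eq_zero hx hvx, lg_eq_zero hy hvy]
  simp

/-- the comparison of two points -/
theorem pairN {V : Finset (Pr K)} {x y : K} (hx : Pt x) (hy : Pt y) (hVx : sp x ⊆ V)
    (hVy : sp y ⊆ V) (N : ℕ) (hD : Dl N x y ≠ 0) (h0 : 0 < hgt x)
    (hk : (2 * N + 1 : ℕ) * hgt x ≤ hgt y) (ε : ℝ) (hcl : ∑ v ∈ Spl V, ds v x y ≤ ε) :
    ((N : ℝ) + 1) * hgt x ≤ (5 * N + 2 : ℕ) * (dK K * Real.log 2) +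
      (1 + ε) * hgt y - (2 * N + 1 : ℕ) * hgt x := by
  classical
  set k := 2 * N + 1 with hkdef
  have hk1 : (1 : ℝ) ≤ k := by rw [hkdef]; push_cast; linarith [(Nat.cast_nonneg N : (0:ℝ) ≤ N)]
  have hy0 : 0 < hgt y := by nlinarith
  set V' : Finset (Pr K) := V ∪ (fv_support_finite hD).toFinset with hV'
  have hVV : V ⊆ V' := Finset.subset_union_left
  have hVx' : sp x ⊆ V' := hVx.trans hVV
  have hVD : ∀ v, v ∉ V' → fv v (Dl N x y) = 1 := by
    intro v hv
    by_contra h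
    apply hv
    rw [hV']
    refine Finset.mem_union_right _ ?_
    rw [Set.Finite.mem_toFinset]
    exact h
  set q : Pl K → ℝ := fun v => (hgt y / hgt x - k) * mx v x + hgt y * ds v x y with hq
  have hrk : 0 ≤ hgt y / hgt x - k := by
    rw [sub_nonneg, le_div_iff₀ h0]
    exact hk
  have hqv : ∀ v, ∀ i, lg v (L i y) - (k : ℕ) * lg v (L i x) ≤ q v := by
    intro v i
    rw [hq]
    simp only
    have d1 : lg v (L i x) ≤ mx v x := by
      have := df_nonneg v i hx
      unfold df at this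
      linarith
    have d2 : |lg v (L i x) / hgt x - lg v (L i y) / hgt y| ≤ ds v x y :=
      Finset.single_le_sum (f := fun i => |lg v (L i x) / hgt x - lg v (L i y) / hgt y|)
        (fun _ _ => abs_nonneg _) (Finset.mem_univ i)
    have d3 : lg v (L i y) / hgt y - lg v (L i x) / hgt x ≤ ds v x y :=
      (neg_le_abs _ |>.trans' (by linarith)).trans d2
    have d4 : lg v (L i y) - (k : ℕ) * lg v (L i x) = (hgt y / hgt x - k) * lg v (L i x) +
        hgt y * (lg v (L i y) / hgt y - lg v (L i x) / hgt x) := by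
      field_simp
      ring
    rw [d4]
    exact add_le_add (mul_le_mul_of_nonneg_left d1 hrk) (mul_le_mul_of_nonneg_left d3 hy0.le)
  have hsum := Finset.sum_le_sum (s := Spl V') fun v _ => local_ineq v N hx hy hD (q v) (hqv v)
  rw [Finset.sum_add_distrib, sum_lg hD hVD, ← Finset.mul_sum, hgt_eq hx hVx',
    Finset.sum_add_distrib, Finset.sum_add_distrib, ← Finset.mul_sum, sum_cv, ← Finset.mul_sum,
    Finset.sum_comm (s := Spl V'), Fin.sum_univ_three, sum_lgL hx hVx', sum_lgL hx hVx',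
    sum_lgL hx hVx'] at hsum
  have hds : ∑ v ∈ Spl V', ds v x y = ∑ v ∈ Spl V, ds v x y := by
    symm
    refine Finset.sum_subset (Spl_mono hVV) ?_
    intro v _ hv
    rcases v with w | v
    · exact absurd (inl_mem_Spl _ w) hv
    · rw [inr_mem_Spl] at hv
      exact ds_zero hx hy (fun h => hv (hVx h)) (fun h => hv (hVy h))
  have hqsum : ∑ v ∈ Spl V', q v = (hgt y / hgt x - k) * hgt x + hgt y * ∑ v ∈ Spl V, ds v x y := by
    rw [hq]
    simp only
    rw [Finset.sum_add_distrib, ← Finset.mul_sum, hgt_eq hx hVx', ← Finset.mul_sum, hds]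
  have h8 : (hgt y / hgt x - k) * hgt x = hgt y - k * hgt x := by
    field_simp
  rw [hqsum, h8] at hsum
  have h7 : hgt y * ∑ v ∈ Spl V, ds v x y ≤ hgt y * ε := mul_le_mul_of_nonneg_left hcl hy0.le
  linarith

theorem lower {V : Finset (Pr K)} {x y : K} (hx : Pt x) (hy : Pt y) (hVx : sp x ⊆ V)
    (hVy : sp y ⊆ V) (hxy : x ≠ y) (h0 : 0 < hgt x) (hle : hgt x ≤ hgt y)
    (hbig : 40 * (dK K * Real.log 2) ≤ hgt x) (hcl : ∑ v ∈ Spl V, ds v x y ≤ 1 / 8) :
    4 / 3 * hgt x ≤ hgt y := by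
  have hD : Dl 0 x y ≠ 0 := by
    rw [Dl_zero]
    exact sub_ne_zero.2 hxy
  have h1 := pairN hx hy hVx hVy 0 hD h0 (by simpa using hle) (1 / 8) hcl
  push_cast at h1
  linarith

theorem upper {V : Finset (Pr K)} {x y : K} (hx : Pt x) (hy : Pt y) (hVx : sp x ⊆ V)
    (hVy : sp y ⊆ V) (h0 : 0 < hgt x)
    (hbig : 40 * (dK K * Real.log 2) ≤ hgt x) (hcl : ∑ v ∈ Spl V, ds v x y ≤ 1 / 8) :
    hgt y ≤ 19 * hgt x := by
  by_contra hcon
  rw [not_le] at hcon
  have hd : 0 < dK K * Real.log 2 := dK_pos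
  set ρ : ℝ := hgt y / hgt x with hρ
  have hyρ : hgt y = ρ * hgt x := by rw [hρ]; field_simp
  have hρ1 : 19 < ρ := by
    rw [hρ, lt_div_iff₀ h0]
    exact hcon
  set N : ℕ := ⌊(ρ - 3) / 2⌋₊ with hN
  have hN1 : (N : ℝ) ≤ (ρ - 3) / 2 := Nat.floor_le (by linarith)
  have hN2 : (ρ - 3) / 2 < N + 1 := Nat.lt_floor_add_one _
  have hcase : ∀ n : ℕ, N ≤ n → n ≤ N + 1 → Dl n x y ≠ 0 → False := by
    intro n hn1 hn2 hD
    have hn1' : (N : ℝ) ≤ n := by exact_mod_cast hn1
    have hn2' : (n : ℝ) ≤ N + 1 := by exact_mod_cast hn2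
    have hkρ : ((2 * n + 1 : ℕ) : ℝ) * hgt x ≤ hgt y := by
      rw [hyρ]
      refine mul_le_mul_of_nonneg_right ?_ h0.le
      push_cast
      linarith
    have h1 := pairN hx hy hVx hVy n hD h0 hkρ (1 / 8) hcl
    push_cast at h1
    have hn0 : (0 : ℝ) ≤ n := Nat.cast_nonneg n
    have h3 : (5 * (n : ℝ) + 2) * (dK K * Real.log 2) ≤ (n + 1) * (1 / 8 * hgt x) := by
      calc (5 * (n : ℝ) + 2) * (dK K * Real.log 2) ≤ (n + 1) * (5 * (dK K * Real.log 2)) := by
            nlinarith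
        _ ≤ (n + 1) * (1 / 8 * hgt x) := mul_le_mul_of_nonneg_left (by linarith) (by linarith)
    have h5 : ((n : ℝ) + 1) ≤ (n + 1) * (1 / 8) + (1 + 1 / 8) * ρ - (2 * n + 1) := by
      refine le_of_mul_le_mul_right ?_ h0
      rw [hyρ] at h1
      linarith
    linarith
  rcases nonprop hx.1 hx.2 (cube_root hx h0) N (y := y) with h | h
  · exact hcase N le_rfl (Nat.le_succ N) h
  · exact hcase (N + 1) (Nat.le_succ N) le_rfl h

end Big

open Big in
theorem big : S_BIG := by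
  classical
  intro K _ _ V F hF hcl
  have h0 : ∀ x ∈ F, 0 < hgt x := fun x hx => by
    have h1 := (hF x hx).2.2
    have h2 := dK_pos (K := K)
    linarith
  by_cases hne : F.Nonempty
  swap
  · rw [Finset.not_nonempty_iff_eq_empty.1 hne]; simp
  obtain ⟨x, hx, y, hy, h1, -⟩ := chain hgt F (by
    intro x hx y hy hxy hle
    exact lower (hF x hx).1 (hF y hy).1 (hF x hx).2.1 (hF y hy).2.1 hxy (h0 x hx) hle
      (hF x hx).2.2 (hcl x hx y hy)) hne
  have h2 := upper (hF x hx).1 (hF y hy).1 (hF x hx).2.1 (hF y hy).2.1 (h0 x hx) (hF x hx).2.2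
    (hcl x hx y hy)
  have h3 : (4 / 3 : ℝ) ^ (F.card - 1) ≤ 19 := le_of_mul_le_mul_right (h1.trans h2) (h0 x hx)
  have h4 : (4 / 3 : ℝ) ^ (F.card - 1) < (4 / 3 : ℝ) ^ 11 := lt_of_le_of_lt h3 (by norm_num)
  have h5 := (pow_lt_pow_iff_right₀ (by norm_num : (1 : ℝ) < 4 / 3)).1 h4
  omega

end Pool.Agent.N175.BG
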