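import Mathlib
import Pool.Agent.TH876.Light

set_option autoImplicit false

/-!
# Project BG: the equation `x + y = 1` in multiplicative groups of bounded rank, and linear
feasibility for matrices whose subdeterminants generate a group of bounded rank

Definitions and statements of the parts. `Pt`, `hgt`, `lg`, `L`, `sp`, `Spl`, `dK`, `Dl` are those of
`Pool/Agent/TH876/Loc.lean` and `Glob.lean`.
-/

namespace Pool.Agent.N175.BG

open Finset

/-- Some positive power of `z` is a product of powers of the numbers `g j`: the number `z` is in the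
division group of the group generated by the `g j`. -/
def InDiv {F : Type*} [Field F] {r : ℕ} (g : Fin r → F) (z : F) : Prop :=
  ∃ m : ℕ, 0 < m ∧ ∃ a : Fin r → ℤ, z ^ m = ∏ j, g j ^ a j

/-- PACK: counting by a covering in a normed space. -/
def S_PACK : Prop :=
  ∀ (E : Type) [NormedAddCommGroup E] [NormedSpace ℝ E] (ι : Type) [DecidableEq ι]
    (U : Submodule ℝ E) (d : ℕ) (F : Finset ι) (f : ι → E) (R ε : ℝ) (M : ℕ),
    FiniteDimensional ℝ U → Module.finrank ℝ U ≤ d → 0 < ε → 0 ≤ R →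
    (∀ x ∈ F, f x ∈ U ∧ ‖f x‖ ≤ R) →
    (∀ G ⊆ F, (∀ x ∈ G, ∀ y ∈ G, ‖f x - f y‖ ≤ ε) → G.card ≤ M) →
    (F.card : ℝ) ≤ M * (4 * R / ε + 1) ^ d

section NF

open NumberField IsDedekindDomain Pool.Agent.H691R3 Pool.Agent.TH876.Loc

/-- BIG: points with large height and close directions are few. -/
def S_BIG : Prop :=
  ∀ (K : Type) [Field K] [NumberField K] (V : Finset (Pr K)) (F : Finset K),
    (∀ x ∈ F, Pt x ∧ sp x ⊆ V ∧ 40 * (dK K * Real.log 2) ≤ hgt x) →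
    (∀ x ∈ F, ∀ y ∈ F,
      ∑ v ∈ Spl V, ∑ i : Fin 3, |lg v (L i x) / hgt x - lg v (L i y) / hgt y| ≤ 1 / 8) →
    F.card ≤ 11

/-- ZAG: a lower bound for the height (Zagier). -/
def S_ZAG : Prop :=
  ∃ c : ℝ, 0 < c ∧ ∀ (K : Type) [Field K] [NumberField K] (x : K), Pt x → 1 + x + x ^ 2 ≠ 0 →
    c * dK K ≤ hgt x

/-- VDM: points which are close to each other are few. -/
def S_VDM : Prop :=
  ∀ c : ℝ, 0 < c → ∃ (M : ℕ) (δ : ℝ), 0 < δ ∧
    ∀ (K : Type) [Field K] [NumberField K] (V : Finset (Pr K)) (F : Finset K),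
    (∀ x ∈ F, Pt x ∧ sp x ⊆ V ∧ c * dK K ≤ hgt x) →
    (∀ x ∈ F, ∀ y ∈ F, ∑ v ∈ Spl V, ∑ i : Fin 3, |lg v (L i x) - lg v (L i y)| ≤ δ * dK K) →
    F.card ≤ M

/-- NF: the number of the solutions of `x + 1 = y` in groups of rank `r` in number fields. -/
def S_NF : Prop :=
  ∀ r : ℕ, ∃ N : ℕ, ∀ (K : Type) [Field K] [NumberField K] (g : Fin r → K), (∀ j, g j ≠ 0) →
    ∀ E : Finset K, (∀ x ∈ E, x ≠ 0 ∧ x + 1 ≠ 0 ∧ InDiv g x ∧ InDiv g (x + 1)) → E.card ≤ N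

end NF

/-- SPEC: specialisation to number fields. -/
def S_SPEC : Prop :=
  ∀ (F : Type) [Field F] [CharZero F] (r : ℕ) (g : Fin r → F) (E : Finset F), (∀ j, g j ≠ 0) →
    (∀ x ∈ E, x ≠ 0 ∧ x + 1 ≠ 0 ∧ InDiv g x ∧ InDiv g (x + 1)) →
    ∃ (K : Type) (_ : Field K) (_ : NumberField K) (g' : Fin r → K) (E' : Finset K),
      (∀ j, g' j ≠ 0) ∧ E'.card = E.card ∧
      ∀ x ∈ E', x ≠ 0 ∧ x + 1 ≠ 0 ∧ InDiv g' x ∧ InDiv g' (x + 1)

/-- COUNT: the number of the solutions of `x + 1 = y` in groups of rank `r` in fields of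
characteristic zero. -/
def S_COUNT : Prop :=
  ∀ r : ℕ, ∃ N : ℕ, ∀ (F : Type) [Field F] [CharZero F] (g : Fin r → F), (∀ j, g j ≠ 0) →
    ∀ E : Finset F, (∀ x ∈ E, x ≠ 0 ∧ x + 1 ≠ 0 ∧ InDiv g x ∧ InDiv g (x + 1)) → E.card ≤ N

/-- DET: the determinant of the matrix of a cycle. -/
def S_DET : Prop :=
  ∀ (s : ℕ) (A : Matrix (Fin (s + 2)) (Fin (s + 2)) ℝ),
    (∀ a b, A a b ≠ 0 → a = b ∨ a = b + 1) →
    A.det = ∏ i, A i i + (-1) ^ (s + 1) * ∏ i, A (i + 1) i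

/-- HOL: potentials for a gain graph all of whose induced cycles have gains in `S`. -/
def S_HOL : Prop :=
  ∀ (V G : Type) [Fintype V] [DecidableEq V] [CommGroup G] (adj : V → V → Prop) (c : V → Bool)
    (g : V → V → G) (S : Set G),
    (∀ x y, adj x y → adj y x) → (∀ x y, adj x y → c x ≠ c y) → (∀ x y, g y x = (g x y)⁻¹) →
    (∀ (s : ℕ) (w : Fin (2 * (s + 2)) → V), Function.Injective w → c (w 0) = true →
      (∀ i j, adj (w i) (w j) ↔ j = i + 1 ∨ i = j + 1) → ∏ i, g (w i) (w (i + 1)) ∈ S) →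
    ∃ pot : V → G, ∀ x y, adj x y → ∃ l : List G, l.length ≤ 2 * Fintype.card V ∧
      (∀ z ∈ l, z ∈ S ∨ z⁻¹ ∈ S) ∧ pot x * g x y * (pot y)⁻¹ = l.prod

end Pool.Agent.N175.BG
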