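import Mathlib
import Pool.Agent.N175.BG.Defs
import Pool.Agent.TH71.GR.Classes

set_option autoImplicit false

/-!
# Project BG: matrices whose sparse subdeterminants generate a group of bounded rank are, after
multiplication of the rows and columns, matrices of small monomials in few reals
-/

namespace Pool.Agent.N175.BG

open Finset Pool.Agent.TH71.GR

section InDiv

variable {F : Type*} [Field F] {r : ℕ} {g : Fin r → F}

theorem InDiv.mul (hg : ∀ j, g j ≠ 0) {x y : F} (hx : InDiv g x) (hy : InDiv g y) :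
    InDiv g (x * y) := by
  obtain ⟨m, hm, a, ha⟩ := hx
  obtain ⟨n, hn, b, hb⟩ := hy
  refine ⟨m * n, Nat.mul_pos hm hn, fun j => a j * n + b j * m, ?_⟩
  rw [mul_pow, pow_mul, ha, mul_comm m n, pow_mul, hb, ← Finset.prod_pow, ← Finset.prod_pow,
    ← Finset.prod_mul_distrib]
  refine Finset.prod_congr rfl fun j _ => ?_
  rw [zpow_add₀ (hg j), zpow_mul, zpow_mul, zpow_natCast, zpow_natCast]

theorem InDiv.inv {x : F} (hx : InDiv g x) : InDiv g x⁻¹ := by
  obtain ⟨m, hm, a, ha⟩ := hx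
  refine ⟨m, hm, fun j => - a j, ?_⟩
  rw [inv_pow, ha, ← Finset.prod_inv_distrib]
  exact Finset.prod_congr rfl fun j _ => (zpow_neg _ _).symm

theorem InDiv.one : InDiv g (1 : F) := ⟨1, one_pos, 0, by simp⟩

theorem InDiv.neg {x : F} (hx : InDiv g x) : InDiv g (-x) := by
  obtain ⟨m, hm, a, ha⟩ := hx
  refine ⟨m * 2, by omega, fun j => a j * 2, ?_⟩
  rw [mul_comm m 2, pow_mul, neg_sq, ← pow_mul, mul_comm 2 m, pow_mul, ha, ← Finset.prod_pow]
  refine Finset.prod_congr rfl fun j _ => ?_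
  rw [zpow_mul]
  norm_cast

theorem InDiv.prod (hg : ∀ j, g j ≠ 0) {ι : Type*} (s : Finset ι) (f : ι → F)
    (h : ∀ i ∈ s, InDiv g (f i)) : InDiv g (∏ i ∈ s, f i) := by
  classical
  induction s using Finset.induction_on with
  | empty => rw [Finset.prod_empty]; exact InDiv.one
  | insert a s ha ih =>
    rw [Finset.prod_insert ha]
    exact InDiv.mul hg (h a (Finset.mem_insert_self _ _))
      (ih fun i hi => h i (Finset.mem_insert_of_mem hi))

theorem InDiv.sign {x : F} (hx : InDiv g x) (n : ℕ) : InDiv g ((-1) ^ n * x) := by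
  rcases neg_one_pow_eq_or F n with h | h
  · rw [h, one_mul]; exact hx
  · rw [h, neg_one_mul]; exact hx.neg

end InDiv

/-- Every row and every column of the matrix has at most two entries which are not zero. -/
def Thin {s : ℕ} (B : Matrix (Fin s) (Fin s) ℝ) : Prop :=
  (∀ a, (univ.filter fun b => B a b ≠ 0).card ≤ 2) ∧
  (∀ b, (univ.filter fun a => B a b ≠ 0).card ≤ 2)

/-- After multiplication of the rows and of the columns by nonzero reals, and outside at most `k`
rows and at most `k` columns, all nonzero determinants of the thin square submatrices are in the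
division group of a group with `k` generators. -/
def BR (k m n : ℕ) (A : Matrix (Fin m) (Fin n) ℝ) : Prop :=
  ∃ (R : Finset (Fin m)) (C : Finset (Fin n)) (ρ : Fin m → ℝ) (γ : Fin n → ℝ) (g : Fin k → ℝ),
    R.card ≤ k ∧ C.card ≤ k ∧ (∀ i, ρ i ≠ 0) ∧ (∀ j, γ j ≠ 0) ∧ (∀ j, g j ≠ 0) ∧
    ∀ (s : ℕ) (f : Fin s → Fin m) (h : Fin s → Fin n), (∀ a, f a ∉ R) → (∀ b, h b ∉ C) →
      ∀ B : Matrix (Fin s) (Fin s) ℝ, (∀ a b, B a b = ρ (f a) * A (f a) (h b) * γ (h b)) →
        Thin B → B.det ≠ 0 → InDiv g B.det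

theorem exists_fin {N : ℕ} (P : ℝ → Prop) (h : ∀ E : Finset ℝ, (∀ x ∈ E, P x) → E.card ≤ N) :
    ∃ Z : Finset ℝ, Z.card ≤ N ∧ ∀ x, P x ↔ x ∈ Z := by
  classical
  have hf : {x | P x}.Finite := by
    by_contra hinf
    obtain ⟨t, ht, hc⟩ := Set.Infinite.exists_subset_card_eq hinf (N + 1)
    have := h t fun x hx => ht hx
    omega
  refine ⟨hf.toFinset, h _ fun x hx => ?_, fun x => ?_⟩
  · rw [Set.Finite.mem_toFinset] at hx; exact hx
  · rw [Set.Finite.mem_toFinset]; rfl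

/-! ### indices -/

def ev {s : ℕ} (t : Fin (s + 2)) : Fin (2 * (s + 2)) := ⟨2 * t.1, by have := t.2; omega⟩
def od {s : ℕ} (t : Fin (s + 2)) : Fin (2 * (s + 2)) := ⟨2 * t.1 + 1, by have := t.2; omega⟩

theorem ev_add {s : ℕ} (t : Fin (s + 2)) : ev t + 1 = od t := by
  apply Fin.ext
  rw [Fin.val_add]
  have h1 : ((1 : Fin (2 * (s + 2))) : ℕ) = 1 := rfl
  rw [h1]
  show (2 * t.1 + 1) % (2 * (s + 2)) = 2 * t.1 + 1
  exact Nat.mod_eq_of_lt (by have := t.2; omega)

theorem od_add {s : ℕ} (t : Fin (s + 2)) : od t + 1 = ev (t + 1) := by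
  apply Fin.ext
  rw [Fin.val_add]
  have h1 : ((1 : Fin (2 * (s + 2))) : ℕ) = 1 := rfl
  rw [h1]
  show (2 * t.1 + 1 + 1) % (2 * (s + 2)) = 2 * (t + 1).1
  rw [Fin.val_add]
  have h2 : ((1 : Fin (s + 2)) : ℕ) = 1 := rfl
  rw [h2, ← Nat.mul_mod_mul_left]
  congr 1

theorem ev_inj {s : ℕ} {a b : Fin (s + 2)} (h : ev a = ev b) : a = b := by
  apply Fin.ext
  have := congrArg Fin.val h
  have h2 : 2 * a.1 = 2 * b.1 := this
  omega

theorem od_inj {s : ℕ} {a b : Fin (s + 2)} (h : od a = od b) : a = b := by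
  apply Fin.ext
  have := congrArg Fin.val h
  have h2 : 2 * a.1 + 1 = 2 * b.1 + 1 := this
  omega

theorem prod_range_two {G : Type*} [CommMonoid G] (F : ℕ → G) (n : ℕ) :
    ∏ i ∈ range (2 * n), F i = ∏ t ∈ range n, (F (2 * t) * F (2 * t + 1)) := by
  induction n with
  | zero => simp
  | succ n ih =>
    rw [Nat.mul_succ, Finset.prod_range_succ, Finset.prod_range_succ, ih, Finset.prod_range_succ,
      mul_assoc]

theorem prod_two {G : Type*} [CommMonoid G] {s : ℕ} (f : Fin (2 * (s + 2)) → G) :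
    ∏ i, f i = ∏ t : Fin (s + 2), (f (ev t) * f (od t)) := by
  classical
  let F : ℕ → G := fun j => if h : j < 2 * (s + 2) then f ⟨j, h⟩ else 1
  have hF : ∀ (j : ℕ) (h : j < 2 * (s + 2)), F j = f ⟨j, h⟩ := fun j h => dif_pos h
  calc ∏ i, f i = ∏ i : Fin (2 * (s + 2)), F i.1 :=
        Finset.prod_congr rfl fun i _ => (hF i.1 i.2).symm
    _ = ∏ i ∈ range (2 * (s + 2)), F i := Fin.prod_univ_eq_prod_range F _
    _ = ∏ t ∈ range (s + 2), (F (2 * t) * F (2 * t + 1)) := prod_range_two F _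
    _ = ∏ t : Fin (s + 2), (F (2 * t.1) * F (2 * t.1 + 1)) :=
        (Fin.prod_univ_eq_prod_range (fun t => F (2 * t) * F (2 * t + 1)) _).symm
    _ = ∏ t : Fin (s + 2), (f (ev t) * f (od t)) := Finset.prod_congr rfl fun t _ => by
        rw [hF _ (by have := t.2; omega), hF _ (by have := t.2; omega)]; rfl

theorem col_alt {V : Type} (c : V → Bool) {s : ℕ} (w : Fin (2 * (s + 2)) → V)
    (h0 : c (w 0) = true) (h : ∀ i, c (w i) ≠ c (w (i + 1))) :
    ∀ (n : ℕ) (hn : n < 2 * (s + 2)), c (w ⟨n, hn⟩) = decide (n % 2 = 0) := by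
  intro n
  induction n with
  | zero => intro hn; exact h0
  | succ n ih =>
    intro hn
    have h1 := ih (by omega)
    have h2 := h ⟨n, by omega⟩
    have h3 : (⟨n, by omega⟩ : Fin (2 * (s + 2))) + 1 = ⟨n + 1, hn⟩ := by
      apply Fin.ext
      rw [Fin.val_add]
      have h1 : ((1 : Fin (2 * (s + 2))) : ℕ) = 1 := rfl
      rw [h1]
      exact Nat.mod_eq_of_lt hn
    rw [h3, h1] at h2
    rcases Nat.mod_two_eq_zero_or_one n with h4 | h4
    · have h5 : (n + 1) % 2 ≠ 0 := by omega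
      simp only [h4, decide_true] at h2
      simp only [h5, decide_false]
      cases hc : c (w ⟨n + 1, hn⟩)
      · rfl
      · rw [hc] at h2; exact absurd rfl h2
    · have h5 : (n + 1) % 2 = 0 := by omega
      have h6 : n % 2 ≠ 0 := by omega
      simp only [h6, decide_false] at h2
      simp only [h5, decide_true]
      cases hc : c (w ⟨n + 1, hn⟩)
      · rw [hc] at h2; exact absurd rfl h2
      · rfl

/-! ### the gain graph of a matrix -/

section Gain

variable {X Y : Type}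

/-- The bipartite graph of the nonzero entries of a matrix. -/
def adjB (D : X → Y → ℝ) : X ⊕ Y → X ⊕ Y → Prop
  | .inl x, .inr y => D x y ≠ 0
  | .inr y, .inl x => D x y ≠ 0
  | .inl _, .inl _ => False
  | .inr _, .inr _ => False

open Classical in
/-- A nonzero real as a unit. -/
noncomputable def un (r : ℝ) : ℝˣ := if h : r ≠ 0 then Units.mk0 r h else 1

theorem un_val {r : ℝ} (h : r ≠ 0) : ((un r : ℝˣ) : ℝ) = r := by
  unfold un
  rw [dif_pos h]
  rfl

/-- The gains of the edges. -/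
noncomputable def gain (D : X → Y → ℝ) : X ⊕ Y → X ⊕ Y → ℝˣ
  | .inl x, .inr y => un (D x y)
  | .inr y, .inl x => (un (D x y))⁻¹
  | .inl _, .inl _ => 1
  | .inr _, .inr _ => 1

theorem gain_symm (D : X → Y → ℝ) : ∀ x y, gain D y x = (gain D x y)⁻¹
  | .inl _, .inr _ => rfl
  | .inr _, .inl _ => (inv_inv _).symm
  | .inl _, .inl _ => inv_one.symm
  | .inr _, .inr _ => inv_one.symm

theorem adjB_symm (D : X → Y → ℝ) : ∀ x y, adjB D x y → adjB D y x
  | .inl _, .inr _ => id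
  | .inr _, .inl _ => id
  | .inl _, .inl _ => id
  | .inr _, .inr _ => id

theorem adjB_col (D : X → Y → ℝ) : ∀ x y, adjB D x y → x.isLeft ≠ y.isLeft
  | .inl _, .inr _ => fun _ => by simp
  | .inr _, .inl _ => fun _ => by simp
  | .inl _, .inl _ => False.elim
  | .inr _, .inr _ => False.elim

/-- The condition on the gains. -/
def ZP {k : ℕ} (g : Fin k → ℝ) (z : ℝ) : Prop :=
  z = -1 ∨ (z ≠ 0 ∧ z + 1 ≠ 0 ∧ InDiv g z ∧ InDiv g (z + 1))

theorem cycle_gain (hD : S_DET) (D : X → Y → ℝ) {k : ℕ} (g : Fin k → ℝ) (hg : ∀ j, g j ≠ 0)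
    (hdet : ∀ (s : ℕ) (f : Fin s → X) (h : Fin s → Y) (B : Matrix (Fin s) (Fin s) ℝ),
      (∀ a b, B a b = D (f a) (h b)) → Thin B → B.det ≠ 0 → InDiv g B.det)
    (s : ℕ) (w : Fin (2 * (s + 2)) → X ⊕ Y) (h0 : (w 0).isLeft = true)
    (hadj : ∀ i j, adjB D (w i) (w j) ↔ j = i + 1 ∨ i = j + 1) :
    ∃ z : ℝ, ZP g z ∧ (((∏ i, gain D (w i) (w (i + 1)) : ℝˣ) : ℝ) = z ∨
      ((∏ i, gain D (w i) (w (i + 1)) : ℝˣ) : ℝ) = -z) := by
  classical
  have hne : ∀ i, (w i).isLeft ≠ (w (i + 1)).isLeft := fun i =>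
    adjB_col D _ _ ((hadj i (i + 1)).2 (Or.inl rfl))
  have halt := col_alt (fun v : X ⊕ Y => v.isLeft) w h0 hne
  have hp : ∀ t : Fin (s + 2), ∃ x, w (ev t) = .inl x := by
    intro t
    have h1 := halt (ev t).1 (ev t).2
    have h2 : (w (ev t)).isLeft = true := by
      have h3 : ((ev t).1 % 2 = 0) := by show 2 * t.1 % 2 = 0; omega
      simpa [h3] using h1
    exact Sum.isLeft_iff.1 h2
  have hq : ∀ t : Fin (s + 2), ∃ y, w (od t) = .inr y := by
    intro t
    have h1 := halt (od t).1 (od t).2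
    have h2 : (w (od t)).isLeft = false := by
      have h3 : ¬ ((od t).1 % 2 = 0) := by show ¬ ((2 * t.1 + 1) % 2 = 0); omega
      simpa [h3] using h1
    cases h4 : w (od t) with
    | inl x => rw [h4] at h2; simp at h2
    | inr y => exact ⟨y, rfl⟩
  choose p hp using hp
  choose q hq using hq
  let B : Matrix (Fin (s + 2)) (Fin (s + 2)) ℝ := fun a b => D (p a) (q b)
  have hB : ∀ a b, B a b ≠ 0 ↔ a = b ∨ a = b + 1 := by
    intro a b
    have h1 := hadj (ev a) (od b)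
    rw [hp, hq] at h1
    have h2 : (od b = ev a + 1 ∨ ev a = od b + 1) ↔ (a = b ∨ a = b + 1) := by
      rw [ev_add, od_add]
      constructor
      · rintro (h | h)
        · exact Or.inl (od_inj h).symm
        · exact Or.inr (ev_inj h)
      · rintro (h | h)
        · exact Or.inl (by rw [h])
        · exact Or.inr (by rw [h])
    exact h1.trans h2
  have hthin : Thin B := by
    constructor
    · intro a
      have h1 : (univ.filter fun b => B a b ≠ 0) ⊆ {a, a - 1} := by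
        intro b hb
        rw [mem_filter] at hb
        rcases (hB a b).1 hb.2 with h | h
        · rw [h]; simp
        · rw [h]; simp
      exact (card_le_card h1).trans (card_le_two)
    · intro b
      have h1 : (univ.filter fun a => B a b ≠ 0) ⊆ {b, b + 1} := by
        intro a ha
        rw [mem_filter] at ha
        rcases (hB a b).1 ha.2 with h | h
        · rw [h]; simp
        · rw [h]; simp
      exact (card_le_card h1).trans (card_le_two)
  have hent : ∀ a b, B a b ≠ 0 → InDiv g (B a b) := by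
    intro a b h
    let M : Matrix (Fin 1) (Fin 1) ℝ := fun _ _ => B a b
    have h1 := hdet 1 (fun _ => p a) (fun _ => q b) M (fun _ _ => rfl)
      ⟨fun _ => (card_le_univ _).trans (by simp), fun _ => (card_le_univ _).trans (by simp)⟩
    have h2 : M.det = B a b := Matrix.det_fin_one M
    rw [h2] at h1
    exact h1 h
  have hdetB := hdet (s + 2) p q B (fun _ _ => rfl) hthin
  have hform := hD s B fun a b h => (hB a b).1 h
  set P1 : ℝ := ∏ i, B i i with hP1
  set P2 : ℝ := ∏ i, B (i + 1) i with hP2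
  have h1 : ∀ i, B i i ≠ 0 := fun i => (hB i i).2 (Or.inl rfl)
  have h2 : ∀ i, B (i + 1) i ≠ 0 := fun i => (hB (i + 1) i).2 (Or.inr rfl)
  have hP10 : P1 ≠ 0 := Finset.prod_ne_zero_iff.2 fun i _ => h1 i
  have hP20 : P2 ≠ 0 := Finset.prod_ne_zero_iff.2 fun i _ => h2 i
  have hP1D : InDiv g P1 := InDiv.prod hg _ _ fun i _ => hent _ _ (h1 i)
  have hP2D : InDiv g P2 := InDiv.prod hg _ _ fun i _ => hent _ _ (h2 i)
  have hgain : ((∏ i, gain D (w i) (w (i + 1)) : ℝˣ) : ℝ) = P1 / P2 := by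
    rw [prod_two]
    have h3 : ∀ t : Fin (s + 2), gain D (w (ev t)) (w (ev t + 1)) *
        gain D (w (od t)) (w (od t + 1)) = un (B t t) * (un (B (t + 1) t))⁻¹ := by
      intro t
      rw [ev_add, od_add, hp, hq, hp]
      rfl
    rw [Finset.prod_congr rfl fun t _ => h3 t, Finset.prod_mul_distrib, Units.val_mul,
      Finset.prod_inv_distrib, Units.val_inv_eq_inv_val, Units.coe_prod, Units.coe_prod,
      div_eq_mul_inv]
    rw [Finset.prod_congr rfl fun t _ => un_val (h1 t),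
      Finset.prod_congr rfl fun t _ => un_val (h2 t)]
  rw [hgain]
  have hsq : ((-1 : ℝ) ^ (s + 1)) * ((-1 : ℝ) ^ (s + 1)) = 1 := by
    rw [← mul_pow]; norm_num
  refine ⟨(-1) ^ (s + 1) * (P1 / P2), ?_, ?_⟩
  · by_cases hz : B.det = 0
    · left
      rw [hform] at hz
      have h3 : P1 = - ((-1) ^ (s + 1) * P2) := by linarith
      rw [h3]
      field_simp
      linear_combination (-1 : ℝ) * hsq
    · right
      have h3 : InDiv g (P1 / P2) := by
        rw [div_eq_mul_inv]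
        exact InDiv.mul hg hP1D hP2D.inv
      have h4 : (-1 : ℝ) ^ (s + 1) * (P1 / P2) + 1 = (-1) ^ (s + 1) * (B.det / P2) := by
        rw [hform]
        field_simp
        linear_combination (-P2) * hsq
      have h5 : InDiv g (B.det / P2) := by
        rw [div_eq_mul_inv]
        exact InDiv.mul hg (hdetB hz) hP2D.inv
      refine ⟨?_, ?_, InDiv.sign h3 _, ?_⟩
      · exact mul_ne_zero (pow_ne_zero _ (by norm_num)) (div_ne_zero hP10 hP20)
      · rw [h4]
        exact mul_ne_zero (pow_ne_zero _ (by norm_num)) (div_ne_zero hz hP20)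
      · rw [h4]
        exact InDiv.sign h5 _
  · rcases neg_one_pow_eq_or ℝ (s + 1) with h | h
    · left; rw [h, one_mul]
    · right; rw [h]; ring

end Gain

/-! ### monomials -/

section Mono

theorem list_mono {K : ℕ} (θ : Fin K → ℝ) (Z : ℝ → Prop) (hθ : ∀ z, Z z → ∃ r, θ r = z)
    (hθ' : ∀ z, Z z → ∃ r, θ r = z⁻¹) :
    ∀ l : List ℝˣ, (∀ u ∈ l, (Z (u : ℝ) ∨ Z (-(u : ℝ))) ∨
      (Z ((u⁻¹ : ℝˣ) : ℝ) ∨ Z (-((u⁻¹ : ℝˣ) : ℝ)))) →
      ∃ (σ : ℤ) (e : Fin K → ℕ), |σ| ≤ 1 ∧ (∀ r, e r ≤ l.length) ∧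
        ((l.prod : ℝˣ) : ℝ) = σ * ∏ r, θ r ^ e r := by
  classical
  intro l
  induction l with
  | nil => intro _; exact ⟨1, 0, by simp, by simp, by simp⟩
  | cons u l ih =>
    intro h
    obtain ⟨σ, e, h1, h2, h3⟩ := ih fun v hv => h v (List.mem_cons_of_mem _ hv)
    obtain ⟨τ, r, h4, h5⟩ : ∃ (τ : ℤ) (r : Fin K), |τ| ≤ 1 ∧ (u : ℝ) = τ * θ r := by
      rcases h u List.mem_cons_self with (h4 | h4) | (h4 | h4)
      · obtain ⟨r, hr⟩ := hθ _ h4
        exact ⟨1, r, by simp, by rw [hr]; simp⟩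
      · obtain ⟨r, hr⟩ := hθ _ h4
        exact ⟨-1, r, by simp, by rw [hr]; simp⟩
      · obtain ⟨r, hr⟩ := hθ' _ h4
        exact ⟨1, r, by simp, by rw [hr]; simp⟩
      · obtain ⟨r, hr⟩ := hθ' _ h4
        refine ⟨-1, r, by simp, ?_⟩
        rw [hr, Units.val_inv_eq_inv_val, inv_neg, inv_inv]
        push_cast
        ring
    refine ⟨τ * σ, fun i => e i + if i = r then 1 else 0, ?_, ?_, ?_⟩
    · rw [abs_mul]
      have := abs_nonneg σ
      have := abs_nonneg τ
      nlinarith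
    · intro i
      rw [List.length_cons]
      have := h2 i
      dsimp only
      split_ifs <;> omega
    · rw [List.prod_cons, Units.val_mul, h3, h5]
      have h6 : ∏ i, θ i ^ (e i + if i = r then 1 else 0) = (∏ i, θ i ^ e i) * θ r := by
        simp only [pow_add, Finset.prod_mul_distrib]
        congr 1
        have : ∀ i, θ i ^ (if i = r then 1 else 0) = if i = r then θ i else 1 := by
          intro i; split_ifs <;> simp
        rw [Finset.prod_congr rfl fun i _ => this i, Finset.prod_ite_eq' univ r]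
        simp
      rw [h6]
      push_cast
      ring

theorem deg_mono {K : ℕ} (σ : ℤ) (e : Fin K → ℕ) (r : Fin K) :
    (MvPolynomial.monomial (Finsupp.equivFunOnFinite.symm e) σ).degreeOf r ≤ e r := by
  classical
  by_cases h : σ = 0
  · rw [h, MvPolynomial.monomial_zero, MvPolynomial.degreeOf_zero]; exact Nat.zero_le _
  · rw [MvPolynomial.degreeOf_monomial_eq _ _ h]
    rfl

theorem aeval_mono {K : ℕ} (θ : Fin K → ℝ) (σ : ℤ) (e : Fin K → ℕ) :
    MvPolynomial.aeval θ (MvPolynomial.monomial (Finsupp.equivFunOnFinite.symm e) σ) =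
      (σ : ℝ) * ∏ r, θ r ^ e r := by
  rw [MvPolynomial.aeval_monomial, Finsupp.prod_fintype _ _ (fun i => pow_zero _)]
  simp

theorem exists_theta (Z : Finset ℝ) {K : ℕ} (hK : 2 * Z.card + 1 ≤ K) :
    ∃ θ : Fin K → ℝ, (∀ z ∈ Z, ∃ r, θ r = z) ∧ ∀ z ∈ Z, ∃ r, θ r = z⁻¹ := by
  classical
  let T : Finset ℝ := Z ∪ Z.image (·⁻¹)
  have hT : T.card ≤ K := by
    have h1 := card_union_le Z (Z.image (·⁻¹))
    have h2 : (Z.image (·⁻¹)).card ≤ Z.card := card_image_le
    have h3 : T.card ≤ Z.card + (Z.image (·⁻¹)).card := h1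
    omega
  obtain ⟨φ⟩ : Nonempty (T ↪ Fin K) :=
    Function.Embedding.nonempty_of_card_le (by rw [Fintype.card_coe, Fintype.card_fin]; exact hT)
  refine ⟨fun r => if h : ∃ t : T, φ t = r then (h.choose : ℝ) else 0, ?_, ?_⟩
  · intro z hz
    have hz' : z ∈ T := mem_union_left _ hz
    refine ⟨φ ⟨z, hz'⟩, ?_⟩
    have hex : ∃ t : T, φ t = φ ⟨z, hz'⟩ := ⟨_, rfl⟩
    dsimp only
    rw [dif_pos hex, φ.injective hex.choose_spec]
  · intro z hz
    have hz' : z⁻¹ ∈ T := mem_union_right _ (mem_image_of_mem _ hz)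
    refine ⟨φ ⟨z⁻¹, hz'⟩, ?_⟩
    have hex : ∃ t : T, φ t = φ ⟨z⁻¹, hz'⟩ := ⟨_, rfl⟩
    dsimp only
    rw [dif_pos hex, φ.injective hex.choose_spec]

end Mono

/-- The class of the matrices of bounded rank is contained in a class of matrices of small
monomials. -/
theorem cls (hC : S_COUNT) (hD : S_DET) (hH : S_HOL) (k : ℕ) : ∃ k', ∀ (m n : ℕ)
    (A : Matrix (Fin m) (Fin n) ℝ), 1 ≤ m → 1 ≤ n → BR k m n A → PolyNum k' m n A := by
  classical
  obtain ⟨N, hN⟩ := hC k
  refine ⟨2 * (N + 1) + k + 2, ?_⟩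
  intro m n A hm hn hA
  obtain ⟨R, C, ρ, γ, g, hR, hCc, hρ, hγ, hg, hdet⟩ := hA
  obtain ⟨k', hk'⟩ : ∃ k', k' = 2 * (N + 1) + k + 2 := ⟨_, rfl⟩
  rw [← hk']
  -- the finite set
  obtain ⟨Z0, hZ0, hZ0'⟩ := exists_fin (N := N)
    (fun z : ℝ => z ≠ 0 ∧ z + 1 ≠ 0 ∧ InDiv g z ∧ InDiv g (z + 1)) (fun E hE => hN ℝ g hg E hE)
  let Z : Finset ℝ := insert (-1) Z0
  have hZc : Z.card ≤ N + 1 := (card_insert_le _ _).trans (by omega)
  have hZ : ∀ z, ZP g z → z ∈ Z := by
    intro z hz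
    rcases hz with h | h
    · rw [h]; exact mem_insert_self _ _
    · exact mem_insert_of_mem ((hZ0' z).1 h)
  obtain ⟨θ, hθ, hθ'⟩ := exists_theta Z (K := k') (by omega)
  -- the gain graph
  let D : {i // i ∉ R} → {j // j ∉ C} → ℝ := fun i j => ρ i.1 * A i.1 j.1 * γ j.1
  obtain ⟨pot, hpot⟩ := hH ({i // i ∉ R} ⊕ {j // j ∉ C}) ℝˣ (adjB D) (fun v => v.isLeft) (gain D)
    {u : ℝˣ | (u : ℝ) ∈ Z ∨ -(u : ℝ) ∈ Z} (adjB_symm D) (adjB_col D) (gain_symm D)
    (by
      intro s w _ h0 hadj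
      obtain ⟨z, hz, h⟩ := cycle_gain hD D g hg
        (fun s f h B hB hT hd => hdet s (fun a => (f a).1) (fun b => (h b).1) (fun a => (f a).2)
          (fun b => (h b).2) B hB hT hd) s w h0 hadj
      rcases h with h | h
      · left
        show ((∏ i, gain D (w i) (w (i + 1)) : ℝˣ) : ℝ) ∈ Z
        rw [h]; exact hZ z hz
      · right
        show -((∏ i, gain D (w i) (w (i + 1)) : ℝˣ) : ℝ) ∈ Z
        rw [h, neg_neg]; exact hZ z hz)
  have hcard : Fintype.card ({i // i ∉ R} ⊕ {j // j ∉ C}) ≤ m + n := by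
    rw [Fintype.card_sum]
    have h1 : Fintype.card {i // i ∉ R} ≤ m := by
      exact (Fintype.card_subtype_le _).trans (by simp)
    have h2 : Fintype.card {j // j ∉ C} ≤ n := by
      exact (Fintype.card_subtype_le _).trans (by simp)
    omega
  have hpow : 2 * (m + n) ≤ (m + n) ^ k' := by
    calc 2 * (m + n) ≤ (m + n) * (m + n) := Nat.mul_le_mul_right _ (by omega)
      _ = (m + n) ^ 2 := (sq _).symm
      _ ≤ (m + n) ^ k' := Nat.pow_le_pow_right (by omega) (by omega)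
  have hpos : 0 < (m + n) ^ k' := by positivity
  let o : Fin ((m + n) ^ k') := ⟨0, hpos⟩
  -- the scaled entries
  let ρ' : Fin m → ℝ := fun i => if h : i ∉ R then ((pot (.inl ⟨i, h⟩) : ℝˣ) : ℝ) * ρ i else 1
  let γ' : Fin n → ℝ := fun j => if h : j ∉ C then (((pot (.inr ⟨j, h⟩))⁻¹ : ℝˣ) : ℝ) * γ j else 1
  have hent : ∀ i j, ∃ (σ : ℤ) (e : Fin k' → ℕ), |σ| ≤ 1 ∧ (∀ r, e r ≤ (m + n) ^ k') ∧
      (i ∉ R → j ∉ C → ρ' i * A i j * γ' j = σ * ∏ r, θ r ^ e r) := by
    intro i j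
    by_cases hi : i ∈ R
    · exact ⟨0, 0, by simp, by simp, fun h => absurd hi h⟩
    by_cases hj : j ∈ C
    · exact ⟨0, 0, by simp, by simp, fun _ h => absurd hj h⟩
    by_cases hA : D ⟨i, hi⟩ ⟨j, hj⟩ = 0
    · refine ⟨0, 0, by simp, by simp, fun _ _ => ?_⟩
      have h1 : ρ i * A i j * γ j = 0 := hA
      have h2 : A i j = 0 := by
        rcases mul_eq_zero.1 h1 with h | h
        · rcases mul_eq_zero.1 h with h | h
          · exact absurd h (hρ i)
          · exact h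
        · exact absurd h (hγ j)
      rw [h2]; simp
    · obtain ⟨l, h1, h2, h3⟩ := hpot (.inl ⟨i, hi⟩) (.inr ⟨j, hj⟩) hA
      obtain ⟨σ, e, h4, h5, h6⟩ := list_mono θ (fun z => z ∈ Z) (fun z hz => hθ z hz)
        (fun z hz => hθ' z hz) l h2
      refine ⟨σ, e, h4, fun r => ?_, fun _ _ => ?_⟩
      · have := h5 r
        have h7 : 2 * Fintype.card ({i // i ∉ R} ⊕ {j // j ∉ C}) ≤ 2 * (m + n) :=
          Nat.mul_le_mul_left _ hcard
        omega
      · rw [← h6, ← h3, Units.val_mul, Units.val_mul]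
        have h7 : ((gain D (.inl ⟨i, hi⟩) (.inr ⟨j, hj⟩) : ℝˣ) : ℝ) = ρ i * A i j * γ j :=
          un_val hA
        rw [h7]
        show (if h : i ∉ R then ((pot (.inl ⟨i, h⟩) : ℝˣ) : ℝ) * ρ i else 1) * A i j *
          (if h : j ∉ C then (((pot (.inr ⟨j, h⟩))⁻¹ : ℝˣ) : ℝ) * γ j else 1) = _
        rw [dif_pos hi, dif_pos hj]
        ring
  choose σ e h1 h2 h3 using hent
  refine ⟨R, C, ρ', γ', θ, fun l => if l = o then 1 else 0,
    fun a b l => if a = o ∧ b = o ∧ l = o then 1 else 0,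
    fun i j l => if l = o then
      MvPolynomial.monomial (Finsupp.equivFunOnFinite.symm (e i j)) (σ i j) else 0,
    by omega, by omega, ?_, ?_, ?_, ?_, ?_, ?_⟩
  · intro i
    show (if h : i ∉ R then ((pot (.inl ⟨i, h⟩) : ℝˣ) : ℝ) * ρ i else 1) ≠ 0
    by_cases h : i ∉ R
    · rw [dif_pos h]; exact mul_ne_zero (Units.ne_zero _) (hρ i)
    · rw [dif_neg h]; exact one_ne_zero
  · intro j
    show (if h : j ∉ C then (((pot (.inr ⟨j, h⟩))⁻¹ : ℝˣ) : ℝ) * γ j else 1) ≠ 0
    by_cases h : j ∉ C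
    · rw [dif_pos h]; exact mul_ne_zero (Units.ne_zero _) (hγ j)
    · rw [dif_neg h]; exact one_ne_zero
  · intro a b l
    have : (1 : ℤ) ≤ 2 ^ ((m + n) ^ k') := by exact_mod_cast Nat.one_le_two_pow
    dsimp only
    split_ifs
    · simpa using this
    · simp
  · intro a b
    by_cases ha : a = o
    · by_cases hb : b = o
      · simp [ha, hb]
      · simp [hb]
    · simp [ha]
  · intro i j l
    dsimp only
    split_ifs with hl
    · refine ⟨fun r => (deg_mono _ _ r).trans (h2 i j r), fun e' => ?_⟩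
      rw [MvPolynomial.coeff_monomial]
      have : (1 : ℤ) ≤ 2 ^ ((m + n) ^ k') := by exact_mod_cast Nat.one_le_two_pow
      split_ifs
      · exact (h1 i j).trans this
      · simp
    · refine ⟨fun r => by simp, fun e' => by simp⟩
  · intro i hi j hj
    rw [h3 i j hi hj, ← aeval_mono]
    simp

end Pool.Agent.N175.BG
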