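import Mathlib
import Pool.Agent.N175.BG.Defs

set_option autoImplicit false

/-!
# Project BG: the number of the solutions of `x + 1 = y` in groups of rank `r` in number fields
-/

namespace Pool.Agent.N175.BG

open Finset NumberField IsDedekindDomain Pool.Agent.H691R3 Pool.Agent.TH876.Loc

section NF

variable {K : Type} [Field K] [NumberField K]

theorem dK_one : 1 ≤ dK K := by
  have h : dK K = Module.finrank ℚ K := by
    unfold dK
    rw [← InfinitePlace.sum_mult_eq]
    push_cast
    rfl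
  rw [h]
  exact_mod_cast Module.finrank_pos

theorem lg_indiv {r : ℕ} {g : Fin r → K} (hg : ∀ j, g j ≠ 0) {z : K} (h : InDiv g z) :
    ∃ a : Fin r → ℝ, ∀ v : Pl K, lg v z = ∑ j, a j * lg v (g j) := by
  obtain ⟨m, hm, a, ha⟩ := h
  have hm' : (m : ℝ) ≠ 0 := by exact_mod_cast hm.ne'
  refine ⟨fun j => a j / m, fun v => ?_⟩
  have h1 := congrArg (fun t => Real.log (av v t)) ha
  simp only [map_pow, map_prod, map_zpow₀, Real.log_pow] at h1
  rw [Real.log_prod (fun j _ => zpow_ne_zero _ ((av v).pos (hg j)).ne')] at h1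
  simp only [Real.log_zpow] at h1
  unfold lg
  have h2 : Real.log (av v z) = ∑ j, a j / m * Real.log (av v (g j)) := by
    have h3 : ∑ j, (a j : ℝ) / m * Real.log (av v (g j)) =
        (∑ j, (a j : ℝ) * Real.log (av v (g j))) / m := by
      rw [Finset.sum_div]
      exact Finset.sum_congr rfl fun j _ => by ring
    rw [h3, ← h1]
    field_simp
  rw [h2, Finset.mul_sum]
  exact Finset.sum_congr rfl fun j _ => by ring

theorem sum_abs_le {x : K} (hx : Pt x) {V : Finset (Pr K)} (hV : sp x ⊆ V) :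
    ∑ v ∈ Spl V, ∑ i : Fin 3, |lg v (L i x)| ≤ 6 * hgt x := by
  calc ∑ v ∈ Spl V, ∑ i : Fin 3, |lg v (L i x)| ≤ ∑ v ∈ Spl V, (3 * mx v x + gd v x) := by
        refine Finset.sum_le_sum fun v _ => ?_
        calc ∑ i : Fin 3, |lg v (L i x)| ≤ ∑ i : Fin 3, (mx v x + df v i x) := by
              refine Finset.sum_le_sum fun i _ => ?_
              have h1 := mx_nonneg v x
              have h2 := df_nonneg v i hx
              have h3 : lg v (L i x) = mx v x - df v i x := by unfold df; ring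
              rw [h3, abs_le]
              constructor <;> linarith
          _ = _ := by
              rw [Finset.sum_add_distrib, Finset.sum_const, Finset.card_univ, Fintype.card_fin,
                nsmul_eq_mul]
              rfl
    _ = 6 * hgt x := by
        rw [Finset.sum_add_distrib, ← Finset.mul_sum, hgt_eq hx hV, sum_gd hx hV]
        ring

/-- the space of the logarithms -/
abbrev LW (V : Finset (Pr K)) : Type := PiLp 1 (fun _ : (Spl V) × Fin 3 => ℝ)

/-- the vector of the logarithms -/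
noncomputable def vec (V : Finset (Pr K)) (c : ℝ) (x : K) : LW V :=
  WithLp.toLp 1 fun p => c * lg p.1.1 (L p.2 x)

theorem norm_sub_vec (V : Finset (Pr K)) (c c' : ℝ) (x y : K) : ‖vec V c x - vec V c' y‖ =
    ∑ v ∈ Spl V, ∑ i : Fin 3, |c * lg v (L i x) - c' * lg v (L i y)| := by
  rw [PiLp.norm_eq_of_L1, Fintype.sum_prod_type,
    ← Finset.sum_coe_sort (Spl V) (fun v => ∑ i : Fin 3, |c * lg v (L i x) - c' * lg v (L i y)|)]
  rfl

theorem norm_vec (V : Finset (Pr K)) (c : ℝ) (x : K) : ‖vec V c x‖ =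
    ∑ v ∈ Spl V, ∑ i : Fin 3, |c * lg v (L i x)| := by
  rw [PiLp.norm_eq_of_L1, Fintype.sum_prod_type,
    ← Finset.sum_coe_sort (Spl V) (fun v => ∑ i : Fin 3, |c * lg v (L i x)|)]
  rfl

theorem norm_vec_le {V : Finset (Pr K)} {x : K} (hx : Pt x) (hV : sp x ⊆ V) {c : ℝ} (hc : 0 ≤ c) :
    ‖vec V c x‖ ≤ c * (6 * hgt x) := by
  rw [norm_vec]
  calc ∑ v ∈ Spl V, ∑ i : Fin 3, |c * lg v (L i x)| =
      c * ∑ v ∈ Spl V, ∑ i : Fin 3, |lg v (L i x)| := by
        rw [Finset.mul_sum]
        refine Finset.sum_congr rfl fun v _ => ?_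
        rw [Finset.mul_sum]
        refine Finset.sum_congr rfl fun i _ => ?_
        rw [abs_mul, abs_of_nonneg hc]
    _ ≤ _ := mul_le_mul_of_nonneg_left (sum_abs_le hx hV) hc

/-- the vectors of the generators -/
noncomputable def gen {r : ℕ} (V : Finset (Pr K)) (g : Fin r → K) (q : Fin r × Bool) : LW V :=
  WithLp.toLp 1 fun p => if p.2 = (if q.2 then 2 else 0) then lg p.1.1 (g q.1) else 0

theorem finrank_gen {r : ℕ} (V : Finset (Pr K)) (g : Fin r → K) :
    Module.finrank ℝ (Submodule.span ℝ (Set.range (gen V g))) ≤ 2 * r := by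
  refine (finrank_range_le_card (gen V g)).trans ?_
  rw [Fintype.card_prod, Fintype.card_fin, Fintype.card_bool, mul_comm]

theorem vec_mem {r : ℕ} (V : Finset (Pr K)) {g : Fin r → K} (hg : ∀ j, g j ≠ 0) {x : K}
    (h1 : InDiv g x) (h2 : InDiv g (x + 1)) (c : ℝ) :
    vec V c x ∈ Submodule.span ℝ (Set.range (gen V g)) := by
  obtain ⟨a, ha⟩ := lg_indiv hg h1
  obtain ⟨b, hb⟩ := lg_indiv hg h2
  have key : vec V c x = ∑ j, ((c * a j) • gen V g (j, false) + (c * b j) • gen V g (j, true)) := by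
    ext p
    obtain ⟨v, i⟩ := p
    have e1 : (∑ j, ((c * a j) • gen V g (j, false) + (c * b j) • gen V g (j, true))) (v, i) =
        ∑ j, (c * a j * (if i = 0 then lg v.1 (g j) else 0) +
          c * b j * (if i = 2 then lg v.1 (g j) else 0)) := by
      rw [WithLp.ofLp_sum, Finset.sum_apply]
      refine Finset.sum_congr rfl fun j _ => ?_
      simp [gen]
    rw [e1]
    show c * lg v.1 (L i x) = _
    have hneg : lg v.1 (L 2 x) = lg v.1 (x + 1) := by
      unfold lg
      show mt v.1 * Real.log (av v.1 (-x - 1)) = _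
      have : -x - 1 = -(x + 1) := by ring
      rw [this, (av v.1).map_neg]
    fin_cases i
    · show c * lg v.1 x = ∑ j, (c * a j * lg v.1 (g j) + c * b j * 0)
      rw [ha, Finset.mul_sum]
      exact Finset.sum_congr rfl fun j _ => by ring
    · show c * lg v.1 1 = ∑ j, (c * a j * 0 + c * b j * 0)
      rw [lg_one]
      simp
    · show c * lg v.1 (L 2 x) = ∑ j, (c * a j * 0 + c * b j * lg v.1 (g j))
      rw [hneg, hb, Finset.mul_sum]
      exact Finset.sum_congr rfl fun j _ => by ring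
  rw [key]
  refine Submodule.sum_mem _ fun j _ => Submodule.add_mem _ ?_ ?_
  · exact Submodule.smul_mem _ _ (Submodule.subset_span ⟨_, rfl⟩)
  · exact Submodule.smul_mem _ _ (Submodule.subset_span ⟨_, rfl⟩)

theorem card_roots (E : Finset K) (h : ∀ x ∈ E, 1 + x + x ^ 2 = 0) : E.card ≤ 2 := by
  classical
  have h1 : (Polynomial.X ^ 2 + Polynomial.X + 1 : Polynomial K).natDegree = 2 := by
    compute_degree!
  have h0 : (Polynomial.X ^ 2 + Polynomial.X + 1 : Polynomial K) ≠ 0 := by
    intro h0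
    rw [h0, Polynomial.natDegree_zero] at h1
    exact absurd h1 (by norm_num)
  calc E.card ≤ (Polynomial.X ^ 2 + Polynomial.X + 1 : Polynomial K).roots.toFinset.card := by
        refine Finset.card_le_card fun x hx => ?_
        rw [Multiset.mem_toFinset, Polynomial.mem_roots h0, Polynomial.IsRoot]
        have := h x hx
        simp only [Polynomial.eval_add, Polynomial.eval_pow, Polynomial.eval_X, Polynomial.eval_one]
        linear_combination this
    _ ≤ Multiset.card (Polynomial.X ^ 2 + Polynomial.X + 1 : Polynomial K).roots :=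
        Multiset.toFinset_card_le _
    _ ≤ 2 := (Polynomial.card_roots' _).trans h1.le

end NF

theorem nf (hP : S_PACK) (hB : S_BIG) (hZ : S_ZAG) (hV : S_VDM) : S_NF := by
  classical
  intro r
  obtain ⟨c, hc, hZ⟩ := hZ
  obtain ⟨M, δ, hδ, hV⟩ := hV c hc
  have hlog2 : 0 < Real.log 2 := Real.log_pos (by norm_num)
  refine ⟨2 + ⌈(M : ℝ) * (4 * (240 * Real.log 2) / δ + 1) ^ (2 * r)⌉₊ +
    ⌈(11 : ℕ) * (4 * (6 : ℝ) / (1 / 8) + 1) ^ (2 * r)⌉₊, ?_⟩
  intro K _ _ g hg E hE
  have hd1 : 1 ≤ dK K := dK_one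
  have hd0 : 0 < dK K := by linarith
  have hPt : ∀ x ∈ E, Pt x := fun x hx => ⟨(hE x hx).1, (hE x hx).2.1⟩
  obtain ⟨V, hVdef⟩ : ∃ V, V = E.biUnion sp := ⟨_, rfl⟩
  have hsp : ∀ x ∈ E, sp x ⊆ V := fun x hx => by
    rw [hVdef]; exact Finset.subset_biUnion_of_mem sp hx
  have hfin : FiniteDimensional ℝ (Submodule.span ℝ (Set.range (gen V g))) :=
    FiniteDimensional.span_of_finite ℝ (Set.finite_range _)
  set E0 := E.filter (fun x => 1 + x + x ^ 2 = 0) with hE0
  set E1 := E.filter (fun x => ¬ (1 + x + x ^ 2 = 0)) with hE1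
  set Es := E1.filter (fun x => ¬ (40 * (dK K * Real.log 2) ≤ hgt x)) with hEs
  set Eb := E1.filter (fun x => 40 * (dK K * Real.log 2) ≤ hgt x) with hEb
  have c0 : E0.card ≤ 2 := card_roots E0 fun x hx => (Finset.mem_filter.1 hx).2
  have hsum : E.card = E0.card + (Eb.card + Es.card) := by
    rw [← Finset.card_filter_add_card_filter_not (s := E) (fun x => 1 + x + x ^ 2 = 0),
      ← Finset.card_filter_add_card_filter_not (s := E1) (fun x => 40 * (dK K * Real.log 2) ≤ hgt x)]
  -- small points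
  have cs : (Es.card : ℝ) ≤ M * (4 * (240 * Real.log 2) / δ + 1) ^ (2 * r) := by
    refine hP (LW V) K _ (2 * r) Es (fun x => vec V (dK K)⁻¹ x) _ δ M hfin (finrank_gen V g) hδ
      (by positivity) ?_ ?_
    · intro x hx
      rw [hEs, hE1, Finset.mem_filter, Finset.mem_filter] at hx
      obtain ⟨⟨hx, _⟩, h2⟩ := hx
      refine ⟨vec_mem V hg (hE x hx).2.2.1 (hE x hx).2.2.2 _, ?_⟩
      refine (norm_vec_le (hPt x hx) (hsp x hx) (inv_nonneg.2 hd0.le)).trans ?_
      rw [not_le] at h2
      rw [inv_mul_le_iff₀ hd0]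
      nlinarith
    · intro G hG hcl
      refine hV K V G ?_ ?_
      · intro x hx
        have hx := hG hx
        rw [hEs, hE1, Finset.mem_filter, Finset.mem_filter] at hx
        obtain ⟨⟨hx, h1⟩, h2⟩ := hx
        exact ⟨hPt x hx, hsp x hx, hZ K x (hPt x hx) h1⟩
      · intro x hx y hy
        have h1 := hcl x hx y hy
        rw [norm_sub_vec] at h1
        have h2 : ∑ v ∈ Spl V, ∑ i : Fin 3, |(dK K)⁻¹ * lg v (L i x) - (dK K)⁻¹ * lg v (L i y)| =
            (dK K)⁻¹ * ∑ v ∈ Spl V, ∑ i : Fin 3, |lg v (L i x) - lg v (L i y)| := by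
          rw [Finset.mul_sum]
          refine Finset.sum_congr rfl fun v _ => ?_
          rw [Finset.mul_sum]
          refine Finset.sum_congr rfl fun i _ => ?_
          rw [← mul_sub, abs_mul, abs_of_pos (inv_pos.2 hd0)]
        rw [h2, inv_mul_le_iff₀ hd0] at h1
        linarith
  -- big points
  have cb : (Eb.card : ℝ) ≤ (11 : ℕ) * (4 * (6 : ℝ) / (1 / 8) + 1) ^ (2 * r) := by
    refine hP (LW V) K _ (2 * r) Eb (fun x => vec V (hgt x)⁻¹ x) _ (1 / 8) 11 hfin
      (finrank_gen V g) (by norm_num) (by norm_num) ?_ ?_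
    · intro x hx
      rw [hEb, hE1, Finset.mem_filter, Finset.mem_filter] at hx
      obtain ⟨⟨hx, _⟩, h2⟩ := hx
      have h3 : 0 < hgt x := lt_of_lt_of_le (by positivity) h2
      refine ⟨vec_mem V hg (hE x hx).2.2.1 (hE x hx).2.2.2 _, ?_⟩
      refine (norm_vec_le (hPt x hx) (hsp x hx) (inv_nonneg.2 h3.le)).trans ?_
      rw [inv_mul_le_iff₀ h3]
      linarith
    · intro G hG hcl
      refine hB K V G ?_ ?_
      · intro x hx
        have hx := hG hx
        rw [hEb, hE1, Finset.mem_filter, Finset.mem_filter] at hx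
        obtain ⟨⟨hx, _⟩, h2⟩ := hx
        exact ⟨hPt x hx, hsp x hx, h2⟩
      · intro x hx y hy
        have h1 := hcl x hx y hy
        rw [norm_sub_vec] at h1
        refine le_trans (le_of_eq ?_) h1
        refine Finset.sum_congr rfl fun v _ => Finset.sum_congr rfl fun i _ => ?_
        congr 1
        ring
  have e1 := Nat.ceil_le_ceil cs
  have e2 := Nat.ceil_le_ceil cb
  rw [Nat.ceil_natCast] at e1 e2
  omega

theorem count (hN : S_NF) (hS : S_SPEC) : S_COUNT := by
  intro r
  obtain ⟨N, hN⟩ := hN r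
  refine ⟨N, fun F _ _ g hg E hE => ?_⟩
  obtain ⟨K, i1, i2, g', E', hg', hc, hE'⟩ := hS F r g E hg hE
  rw [← hc]
  exact hN K g' hg' E' hE'

end Pool.Agent.N175.BG
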