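import Mathlib
import Pool.Agent.N175.BG.Nf

set_option autoImplicit false

/-!
# Project BG: the scales of the solutions of `x + 1 = y`, where `x` and `y` are products of elements
of a group of bounded rank and of algebraic numbers of bounded height
-/

namespace Pool.Agent.N175.BG

open Finset NumberField IsDedekindDomain Pool.Agent.H691R3 Pool.Agent.TH876.Loc

section Hs

variable {K : Type} [Field K] [NumberField K]

theorem lg_mul (v : Pl K) {x y : K} (hx : x ≠ 0) (hy : y ≠ 0) : lg v (x * y) = lg v x + lg v y := by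
  unfold lg
  rw [map_mul, Real.log_mul ((av v).pos hx).ne' ((av v).pos hy).ne', mul_add]

theorem lg_inv (v : Pl K) (x : K) : lg v x⁻¹ = - lg v x := by
  unfold lg
  rw [map_inv₀, Real.log_inv, mul_neg]

theorem lg_neg (v : Pl K) (x : K) : lg v (-x) = lg v x := by
  unfold lg
  rw [(av v).map_neg]

/-- `x` has small height: the sum of the absolute values of the logarithms is at most `H`. -/
def Ht (H : ℝ) (x : K) : Prop := ∀ V : Finset (Pr K), ∑ v ∈ Spl V, |lg v x| ≤ H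

theorem Ht.mono {H H' : ℝ} {x : K} (h : Ht H x) (hh : H ≤ H') : Ht H' x :=
  fun V => (h V).trans hh

theorem Ht.mul {H H' : ℝ} {x y : K} (hx : x ≠ 0) (hy : y ≠ 0) (h : Ht H x) (h' : Ht H' y) :
    Ht (H + H') (x * y) := by
  intro V
  calc ∑ v ∈ Spl V, |lg v (x * y)| ≤ ∑ v ∈ Spl V, (|lg v x| + |lg v y|) := by
        refine Finset.sum_le_sum fun v _ => ?_
        rw [lg_mul v hx hy]
        exact abs_add_le _ _
    _ ≤ H + H' := by
        rw [Finset.sum_add_distrib]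
        exact add_le_add (h V) (h' V)

theorem Ht.inv {H : ℝ} {x : K} (h : Ht H x) : Ht H x⁻¹ := by
  intro V
  refine le_trans (le_of_eq ?_) (h V)
  exact Finset.sum_congr rfl fun v _ => by rw [lg_inv, abs_neg]

theorem Ht.neg {H : ℝ} {x : K} (h : Ht H x) : Ht H (-x) := by
  intro V
  refine le_trans (le_of_eq ?_) (h V)
  exact Finset.sum_congr rfl fun v _ => by rw [lg_neg]

theorem Ht.one {H : ℝ} (h : 0 ≤ H) : Ht H (1 : K) := by
  intro V
  refine le_trans (le_of_eq ?_) h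
  exact Finset.sum_eq_zero fun v _ => by rw [lg_one, abs_zero]

/-- Algebraic integers with small conjugates have small height. -/
theorem Ht.of_int {a : K} (ha : a ≠ 0) (hi : IsIntegral ℤ a) {s : ℕ}
    (hs : ∀ σ : K →+* ℂ, ‖σ a‖ ≤ 2 ^ s) : Ht (2 * (dK K * (s * Real.log 2))) a := by
  classical
  have hlog2 : 0 < Real.log 2 := Real.log_pos (by norm_num)
  intro V
  set V' : Finset (Pr K) := V ∪ (fv_support_finite ha).toFinset with hV'
  have hsub : Spl V ⊆ Spl V' := Spl_mono Finset.subset_union_left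
  have hV'1 : ∀ v, v ∉ V' → fv v a = 1 := by
    intro v hv
    by_contra h
    apply hv
    rw [hV']
    refine Finset.mem_union_right _ ?_
    rw [Set.Finite.mem_toFinset]
    exact h
  have hfin : ∀ v : Pr K, lg (Sum.inr v : Pl K) a ≤ 0 := by
    intro v
    show 1 * Real.log (fv v a) ≤ 0
    rw [one_mul]
    obtain ⟨b, hb⟩ : ∃ b : 𝓞 K, (b : K) = a := ⟨⟨a, hi⟩, rfl⟩
    refine Real.log_nonpos ((fv v).nonneg _) ?_
    rw [← hb]
    exact NumberField.FinitePlace.norm_le_one K v b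
  have hinf : ∀ w : InfinitePlace K, lg (Sum.inl w : Pl K) a ≤ w.mult * (s * Real.log 2) := by
    intro w
    show (w.mult : ℝ) * Real.log (w.1 a) ≤ _
    refine mul_le_mul_of_nonneg_left ?_ (Nat.cast_nonneg _)
    have h1 : w.1 a = ‖w.embedding a‖ := (InfinitePlace.norm_embedding_eq w a).symm
    rw [h1]
    have h2 : 0 < ‖w.embedding a‖ := by
      rw [norm_pos_iff]
      exact (map_ne_zero _).2 ha
    calc Real.log ‖w.embedding a‖ ≤ Real.log (2 ^ s) := Real.log_le_log h2 (hs w.embedding)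
      _ = s * Real.log 2 := Real.log_pow _ _
  calc ∑ v ∈ Spl V, |lg v a| ≤ ∑ v ∈ Spl V', |lg v a| :=
        Finset.sum_le_sum_of_subset_of_nonneg hsub fun v _ _ => abs_nonneg _
    _ = ∑ v ∈ Spl V', (2 * max (lg v a) 0 - lg v a) := by
        refine Finset.sum_congr rfl fun v _ => ?_
        rcases le_total (lg v a) 0 with h | h
        · rw [abs_of_nonpos h, max_eq_right h]; ring
        · rw [abs_of_nonneg h, max_eq_left h]; ring
    _ = 2 * ∑ v ∈ Spl V', max (lg v a) 0 := by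
        rw [Finset.sum_sub_distrib, sum_lg ha hV'1, sub_zero, Finset.mul_sum]
    _ ≤ 2 * (dK K * (s * Real.log 2)) := by
        refine mul_le_mul_of_nonneg_left ?_ (by norm_num)
        rw [sum_Spl]
        have h1 : ∑ v ∈ V', max (lg (Sum.inr v : Pl K) a) 0 = 0 :=
          Finset.sum_eq_zero fun v _ => max_eq_right (hfin v)
        rw [h1, add_zero]
        unfold dK
        rw [Finset.sum_mul]
        refine Finset.sum_le_sum fun w _ => max_le (hinf w) (by positivity)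

/-- `z` is the product of an element of small height and of an element of the division group. -/
def Nr {r : ℕ} (g : Fin r → K) (H : ℝ) (z : K) : Prop :=
  ∃ c γ : K, c ≠ 0 ∧ γ ≠ 0 ∧ Ht H c ∧ InDiv g γ ∧ z = c * γ

/-- the vector of the logarithms of the parts in the group -/
noncomputable def vec2 (V : Finset (Pr K)) (c : ℝ) (γ γ' : K) : LW V :=
  WithLp.toLp 1 fun p => c * (if p.2 = 0 then lg p.1.1 γ else if p.2 = 2 then lg p.1.1 γ' else 0)

theorem vec2_mem {r : ℕ} (V : Finset (Pr K)) {g : Fin r → K} (hg : ∀ j, g j ≠ 0) {γ γ' : K}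
    (h1 : InDiv g γ) (h2 : InDiv g γ') (c : ℝ) :
    vec2 V c γ γ' ∈ Submodule.span ℝ (Set.range (gen V g)) := by
  obtain ⟨a, ha⟩ := lg_indiv hg h1
  obtain ⟨b, hb⟩ := lg_indiv hg h2
  have key : vec2 V c γ γ' =
      ∑ j, ((c * a j) • gen V g (j, false) + (c * b j) • gen V g (j, true)) := by
    ext p
    obtain ⟨v, i⟩ := p
    have e1 : (∑ j, ((c * a j) • gen V g (j, false) + (c * b j) • gen V g (j, true))) (v, i) =
        ∑ j, (c * a j * (if i = 0 then lg v.1 (g j) else 0) +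
          c * b j * (if i = 2 then lg v.1 (g j) else 0)) := by
      rw [WithLp.ofLp_sum, Finset.sum_apply]
      refine Finset.sum_congr rfl fun j _ => ?_
      simp [gen]
    rw [e1]
    show c * (if i = 0 then lg v.1 γ else if i = 2 then lg v.1 γ' else 0) = _
    fin_cases i
    · show c * lg v.1 γ = ∑ j, (c * a j * lg v.1 (g j) + c * b j * 0)
      rw [ha, Finset.mul_sum]
      exact Finset.sum_congr rfl fun j _ => by ring
    · show c * 0 = ∑ j, (c * a j * 0 + c * b j * 0)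
      simp
    · show c * lg v.1 γ' = ∑ j, (c * a j * 0 + c * b j * lg v.1 (g j))
      rw [hb, Finset.mul_sum]
      exact Finset.sum_congr rfl fun j _ => by ring
  rw [key]
  refine Submodule.sum_mem _ fun j _ => Submodule.add_mem _ ?_ ?_
  · exact Submodule.smul_mem _ _ (Submodule.subset_span ⟨_, rfl⟩)
  · exact Submodule.smul_mem _ _ (Submodule.subset_span ⟨_, rfl⟩)

theorem norm_vec2 (V : Finset (Pr K)) {c H : ℝ} (hc : 0 ≤ c) {x c1 c2 γ γ' : K}
    (hc1 : c1 ≠ 0) (hc2 : c2 ≠ 0) (hγ : γ ≠ 0) (hγ' : γ' ≠ 0) (h1 : Ht H c1) (h2 : Ht H c2)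
    (e1 : x = c1 * γ) (e2 : x + 1 = c2 * γ') : ‖vec V c x - vec2 V c γ γ'‖ ≤ c * (2 * H) := by
  have hn : ‖vec V c x - vec2 V c γ γ'‖ = ∑ v ∈ Spl V, (c * |lg v c1| + c * |lg v c2|) := by
    rw [PiLp.norm_eq_of_L1, Fintype.sum_prod_type,
      ← Finset.sum_coe_sort (Spl V) (fun v => c * |lg v c1| + c * |lg v c2|)]
    refine Finset.sum_congr rfl fun v _ => ?_
    rw [Fin.sum_univ_three]
    have hneg : lg v.1 (L 2 x) = lg v.1 (x + 1) := by
      have : L 2 x = -(x + 1) := by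
        show -x - 1 = -(x + 1)
        ring
      rw [this, lg_neg]
    have a0 : ‖(vec V c x - vec2 V c γ γ') (v, 0)‖ = c * |lg v.1 c1| := by
      show ‖c * lg v.1 x - c * lg v.1 γ‖ = _
      rw [e1, lg_mul _ hc1 hγ, Real.norm_eq_abs]
      rw [show c * (lg v.1 c1 + lg v.1 γ) - c * lg v.1 γ = c * lg v.1 c1 by ring, abs_mul,
        abs_of_nonneg hc]
    have a1 : ‖(vec V c x - vec2 V c γ γ') (v, 1)‖ = 0 := by
      show ‖c * lg v.1 1 - c * 0‖ = _
      rw [lg_one]; simp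
    have a2 : ‖(vec V c x - vec2 V c γ γ') (v, 2)‖ = c * |lg v.1 c2| := by
      show ‖c * lg v.1 (L 2 x) - c * lg v.1 γ'‖ = _
      rw [hneg, e2, lg_mul _ hc2 hγ', Real.norm_eq_abs]
      rw [show c * (lg v.1 c2 + lg v.1 γ') - c * lg v.1 γ' = c * lg v.1 c2 by ring, abs_mul,
        abs_of_nonneg hc]
    rw [a0, a1, a2]
    ring
  rw [hn, Finset.sum_add_distrib, ← Finset.mul_sum, ← Finset.mul_sum]
  have := h1 V
  have := h2 V
  nlinarith

end Hs

theorem exists_fin' {α : Type*} {N : ℕ} (P : α → Prop)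
    (h : ∀ E : Finset α, (∀ x ∈ E, P x) → E.card ≤ N) :
    ∃ Z : Finset α, Z.card ≤ N ∧ ∀ x, P x ↔ x ∈ Z := by
  classical
  have hf : {x | P x}.Finite := by
    by_contra hinf
    obtain ⟨t, ht, hc⟩ := Set.Infinite.exists_subset_card_eq hinf (N + 1)
    have := h t fun x hx => ht hx
    omega
  refine ⟨hf.toFinset, h _ fun x hx => ?_, fun x => ?_⟩
  · rw [Set.Finite.mem_toFinset] at hx; exact hx
  · rw [Set.Finite.mem_toFinset]; rfl

theorem log_phi {K : Type} [Field K] [NumberField K] (φ : K →+* ℝ) {x : K} (hx : Pt x) :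
    |Real.log (|φ x|)| ≤ 6 * hgt x := by
  classical
  set w : InfinitePlace K := InfinitePlace.mk (Complex.ofRealHom.comp φ) with hw
  have h1 : w.1 x = |φ x| := by
    have : w x = ‖(Complex.ofRealHom.comp φ) x‖ := InfinitePlace.apply _ _
    have h2 : ‖(Complex.ofRealHom.comp φ) x‖ = |φ x| := by
      show ‖((φ x : ℝ) : ℂ)‖ = |φ x|
      rw [Complex.norm_real, Real.norm_eq_abs]
    exact this.trans h2
  have h2 : |Real.log (|φ x|)| ≤ |lg (Sum.inl w : Pl K) (L 0 x)| := by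
    show _ ≤ |(w.mult : ℝ) * Real.log (w.1 x)|
    rw [h1, abs_mul]
    have h3 : (1 : ℝ) ≤ |(w.mult : ℝ)| := by
      rw [abs_of_nonneg (Nat.cast_nonneg _)]
      exact_mod_cast InfinitePlace.mult_pos
    nlinarith [abs_nonneg (Real.log (|φ x|))]
  refine h2.trans (le_trans ?_ (sum_abs_le hx (V := sp x) (Finset.Subset.refl _)))
  calc |lg (Sum.inl w : Pl K) (L 0 x)| ≤ ∑ i : Fin 3, |lg (Sum.inl w : Pl K) (L i x)| :=
        Finset.single_le_sum (f := fun i : Fin 3 => |lg (Sum.inl w : Pl K) (L i x)|)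
          (fun i _ => abs_nonneg _) (Finset.mem_univ 0)
    _ ≤ _ := Finset.single_le_sum (f := fun v => ∑ i : Fin 3, |lg v (L i x)|)
          (fun v _ => Finset.sum_nonneg fun i _ => abs_nonneg _) (inl_mem_Spl _ w)

/-- SC: the number of the scales of the solutions. -/
def S_SC (N : ℕ → ℕ) : Prop :=
  ∀ (r : ℕ) (K : Type) [Field K] [NumberField K] (φ : K →+* ℝ) (g : Fin r → K) (H : ℝ),
    (∀ j, g j ≠ 0) → 0 ≤ H → ∃ T : Finset ℝ, T.card ≤ N r ∧ (∀ t ∈ T, 0 < t) ∧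
      ∀ z : K, z ≠ 0 → z + 1 ≠ 0 → Nr g H z → Nr g H (z + 1) → ∃ t ∈ T, t ≤ |φ z| ∧
        |φ z| ≤ Real.exp (12 * (40 * (dK K * Real.log 2) + 64 * H)) * t

theorem sc (hP : S_PACK) (hB : S_BIG) : S_SC (fun r => 11 * 449 ^ (2 * r) + 1) := by
  classical
  intro r K _ _ φ g H hg hH
  have hlog2 : 0 < Real.log 2 := Real.log_pos (by norm_num)
  obtain ⟨N, hN⟩ : ∃ N : ℕ, N = 11 * 449 ^ (2 * r) := ⟨_, rfl⟩
  show ∃ T : Finset ℝ, T.card ≤ 11 * 449 ^ (2 * r) + 1 ∧ (∀ t ∈ T, 0 < t) ∧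
      ∀ z : K, z ≠ 0 → z + 1 ≠ 0 → Nr g H z → Nr g H (z + 1) → ∃ t ∈ T, t ≤ |φ z| ∧
        |φ z| ≤ Real.exp (12 * (40 * (dK K * Real.log 2) + 64 * H)) * t
  rw [← hN]
  have hd1 : 1 ≤ dK K := dK_one
  have hd0 : 0 < dK K := by linarith
  obtain ⟨H0, hH0⟩ : ∃ H0, H0 = 40 * (dK K * Real.log 2) + 64 * H := ⟨_, rfl⟩
  have hH0p : 0 < H0 := by rw [hH0]; positivity
  have hH0a : 40 * (dK K * Real.log 2) ≤ H0 := by rw [hH0]; linarith
  have hH0b : 64 * H ≤ H0 := by
    rw [hH0]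
    have : 0 < dK K * Real.log 2 := by positivity
    linarith
  rw [← hH0]
  -- big solutions
  have hbig : ∀ E : Finset K, (∀ x ∈ E, (x ≠ 0 ∧ x + 1 ≠ 0 ∧ Nr g H x ∧ Nr g H (x + 1)) ∧
      H0 ≤ hgt x) → E.card ≤ N := by
    intro E hE
    have hPt : ∀ x ∈ E, Pt x := fun x hx => ⟨(hE x hx).1.1, (hE x hx).1.2.1⟩
    obtain ⟨V, hVdef⟩ : ∃ V, V = E.biUnion sp := ⟨_, rfl⟩
    have hsp : ∀ x ∈ E, sp x ⊆ V := fun x hx => by
      rw [hVdef]; exact Finset.subset_biUnion_of_mem sp hx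
    have hfin : FiniteDimensional ℝ (Submodule.span ℝ (Set.range (gen V g))) :=
      FiniteDimensional.span_of_finite ℝ (Set.finite_range _)
    have hch : ∀ x : K, ∃ γ γ' : K, x ∈ E → InDiv g γ ∧ InDiv g γ' ∧
        ∀ c : ℝ, 0 ≤ c → ‖vec V c x - vec2 V c γ γ'‖ ≤ c * (2 * H) := by
      intro x
      by_cases hx : x ∈ E
      · obtain ⟨c1, γ, a1, a2, a3, a4, a5⟩ := (hE x hx).1.2.2.1
        obtain ⟨c2, γ', b1, b2, b3, b4, b5⟩ := (hE x hx).1.2.2.2
        exact ⟨γ, γ', fun _ => ⟨a4, b4, fun c hc => norm_vec2 V hc a1 b1 a2 b2 a3 b3 a5 b5⟩⟩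
      · exact ⟨1, 1, fun h => absurd h hx⟩
    choose γ γ' hγ using hch
    have hpos : ∀ x ∈ E, 0 < hgt x := fun x hx => lt_of_lt_of_le hH0p (hE x hx).2
    have hsm : ∀ x ∈ E, ‖vec V (hgt x)⁻¹ x - vec2 V (hgt x)⁻¹ (γ x) (γ' x)‖ ≤ 1 / 32 := by
      intro x hx
      refine ((hγ x hx).2.2 _ (inv_nonneg.2 (hpos x hx).le)).trans ?_
      rw [inv_mul_le_iff₀ (hpos x hx)]
      have := (hE x hx).2
      linarith
    have cb : (E.card : ℝ) ≤ (11 : ℕ) * (4 * (7 : ℝ) / (1 / 16) + 1) ^ (2 * r) := by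
      refine hP (LW V) K _ (2 * r) E (fun x => vec2 V (hgt x)⁻¹ (γ x) (γ' x)) _ (1 / 16) 11 hfin
        (finrank_gen V g) (by norm_num) (by norm_num) ?_ ?_
      · intro x hx
        refine ⟨vec2_mem V hg (hγ x hx).1 (hγ x hx).2.1 _, ?_⟩
        have h1 := norm_vec_le (hPt x hx) (hsp x hx) (inv_nonneg.2 (hpos x hx).le)
        have h2 : (hgt x)⁻¹ * (6 * hgt x) = 6 := by
          have := (hpos x hx).ne'
          field_simp
        rw [h2] at h1
        have h3 := hsm x hx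
        calc ‖vec2 V (hgt x)⁻¹ (γ x) (γ' x)‖ = ‖vec V (hgt x)⁻¹ x -
              (vec V (hgt x)⁻¹ x - vec2 V (hgt x)⁻¹ (γ x) (γ' x))‖ := by
              congr 1; abel
          _ ≤ ‖vec V (hgt x)⁻¹ x‖ + ‖vec V (hgt x)⁻¹ x - vec2 V (hgt x)⁻¹ (γ x) (γ' x)‖ :=
              norm_sub_le _ _
          _ ≤ 7 := by linarith
      · intro G hG hcl
        refine hB K V G ?_ ?_
        · intro x hx
          have hx := hG hx
          exact ⟨hPt x hx, hsp x hx, hH0a.trans (hE x hx).2⟩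
        · intro x hx y hy
          have h1 := hcl x hx y hy
          have h2 := hsm x (hG hx)
          have h3 := hsm y (hG hy)
          have h4 : ‖vec V (hgt x)⁻¹ x - vec V (hgt y)⁻¹ y‖ ≤ 1 / 8 := by
            calc ‖vec V (hgt x)⁻¹ x - vec V (hgt y)⁻¹ y‖ =
                  ‖(vec V (hgt x)⁻¹ x - vec2 V (hgt x)⁻¹ (γ x) (γ' x)) +
                    (vec2 V (hgt x)⁻¹ (γ x) (γ' x) - vec2 V (hgt y)⁻¹ (γ y) (γ' y)) -
                    (vec V (hgt y)⁻¹ y - vec2 V (hgt y)⁻¹ (γ y) (γ' y))‖ := by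
                  congr 1; abel
              _ ≤ ‖(vec V (hgt x)⁻¹ x - vec2 V (hgt x)⁻¹ (γ x) (γ' x)) +
                    (vec2 V (hgt x)⁻¹ (γ x) (γ' x) - vec2 V (hgt y)⁻¹ (γ y) (γ' y))‖ +
                    ‖vec V (hgt y)⁻¹ y - vec2 V (hgt y)⁻¹ (γ y) (γ' y)‖ := norm_sub_le _ _
              _ ≤ (‖vec V (hgt x)⁻¹ x - vec2 V (hgt x)⁻¹ (γ x) (γ' x)‖ +
                    ‖vec2 V (hgt x)⁻¹ (γ x) (γ' x) - vec2 V (hgt y)⁻¹ (γ y) (γ' y)‖) +
                    ‖vec V (hgt y)⁻¹ y - vec2 V (hgt y)⁻¹ (γ y) (γ' y)‖ :=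
                  add_le_add_left (norm_add_le _ _) _
              _ ≤ 1 / 8 := by linarith
          rw [norm_sub_vec] at h4
          refine le_trans (le_of_eq ?_) h4
          refine Finset.sum_congr rfl fun v _ => Finset.sum_congr rfl fun i _ => ?_
          congr 1
          ring
    have e2 : (4 * (7 : ℝ) / (1 / 16) + 1) = 449 := by norm_num
    rw [e2] at cb
    rw [hN]
    exact_mod_cast cb
  obtain ⟨Z, hZ, hZ'⟩ := exists_fin' _ hbig
  refine ⟨insert (Real.exp (-(6 * H0))) (Z.image fun x => |φ x|), ?_, ?_, ?_⟩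
  · exact (card_insert_le _ _).trans (Nat.succ_le_succ (card_image_le.trans hZ))
  · intro t ht
    rw [mem_insert, mem_image] at ht
    rcases ht with rfl | ⟨x, hx, rfl⟩
    · exact Real.exp_pos _
    · exact abs_pos.2 ((map_ne_zero _).2 ((hZ' x).2 hx).1.1)
  · intro z h0 h1 h2 h3
    by_cases hb : H0 ≤ hgt z
    · refine ⟨|φ z|, mem_insert_of_mem (mem_image_of_mem _ ((hZ' z).1 ⟨⟨h0, h1, h2, h3⟩, hb⟩)),
        le_rfl, ?_⟩
      have h4 : (1 : ℝ) ≤ Real.exp (12 * H0) := Real.one_le_exp (by positivity)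
      nlinarith [abs_nonneg (φ z)]
    · refine ⟨_, mem_insert_self _ _, ?_, ?_⟩
      · have h4 := log_phi φ ⟨h0, h1⟩
        rw [not_le] at hb
        have h5 : 0 < |φ z| := abs_pos.2 ((map_ne_zero _).2 h0)
        rw [← Real.exp_log h5]
        refine Real.exp_le_exp.2 ?_
        have := (abs_le.1 h4).1
        linarith
      · have h4 := log_phi φ ⟨h0, h1⟩
        rw [not_le] at hb
        have h5 : 0 < |φ z| := abs_pos.2 ((map_ne_zero _).2 h0)
        rw [← Real.exp_add]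
        rw [← Real.exp_log h5]
        refine Real.exp_le_exp.2 ?_
        have := (abs_le.1 h4).2
        linarith

end Pool.Agent.N175.BG
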