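import Mathlib
import Pool.Agent.N175.BG.Sc
import Pool.Agent.N175.BG.Cls
import Pool.Agent.Y648.XR.Stm

set_option autoImplicit false

/-!
# Project BG: the cross ratios of a space whose circuit ratios lie in a group of bounded rank, up to
small algebraic factors
-/

namespace Pool.Agent.N175.BG

open Finset NumberField Pool.Agent.TH876.Loc

/-- `c` is `1` or a quotient of two nonzero algebraic integers of absolute value at most `2 ^ s`,
all conjugates included, and `F` is a number field of degree at most `s`. -/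
def Sml (F : Type) [Field F] [CharZero F] (s : ℕ) (c : F) : Prop :=
  c = 1 ∨ (FiniteDimensional ℚ F ∧ Module.finrank ℚ F ≤ s ∧ ∃ a b : F, a ≠ 0 ∧ b ≠ 0 ∧
    IsIntegral ℤ a ∧ IsIntegral ℤ b ∧ (∀ σ : F →+* ℂ, ‖σ a‖ ≤ 2 ^ s ∧ ‖σ b‖ ≤ 2 ^ s) ∧ c * b = a)

/-- The cross ratios of `L` are products of small numbers and of elements of the division group. -/
def GC (k s : ℕ) {m : ℕ} (L : Submodule ℝ (Fin m → ℝ)) : Prop :=
  ∃ (F : Subfield ℝ) (g : Fin k → F), (∀ j, g j ≠ 0) ∧
    ∀ C D, Pool.Agent.Y648.XR.Ele L C → Pool.Agent.Y648.XR.Ele L D →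
      Pool.Agent.Y648.XR.Mod L C D → ∀ i j, C i ≠ 0 → C j ≠ 0 → D i ≠ 0 → D j ≠ 0 →
      ∃ c γ : F, Sml F s c ∧ InDiv g γ ∧ C i / C j / (D i / D j) = c * γ

/-- The ratios of the entries of the elementary vectors, after multiplication of the coordinates by
nonzero reals, are products of small numbers and of elements of the division group. -/
def GR (k s : ℕ) {m : ℕ} (L : Submodule ℝ (Fin m → ℝ)) : Prop :=
  ∃ (F : Subfield ℝ) (g : Fin k → F) (μ : Fin m → ℝ), (∀ j, g j ≠ 0) ∧ (∀ i, μ i ≠ 0) ∧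
    ∀ C, Pool.Agent.Y648.XR.Ele L C → ∀ i j, C i ≠ 0 → C j ≠ 0 →
      ∃ c γ : F, Sml F s c ∧ InDiv g γ ∧ μ i * C i / (μ j * C j) = c * γ

theorem InDiv.ne_zero {F : Type*} [Field F] {r : ℕ} {g : Fin r → F} (hg : ∀ j, g j ≠ 0) {x : F}
    (hx : InDiv g x) : x ≠ 0 := by
  obtain ⟨m, hm, a, ha⟩ := hx
  intro h
  rw [h, zero_pow hm.ne'] at ha
  exact Finset.prod_ne_zero_iff.2 (fun j _ => zpow_ne_zero _ (hg j)) ha.symm

/-- the bound for the exponents -/
def rh (s : ℕ) : ℕ := 12 * (40 * s + 64 * (4 * s * s))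

theorem dK_eq {K : Type} [Field K] [NumberField K] : dK K = Module.finrank ℚ K := by
  unfold dK
  rw [← InfinitePlace.sum_mult_eq]
  push_cast
  rfl

theorem Ht.of_sml {F : Type} [Field F] [NumberField F] {s : ℕ} (hs : Module.finrank ℚ F ≤ s)
    {c : F} (hc : Sml F s c) : c ≠ 0 ∧ Ht (4 * (s * (s * Real.log 2))) c := by
  have hlog2 : 0 < Real.log 2 := Real.log_pos (by norm_num)
  have hd : dK F ≤ s := by
    rw [dK_eq]; exact_mod_cast hs
  have hd0 : 0 ≤ dK F := by linarith [dK_one (K := F)]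
  rcases hc with rfl | ⟨-, -, a, b, ha, hb, hia, hib, hσ, h⟩
  · exact ⟨one_ne_zero, Ht.one (by positivity)⟩
  · have hc : c = a * b⁻¹ := by field_simp; exact h
    refine ⟨by rw [hc]; exact mul_ne_zero ha (inv_ne_zero hb), ?_⟩
    have h1 : Ht (2 * (dK F * (s * Real.log 2))) a := Ht.of_int ha hia fun σ => (hσ σ).1
    have h2 : Ht (2 * (dK F * (s * Real.log 2))) b := Ht.of_int hb hib fun σ => (hσ σ).2
    rw [hc]
    refine (Ht.mul ha (inv_ne_zero hb) h1 h2.inv).mono ?_
    have h3 : dK F * (s * Real.log 2) ≤ s * (s * Real.log 2) :=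
      mul_le_mul_of_nonneg_right hd (by positivity)
    linarith

/-- CNT: the number of the solutions of `x + 1 = y` in groups of rank `r`. -/
def S_CNT (N : ℕ → ℕ) : Prop :=
  ∀ (r : ℕ) (F : Type) [Field F] [CharZero F] (g : Fin r → F), (∀ j, g j ≠ 0) →
    ∀ E : Finset F, (∀ x ∈ E, x ≠ 0 ∧ x + 1 ≠ 0 ∧ InDiv g x ∧ InDiv g (x + 1)) → E.card ≤ N r

/-- The scales of the solutions in a real field. -/
theorem scales_field {N1 N2 : ℕ → ℕ} (hC : S_CNT N1) (hS : S_SC N2) (k : ℕ) (s : ℕ)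
    (F : Subfield ℝ) (g : Fin k → F) (hg : ∀ j, g j ≠ 0) :
    ∃ T : Finset ℝ, T.card ≤ N1 k + N2 k + 1 ∧ (∀ t ∈ T, 0 < t) ∧
      1 ∈ T ∧ ∀ (z c c' γ γ' : F), z ≠ 0 → z + 1 ≠ 0 → Sml F s c → Sml F s c' →
        InDiv g γ → InDiv g γ' → z = c * γ → z + 1 = c' * γ' →
        ∃ t ∈ T, t ≤ |(z : ℝ)| ∧ |(z : ℝ)| ≤ 2 ^ rh s * t := by
  classical
  have hN1 := hC k
  have hN2 := hS k
  have hlog2 : 0 < Real.log 2 := Real.log_pos (by norm_num)
  by_cases hF : FiniteDimensional ℚ F ∧ Module.finrank ℚ F ≤ s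
  · obtain ⟨hF1, hF2⟩ := hF
    have : NumberField F := { to_charZero := inferInstance, to_finiteDimensional := hF1 }
    obtain ⟨T, hT1, hT2, hT3⟩ := hN2 F F.subtype g (4 * (s * (s * Real.log 2))) hg (by positivity)
    refine ⟨insert 1 T, (card_insert_le _ _).trans (by omega), ?_, mem_insert_self _ _, ?_⟩
    · intro t ht
      rcases mem_insert.1 ht with rfl | ht
      · exact one_pos
      · exact hT2 t ht
    · intro z c c' γ γ' h0 h1 hc hc' hγ hγ' e1 e2
      obtain ⟨a1, b1⟩ := Ht.of_sml hF2 hc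
      obtain ⟨a2, b2⟩ := Ht.of_sml hF2 hc'
      have n1 : Nr g (4 * (s * (s * Real.log 2))) z := ⟨c, γ, a1, hγ.ne_zero hg, b1, hγ, e1⟩
      have n2 : Nr g (4 * (s * (s * Real.log 2))) (z + 1) :=
        ⟨c', γ', a2, hγ'.ne_zero hg, b2, hγ', e2⟩
      obtain ⟨t, ht, h2, h3⟩ := hT3 z h0 h1 n1 n2
      refine ⟨t, mem_insert_of_mem ht, h2, h3.trans ?_⟩
      refine mul_le_mul_of_nonneg_right ?_ (hT2 t ht).le
      have h4 : (2 : ℝ) ^ rh s = Real.exp (rh s * Real.log 2) := by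
        rw [mul_comm, Real.exp_mul, Real.exp_log (by norm_num), Real.rpow_natCast]
      rw [h4]
      refine Real.exp_le_exp.2 ?_
      have hd : dK F ≤ s := by
        rw [dK_eq]; exact_mod_cast hF2
      have h5 : dK F * Real.log 2 ≤ s * Real.log 2 := mul_le_mul_of_nonneg_right hd hlog2.le
      unfold rh
      push_cast
      nlinarith
  · obtain ⟨Z, hZ1, hZ2⟩ := exists_fin' (N := N1 k)
      (fun z : F => z ≠ 0 ∧ z + 1 ≠ 0 ∧ InDiv g z ∧ InDiv g (z + 1)) (fun E hE => hN1 F g hg E hE)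
    have hsm : ∀ c : F, Sml F s c → c = 1 := by
      intro c hc
      rcases hc with h | ⟨h1, h2, -⟩
      · exact h
      · exact absurd ⟨h1, h2⟩ hF
    refine ⟨insert 1 (Z.image fun z : F => |(z : ℝ)|), ?_, ?_, mem_insert_self _ _, ?_⟩
    · have := card_image_le (s := Z) (f := fun z : F => |(z : ℝ)|)
      exact (card_insert_le _ _).trans (by omega)
    · intro t ht
      rcases mem_insert.1 ht with rfl | ht
      · exact one_pos
      · obtain ⟨z, hz, rfl⟩ := mem_image.1 ht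
        have := ((hZ2 z).2 hz).1
        exact abs_pos.2 (by exact_mod_cast this)
    · intro z c c' γ γ' h0 h1 hc hc' hγ hγ' e1 e2
      rw [hsm c hc, one_mul] at e1
      rw [hsm c' hc', one_mul] at e2
      have hz : z ∈ Z := (hZ2 z).1 ⟨h0, h1, by rw [e1]; exact hγ, by rw [e2]; exact hγ'⟩
      refine ⟨|(z : ℝ)|, mem_insert_of_mem (mem_image_of_mem _ hz), le_rfl, ?_⟩
      exact le_mul_of_one_le_left (abs_nonneg _) (one_le_pow₀ (by norm_num))

/-- The cross ratios. -/
theorem cross {N1 N2 : ℕ → ℕ} (hC : S_CNT N1) (hS : S_SC N2) (k m s : ℕ)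
    (L : Submodule ℝ (Fin m → ℝ)) (h : GC k s L) : ∃ T : Finset ℝ, T.card ≤ N1 k + N2 k + 1 ∧
      Pool.Agent.Y648.XR.CR T (rh s) L := by
  classical
  obtain ⟨F, g, hg, hL⟩ := h
  obtain ⟨T, hT1, hT2, hT3, hT4⟩ := scales_field hC hS k s F g hg
  refine ⟨T, hT1, hT2, ?_⟩
  intro C D hC hD hM i j ci cj di dj
  by_cases hx : C i * D j / (C j * D i) = 1
  · refine ⟨1, hT3, ?_, ?_⟩
    · rw [hx, abs_one]
    · rw [hx, abs_one, mul_one]; exact one_le_pow₀ (by norm_num)
  -- the cross ratio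
  obtain ⟨c1, γ1, s1, d1, e1⟩ := hL C D hC hD hM i j ci cj di dj
  have hX : C i * D j / (C j * D i) = ((c1 * γ1 : F) : ℝ) := by
    rw [show ((c1 * γ1 : F) : ℝ) = c1 * γ1 by push_cast; rfl, ← e1]
    field_simp
  -- a coordinate of `C` which is not a coordinate of `D`
  obtain ⟨l, hl1, hl2⟩ : ∃ l, C l ≠ 0 ∧ D l = 0 := by
    by_contra hcon
    push Not at hcon
    obtain ⟨t, ht⟩ := hD.2.2 C hC.1 (fun i hi => by
      by_contra h
      exact hcon i h hi)
    apply hx
    have hCi : C i = t * D i := congrFun ht i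
    have hCj : C j = t * D j := congrFun ht j
    have ht0 : t ≠ 0 := by
      intro h; rw [h, zero_mul] at hCi; exact ci hCi
    rw [hCi, hCj]
    field_simp
  -- the third elementary vector
  let E : Fin m → ℝ := fun a => D i * C a - C i * D a
  have hEmem : E ∈ L := by
    have : E = D i • C - C i • D := by funext a; rfl
    rw [this]
    exact L.sub_mem (L.smul_mem _ hC.1) (L.smul_mem _ hD.1)
  have hEi : E i = 0 := by show D i * C i - C i * D i = 0; ring
  have hEj : E j ≠ 0 := by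
    intro h
    apply hx
    have h1 : D i * C j - C i * D j = 0 := h
    rw [div_eq_one_iff_eq (mul_ne_zero cj di)]
    linarith
  have hEl : E l = D i * C l := by
    show D i * C l - C i * D l = _
    rw [hl2]; ring
  have hEl0 : E l ≠ 0 := by rw [hEl]; exact mul_ne_zero di hl1
  have hEs : ∀ p, C p = 0 → D p = 0 → E p = 0 := by
    intro p hp1 hp2
    show D i * C p - C i * D p = 0
    rw [hp1, hp2]; ring
  have hE : Pool.Agent.Y648.XR.Ele L E := by
    refine ⟨hEmem, fun h => hEj (congrFun h j), ?_⟩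
    intro G hG hs
    obtain ⟨a, b, hab⟩ := hM G hG (fun p hp1 hp2 => hs p (hEs p hp1 hp2))
    have h1 : G i = 0 := hs i hEi
    have h2 : a * C i + b * D i = 0 := by
      have := congrFun hab i
      rw [h1] at this
      exact this.symm
    refine ⟨a / D i, ?_⟩
    rw [hab]
    funext p
    show a * C p + b * D p = a / D i * (D i * C p - C i * D p)
    have h3 : b = - (a * C i) / D i := by field_simp; linarith
    rw [h3]
    field_simp
    ring
  have hEM : Pool.Agent.Y648.XR.Mod L E C := by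
    intro G hG hs
    obtain ⟨a, b, hab⟩ := hM G hG (fun p hp1 hp2 => hs p (hEs p hp1 hp2) hp1)
    refine ⟨-b / C i, a + b * D i / C i, ?_⟩
    rw [hab]
    funext p
    show a * C p + b * D p = -b / C i * (D i * C p - C i * D p) + (a + b * D i / C i) * C p
    field_simp
    ring
  obtain ⟨c2, γ2, s2, d2, e2⟩ := hL E C hE hC hEM j l hEj hEl0 cj hl1
  have hY : 1 - C i * D j / (C j * D i) = ((c2 * γ2 : F) : ℝ) := by
    rw [show ((c2 * γ2 : F) : ℝ) = c2 * γ2 by push_cast; rfl, ← e2, hEl]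
    show _ = (D i * C j - C i * D j) / (D i * C l) / (C j / C l)
    field_simp
  -- the solution
  have hz1 : ((-(c1 * γ1) : F) : ℝ) = - (C i * D j / (C j * D i)) := by
    rw [hX]; push_cast; ring
  have hz2 : (-(c1 * γ1) : F) + 1 = c2 * γ2 := by
    apply Subtype.val_injective
    show ((-(c1 * γ1) + 1 : F) : ℝ) = ((c2 * γ2 : F) : ℝ)
    rw [← hY, hX]
    push_cast
    ring
  have hx0 : C i * D j / (C j * D i) ≠ 0 := div_ne_zero (mul_ne_zero ci dj) (mul_ne_zero cj di)
  obtain ⟨t, ht, h1, h2⟩ := hT4 (-(c1 * γ1)) c1 c2 (-γ1) γ2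
    (by
      intro h
      rw [h] at hz1
      apply hx0
      have : ((0 : F) : ℝ) = 0 := rfl
      rw [this] at hz1
      linarith)
    (by
      intro h
      rw [hz2] at h
      rw [h] at hY
      have : ((0 : F) : ℝ) = 0 := rfl
      rw [this] at hY
      apply hx
      linarith)
    s1 s2 d1.neg d2 (by ring) hz2
  rw [hz1, abs_neg] at h1 h2
  exact ⟨t, ht, h1, h2⟩

end Pool.Agent.N175.BG
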