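import Pool.Agent.N175.BG.Defs

set_option autoImplicit false

/-! DET: the determinant of the matrix of a cycle. -/

namespace Pool.Agent.N175.BG

open Finset

theorem det : S_DET := by
  intro s A hA
  have hrot : ∀ i : Fin (s + 2), finRotate (s + 2) i = i + 1 := fun i => finRotate_apply i
  have hne : (1 : Equiv.Perm (Fin (s + 2))) ≠ finRotate (s + 2) := by
    intro h
    have h1 := congrArg (fun σ : Equiv.Perm (Fin (s + 2)) => σ 0) h
    simp only [Equiv.Perm.coe_one, id_eq, hrot, zero_add] at h1
    exact absurd h1 (by simp)
  have hz : ∀ σ : Equiv.Perm (Fin (s + 2)), σ ≠ 1 ∧ σ ≠ finRotate (s + 2) →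
      ((Equiv.Perm.sign σ : ℤ) : ℝ) * ∏ i, A (σ i) i = 0 := by
    rintro σ ⟨h1, h2⟩
    rw [mul_eq_zero]
    right
    by_contra hne0
    have hA' : ∀ i, σ i = i ∨ σ i = i + 1 := by
      intro i
      have h3 : A (σ i) i ≠ 0 := fun h => hne0 (prod_eq_zero (mem_univ i) h)
      exact hA _ _ h3
    by_cases hex : ∃ i0, σ i0 = i0
    · obtain ⟨i0, hi0⟩ := hex
      apply h1
      -- going down
      have step : ∀ j, σ (j + 1) = j + 1 → σ j = j := by
        intro j hj
        rcases hA' j with h | h
        · exact h
        · exfalso
          have h4 : σ j = σ (j + 1) := by rw [h, hj]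
          have h5 := σ.injective h4
          have h6 : (1 : Fin (s + 2)) = 0 := by
            have : j + 0 = j + 1 := by rw [add_zero]; exact h5
            exact (add_left_cancel this).symm
          exact absurd h6 (by simp)
      have hall : ∀ (k : ℕ) (j : Fin (s + 2)), (i0 - j).val = k → σ j = j := by
        intro k
        induction k with
        | zero =>
          intro j hj
          have h7 : i0 - j = 0 := Fin.ext hj
          rw [← sub_eq_zero.1 h7]
          exact hi0
        | succ k ih =>
          intro j hj
          apply step
          apply ih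
          have h7 : i0 - j ≠ 0 := by
            intro h
            rw [h] at hj
            simp at hj
          have h8 : i0 - (j + 1) = i0 - j - 1 := by abel
          rw [h8, Fin.val_sub_one_of_ne_zero h7, hj]
          rfl
      ext i
      rw [hall _ i rfl]
      rfl
    · push Not at hex
      apply h2
      ext i
      rw [hrot]
      rcases hA' i with h | h
      · exact absurd h (hex i)
      · rw [h]
  rw [Matrix.det_apply', Fintype.sum_eq_add 1 (finRotate (s + 2)) hne hz]
  congr 1
  · simp
  · rw [sign_finRotate]
    simp only [hrot]
    push_cast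
    ring_nf

end Pool.Agent.N175.BG
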