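import Mathlib

set_option autoImplicit false

/-!
# Potentials for a bipartite gain graph all of whose induced cycles have gains in `S` (helper768)
-/

namespace Pool.Agent.N175.BG.Hol

open Finset

variable {V G : Type} [CommGroup G] (adj : V → V → Prop) (c : V → Bool) (g : V → V → G) (S : Set G)

/-- gain of an open walk -/
def wt : List V → G
  | [] => 1
  | [_] => 1
  | x :: y :: l => g x y * wt (y :: l)

/-- gain of a closed walk -/
def cy : List V → G
  | [] => 1
  | x :: l => wt g (x :: (l ++ [x]))

/-- closed walks -/
def CC : List V → Prop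
  | [] => True
  | x :: l => List.IsChain adj (x :: (l ++ [x]))

theorem wt_cons_cons (x y : V) (l : List V) : wt g (x :: y :: l) = g x y * wt g (y :: l) := rfl

theorem wt_single (x : V) : wt g [x] = 1 := rfl

theorem cy_cons (x : V) (l : List V) : cy g (x :: l) = wt g (x :: (l ++ [x])) := rfl

theorem CC_cons (x : V) (l : List V) : CC adj (x :: l) = List.IsChain adj (x :: (l ++ [x])) := rfl

theorem wt_append (z : V) : ∀ l m : List V, wt g (l ++ z :: m) = wt g (l ++ [z]) * wt g (z :: m)
  | [], m => by simp [wt_single]
  | [x], m => by simp [wt_cons_cons, wt_single]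
  | x :: y :: l, m => by
      have h := wt_append z (y :: l) m
      simp only [List.cons_append, wt_cons_cons] at h ⊢
      rw [h, mul_assoc]

theorem wt_append2 (y : V) (x : V) (l m : List V) :
    wt g (l ++ x :: y :: m) = wt g (l ++ [x]) * g x y * wt g (y :: m) := by
  rw [wt_append, wt_cons_cons, mul_assoc]

theorem wt_reverse (hg : ∀ x y, g y x = (g x y)⁻¹) : ∀ l : List V, wt g l.reverse = (wt g l)⁻¹
  | [] => by simp [wt]
  | [x] => by simp [wt]
  | x :: y :: l => by
      have h := wt_reverse hg (y :: l)
      rw [List.reverse_cons, List.reverse_cons, List.append_assoc, List.singleton_append,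
        wt_append, ← List.reverse_cons, h, wt_cons_cons, wt_cons_cons, wt_single, hg x y]
      rw [mul_one, mul_inv_rev]

/-- rotation -/
theorem cy_rotate (l1 l2 : List V) (x : V) : cy g (l1 ++ x :: l2) = cy g (x :: (l2 ++ l1)) := by
  rcases l1 with _ | ⟨y, l1⟩
  · simp
  · rw [List.cons_append, cy_cons, cy_cons]
    have h1 := wt_append g x (y :: l1) (l2 ++ [y])
    have h2 := wt_append g y (x :: l2) (l1 ++ [x])
    simp only [List.cons_append, List.append_assoc] at h1 h2 ⊢
    rw [h1, h2, mul_comm]

theorem CC_rotate (l1 l2 : List V) (x : V) : CC adj (l1 ++ x :: l2) ↔ CC adj (x :: (l2 ++ l1)) := by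
  rcases l1 with _ | ⟨y, l1⟩
  · simp
  · rw [List.cons_append, CC_cons, CC_cons]
    have h1 := List.isChain_split (R := adj) (c := x) (l₁ := y :: l1) (l₂ := l2 ++ [y])
    have h2 := List.isChain_split (R := adj) (c := y) (l₁ := x :: l2) (l₂ := l1 ++ [x])
    simp only [List.cons_append, List.append_assoc] at h1 h2 ⊢
    rw [h1, h2, and_comm]

/-- splitting at a repeated vertex -/
theorem cy_split (a : V) (m w : List V) :
    cy g (a :: (m ++ a :: w)) = cy g (a :: m) * cy g (a :: w) := by
  rw [cy_cons, cy_cons, cy_cons]
  have h := wt_append g a (a :: m) (w ++ [a])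
  simp only [List.cons_append, List.append_assoc] at h ⊢
  exact h

theorem CC_split (a : V) (m w : List V) :
    CC adj (a :: (m ++ a :: w)) ↔ CC adj (a :: m) ∧ CC adj (a :: w) := by
  rw [CC_cons, CC_cons, CC_cons]
  have h := List.isChain_split (R := adj) (c := a) (l₁ := a :: m) (l₂ := w ++ [a])
  simp only [List.cons_append, List.append_assoc] at h ⊢
  exact h

/-- splitting at a chord -/
theorem cy_chord (hg : ∀ x y, g y x = (g x y)⁻¹) (a b : V) (m w : List V) :
    cy g (a :: (m ++ b :: w)) = cy g (a :: (m ++ [b])) * cy g (a :: b :: w) := by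
  rw [cy_cons, cy_cons, cy_cons]
  have h := wt_append g b (a :: m) (w ++ [a])
  have h2 := wt_append g b (a :: m) [a]
  simp only [List.cons_append, List.append_assoc, List.nil_append] at h h2 ⊢
  rw [h, h2]
  simp only [wt_cons_cons, wt_single, hg a b]
  group

theorem CC_chord (hs : ∀ x y, adj x y → adj y x) (a b : V) (hab : adj a b) (m w : List V)
    (h : CC adj (a :: (m ++ b :: w))) : CC adj (a :: (m ++ [b])) ∧ CC adj (a :: b :: w) := by
  rw [CC_cons] at h
  rw [CC_cons, CC_cons]
  have h1 := List.isChain_split (R := adj) (c := b) (l₁ := a :: m) (l₂ := w ++ [a])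
  have h2 := List.isChain_split (R := adj) (c := b) (l₁ := a :: m) (l₂ := [a])
  simp only [List.cons_append, List.append_assoc, List.nil_append] at h h1 h2 ⊢
  rw [h1] at h
  rw [h2]
  refine ⟨⟨h.1, ?_⟩, ?_⟩
  · simpa using hs a b hab
  · rw [List.isChain_cons_cons]
    exact ⟨hab, h.2⟩

/-- lists with a repetition -/
theorem exists_rep : ∀ l : List V, ¬ l.Nodup → ∃ (w1 : List V) (a : V) (m w2 : List V),
    l = w1 ++ a :: (m ++ a :: w2)
  | [], h => absurd List.nodup_nil h
  | x :: l, h => by
      by_cases hx : x ∈ l
      · obtain ⟨m, w2, rfl⟩ := List.append_of_mem hx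
        exact ⟨[], x, m, w2, rfl⟩
      · rw [List.nodup_cons, not_and] at h
        obtain ⟨w1, a, m, w2, rfl⟩ := exists_rep l (h hx)
        exact ⟨x :: w1, a, m, w2, rfl⟩

/-- the colours along a walk -/
theorem colour (hc : ∀ x y, adj x y → c x ≠ c y) : ∀ (l : List V) (x y : V),
    List.IsChain adj (x :: (l ++ [y])) → (c x = c y ↔ Odd l.length)
  | [], x, y, h => by
      have h1 : adj x y := by simpa using h
      have h2 := hc x y h1
      simp [h2]
  | z :: l, x, y, h => by
      rw [List.cons_append, List.isChain_cons_cons] at h
      have h1 := hc x z h.1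
      have h2 := colour hc l z y h.2
      rw [List.length_cons, Nat.odd_add_one, ← h2]
      rcases hx : c x <;> rcases hz : c z <;> rcases hy : c y <;> simp_all

/-- the gain of a walk as a product -/
theorem wt_prod (d : V) : ∀ l : List V,
    wt g l = ∏ t ∈ range (l.length - 1), g (l.getD t d) (l.getD (t + 1) d)
  | [] => by simp [wt]
  | [x] => by simp [wt]
  | x :: y :: l => by
      have h := wt_prod d (y :: l)
      rw [wt_cons_cons, h]
      simp only [List.length_cons, Nat.add_sub_cancel]
      rw [Finset.prod_range_succ' _ (l.length)]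
      simp only [List.getD_cons_succ, List.getD_cons_zero]
      rw [mul_comm]

/-- decomposition at two places -/
theorem decomp (l : List V) (i j : ℕ) (hij : i < j) (hj : j < l.length) :
    ∃ w1 m w2 : List V, l = w1 ++ l[i]'(hij.trans hj) :: (m ++ l[j] :: w2) ∧ w1.length = i ∧
      m.length = j - i - 1 ∧ w2.length = l.length - j - 1 := by
  refine ⟨l.take i, (l.drop (i + 1)).take (j - i - 1), l.drop (j + 1), ?_, ?_, ?_, ?_⟩
  · have h1 : l = l.take i ++ l.drop i := (List.take_append_drop i l).symm
    have h2 : l.drop i = l[i]'(hij.trans hj) :: l.drop (i + 1) := List.drop_eq_getElem_cons _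
    have h3 : l.drop (i + 1) = (l.drop (i + 1)).take (j - i - 1) ++ (l.drop (i + 1)).drop (j - i - 1) :=
      (List.take_append_drop _ _).symm
    have h4 : (l.drop (i + 1)).drop (j - i - 1) = l.drop j := by
      rw [List.drop_drop]
      congr 1
      omega
    have h5 : l.drop j = l[j] :: l.drop (j + 1) := List.drop_eq_getElem_cons _
    conv_lhs => rw [h1, h2, h3, h4, h5]
  · rw [List.length_take]
    omega
  · rw [List.length_take, List.length_drop]
    omega
  · rw [List.length_drop]
    omega

/-- chordless -/
def CL (l : List V) : Prop := ∀ (w1 : List V) (a : V) (m : List V) (b : V) (w2 : List V),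
  l = w1 ++ a :: (m ++ b :: w2) → adj a b → m = [] ∨ (w1 = [] ∧ w2 = [])

/-- induced cycles -/
theorem induced [Fintype V] [DecidableEq V] (hs : ∀ x y, adj x y → adj y x) (hc : ∀ x y, adj x y → c x ≠ c y)
    (hS : ∀ (s : ℕ) (w : Fin (2 * (s + 2)) → V), Function.Injective w → c (w 0) = true →
      (∀ i j, adj (w i) (w j) ↔ j = i + 1 ∨ i = j + 1) → ∏ i, g (w i) (w (i + 1)) ∈ S)
    (l : List V) (hne : l ≠ []) (hcc : CC adj l) (hnd : l.Nodup) (hcl : CL adj l)
    (hhead : ∀ x ∈ l.head?, c x = true) (hlen : 3 ≤ l.length) : cy g l ∈ S := by
  obtain ⟨x, l', rfl⟩ := List.exists_cons_of_ne_nil hne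
  rw [CC_cons] at hcc
  have hodd : Odd l'.length := (colour adj c hc l' x x hcc).mp rfl
  obtain ⟨k, hk⟩ := hodd
  set L := x :: l' with hL
  have hLlen : L.length = 2 * (k + 1) := by
    rw [hL, List.length_cons, hk]
    ring
  obtain ⟨s, rfl⟩ : ∃ s, k = s + 1 := by
    refine ⟨k - 1, ?_⟩
    omega
  have hLlen' : L.length = 2 * (s + 2) := by rw [hLlen]
  -- the function
  set w : Fin (2 * (s + 2)) → V := fun i => L.get (i.cast hLlen'.symm) with hw
  have hwi : ∀ i : Fin (2 * (s + 2)), w i = L[i.val]'(by rw [hLlen']; exact i.isLt) := fun i => rfl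
  have hw0 : w 0 = x := rfl
  have hadj : ∀ i : Fin (2 * (s + 2)), adj (w i) (w (i + 1)) := by
    intro i
    have hget : ∀ t (ht : t < L.length), (L ++ [x])[t]'(by rw [List.length_append]; omega) = L[t] := fun t ht =>
      List.getElem_append_left ht
    have hch : List.IsChain adj (L ++ [x]) := by
      have : L ++ [x] = x :: (l' ++ [x]) := by rw [hL]; rfl
      rw [this]
      exact hcc
    rw [List.isChain_iff_getElem] at hch
    by_cases hi : i.val + 1 < 2 * (s + 2)
    · have h1 := hch i.val (by rw [List.length_append, hLlen', List.length_singleton]; omega)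
      rw [hget _ (by rw [hLlen']; omega), hget _ (by rw [hLlen']; omega)] at h1
      have h2 : (i + 1).val = i.val + 1 := by
        rw [Fin.val_add, Fin.val_one', Nat.mod_eq_of_lt (by omega : 1 < 2 * (s + 2)), Nat.mod_eq_of_lt hi]
      rw [hwi, hwi]
      simp only [h2]
      exact h1
    · have hi' : i.val = 2 * (s + 2) - 1 := by
        have := i.isLt
        omega
      have h1 := hch i.val (by rw [List.length_append, hLlen', List.length_singleton]; omega)
      rw [hget _ (by rw [hLlen']; omega)] at h1
      have h2 : (i + 1) = 0 := by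
        apply Fin.ext
        rw [Fin.val_add, Fin.val_one', Nat.mod_eq_of_lt (by omega : 1 < 2 * (s + 2)), hi']
        have : 2 * (s + 2) - 1 + 1 = 2 * (s + 2) := by omega
        rw [this, Nat.mod_self]
        rfl
      have h3 : (L ++ [x])[i.val + 1]'(by rw [List.length_append, hLlen', List.length_singleton]; omega) = x := by
        rw [List.getElem_append_right (by rw [hLlen']; omega)]
        simp
      rw [h3] at h1
      rw [h2, hw0, hwi]
      exact h1
  have hlt : ∀ i j : Fin (2 * (s + 2)), i.val < j.val → adj (w i) (w j) → j = i + 1 ∨ i = j + 1 := by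
    intro i j hij hadj'
    obtain ⟨w1, m, w2, e1, e2, e3, e4⟩ := decomp L i.val j.val hij (by rw [hLlen']; exact j.isLt)
    rcases hcl w1 _ m _ w2 e1 hadj' with h | ⟨h, h'⟩
    · left
      rw [h, List.length_nil] at e3
      apply Fin.ext
      rw [Fin.val_add, Fin.val_one', Nat.mod_eq_of_lt (by omega : 1 < 2 * (s + 2)),
        Nat.mod_eq_of_lt (by have := j.isLt; omega)]
      omega
    · right
      rw [h, List.length_nil] at e2
      rw [h', List.length_nil, hLlen'] at e4
      apply Fin.ext
      rw [Fin.val_add, Fin.val_one', Nat.mod_eq_of_lt (by omega : 1 < 2 * (s + 2))]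
      have : j.val + 1 = 2 * (s + 2) := by
        have := j.isLt
        omega
      rw [this, Nat.mod_self]
      exact e2.symm
  have hinj : Function.Injective w := by
    intro i j hij
    have h1 := (List.Nodup.getElem_inj_iff hnd (hi := by rw [hLlen']; exact i.isLt)
      (hj := by rw [hLlen']; exact j.isLt)).mp hij
    exact Fin.ext h1
  have key := hS s w hinj (hhead x (by simp [hL])) (by
    intro i j
    constructor
    · intro h
      rcases lt_trichotomy i.val j.val with h1 | h1 | h1
      · exact hlt i j h1 h
      · exfalso
        have : i = j := Fin.ext h1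
        rw [this] at h
        exact hc _ _ h rfl
      · exact (hlt j i h1 (hs _ _ h)).symm
    · rintro (rfl | rfl)
      · exact hadj i
      · exact hs _ _ (hadj j))
  have hprod : cy g L = ∏ i, g (w i) (w (i + 1)) := by
    rw [hL, cy_cons, wt_prod g x]
    have hlen2 : (x :: (l' ++ [x])).length - 1 = 2 * (s + 2) := by
      simp only [List.length_cons, List.length_append, List.length_nil]
      omega
    rw [hlen2, Finset.prod_range]
    apply Finset.prod_congr rfl
    intro i _
    have hLa : x :: (l' ++ [x]) = L ++ [x] := by rw [hL]; rfl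
    have h1 : (x :: (l' ++ [x])).getD i.val x = w i := by
      rw [hLa, List.getD_append _ _ _ _ (by rw [hLlen']; exact i.isLt), List.getD_eq_getElem _ _ (by rw [hLlen']; exact i.isLt)]
      exact (hwi i).symm
    have h2 : (x :: (l' ++ [x])).getD (i.val + 1) x = w (i + 1) := by
      by_cases hi : i.val + 1 < 2 * (s + 2)
      · have h2 : (i + 1).val = i.val + 1 := by
          rw [Fin.val_add, Fin.val_one', Nat.mod_eq_of_lt (by omega : 1 < 2 * (s + 2)), Nat.mod_eq_of_lt hi]
        rw [hLa, List.getD_append _ _ _ _ (by rw [hLlen']; exact hi), List.getD_eq_getElem _ _ (by rw [hLlen']; exact hi),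
          hwi]
        simp only [h2]
      · have hi' : i.val + 1 = 2 * (s + 2) := by
          have := i.isLt
          omega
        have h2 : (i + 1) = 0 := by
          apply Fin.ext
          rw [Fin.val_add, Fin.val_one', Nat.mod_eq_of_lt (by omega : 1 < 2 * (s + 2)), hi', Nat.mod_self]
          rfl
        rw [h2, hw0, hLa, List.getD_append_right _ _ _ _ (by rw [hLlen', hi']), hi', hLlen']
        simp
    rw [h1, h2]
  rw [hprod]
  exact key

/-- the main step -/
theorem closed [Fintype V] [DecidableEq V] (hs : ∀ x y, adj x y → adj y x) (hc : ∀ x y, adj x y → c x ≠ c y)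
    (hg : ∀ x y, g y x = (g x y)⁻¹)
    (hS : ∀ (s : ℕ) (w : Fin (2 * (s + 2)) → V), Function.Injective w → c (w 0) = true →
      (∀ i j, adj (w i) (w j) ↔ j = i + 1 ∨ i = j + 1) → ∏ i, g (w i) (w (i + 1)) ∈ S) :
    ∀ (n : ℕ) (l : List V), l.length = n → CC adj l →
      ∃ r : List G, r.length ≤ n / 2 - 1 ∧ (∀ z ∈ r, z ∈ S ∨ z⁻¹ ∈ S) ∧ cy g l = r.prod := by
  intro n
  induction n using Nat.strong_induction_on with
  | _ n ih =>
    -- lists whose head has the colour `true`
    have core : ∀ l : List V, l.length = n → CC adj l → (∀ x ∈ l.head?, c x = true) →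
        ∃ r : List G, r.length ≤ n / 2 - 1 ∧ (∀ z ∈ r, z ∈ S ∨ z⁻¹ ∈ S) ∧ cy g l = r.prod := by
      intro l hn hcc hhead
      by_cases hnd : l.Nodup
      · by_cases hcl : CL adj l
        · -- induced cycle, or a short one
          by_cases hlen : 3 ≤ l.length
          · have hne : l ≠ [] := by
              rintro rfl
              simp at hlen
            have h1 := induced adj c g S hs hc hS l hne hcc hnd hcl hhead hlen
            refine ⟨[cy g l], ?_, ?_, by simp⟩
            · obtain ⟨x, l', rfl⟩ := List.exists_cons_of_ne_nil hne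
              rw [CC_cons] at hcc
              obtain ⟨k, hk⟩ := (colour adj c hc l' x x hcc).mp rfl
              simp only [List.length_cons, List.length_nil] at hlen hn ⊢
              omega
            · intro z hz
              rw [List.mem_singleton] at hz
              left
              rw [hz]
              exact h1
          · refine ⟨[], Nat.zero_le _, by simp, ?_⟩
            rcases l with _ | ⟨x, _ | ⟨y, _ | ⟨z, l⟩⟩⟩
            · rfl
            · exfalso
              rw [CC_cons] at hcc
              have : adj x x := by simpa using hcc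
              exact hc _ _ this rfl
            · simp [cy_cons, wt_cons_cons, wt_single, hg x y]
            · simp at hlen
        · -- a chord
          unfold CL at hcl
          push Not at hcl
          obtain ⟨w1, a, m, b, w2, rfl, hab, hm, hw⟩ := hcl
          have hww : w2 ++ w1 ≠ [] := by
            intro h
            rw [List.append_eq_nil_iff] at h
            exact hw h.2 h.1
          have hcc' : CC adj (a :: (m ++ b :: (w2 ++ w1))) := by
            have h := (CC_rotate adj w1 (m ++ b :: w2) a).mp hcc
            simpa using h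
          have hcy : cy g (w1 ++ a :: (m ++ b :: w2)) = cy g (a :: (m ++ b :: (w2 ++ w1))) := by
            have h := cy_rotate g w1 (m ++ b :: w2) a
            simpa using h
          obtain ⟨hc1, hc2⟩ := CC_chord adj hs a b hab m (w2 ++ w1) hcc'
          have hm0 : 0 < m.length := List.length_pos_of_ne_nil hm
          have hw0 : 0 < w2.length + w1.length := by
            rw [← List.length_append]
            exact List.length_pos_of_ne_nil hww
          simp only [List.length_append, List.length_cons] at hn
          obtain ⟨r1, hr1, hr1', hr1''⟩ := ih (m.length + 2) (by omega) (a :: (m ++ [b])) (by simp) hc1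
          obtain ⟨r2, hr2, hr2', hr2''⟩ := ih (w2.length + w1.length + 2) (by omega) (a :: b :: (w2 ++ w1))
            (by simp) hc2
          refine ⟨r1 ++ r2, ?_, ?_, ?_⟩
          · rw [List.length_append]
            omega
          · intro z hz
            rw [List.mem_append] at hz
            rcases hz with hz | hz
            · exact hr1' z hz
            · exact hr2' z hz
          · rw [hcy, cy_chord g hg, hr1'', hr2'', List.prod_append]
      · -- a repeated vertex
        obtain ⟨w1, a, m, w2, rfl⟩ := exists_rep l hnd
        have hcc' : CC adj (a :: (m ++ a :: (w2 ++ w1))) := by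
          have h := (CC_rotate adj w1 (m ++ a :: w2) a).mp hcc
          simpa using h
        have hcy : cy g (w1 ++ a :: (m ++ a :: w2)) = cy g (a :: (m ++ a :: (w2 ++ w1))) := by
          have h := cy_rotate g w1 (m ++ a :: w2) a
          simpa using h
        obtain ⟨hc1, hc2⟩ := (CC_split adj a m (w2 ++ w1)).mp hcc'
        have hloop : ∀ u : List V, CC adj (a :: u) → 0 < u.length := by
          intro u hu
          rcases u with _ | ⟨y, u⟩
          · exfalso
            rw [CC_cons] at hu
            have : adj a a := by simpa using hu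
            exact hc _ _ this rfl
          · simp
        have hm0 := hloop m hc1
        have hw0 := hloop _ hc2
        simp only [List.length_append, List.length_cons] at hn hw0
        obtain ⟨r1, hr1, hr1', hr1''⟩ := ih (m.length + 1) (by omega) (a :: m) (by simp) hc1
        obtain ⟨r2, hr2, hr2', hr2''⟩ := ih (w2.length + w1.length + 1) (by omega) (a :: (w2 ++ w1))
          (by simp) hc2
        refine ⟨r1 ++ r2, ?_, ?_, ?_⟩
        · rw [List.length_append]
          omega
        · intro z hz
          rw [List.mem_append] at hz
          rcases hz with hz | hz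
          · exact hr1' z hz
          · exact hr2' z hz
        · rw [hcy, cy_split, hr1'', hr2'', List.prod_append]
    intro l hn hcc
    rcases l with _ | ⟨x, l⟩
    · exact core [] hn hcc (by simp)
    · by_cases hx : c x = true
      · exact core (x :: l) hn hcc (by simpa using hx)
      · rcases l with _ | ⟨y, l⟩
        · exfalso
          rw [CC_cons] at hcc
          have : adj x x := by simpa using hcc
          exact hc _ _ this rfl
        · have hxy : adj x y := by
            rw [CC_cons] at hcc
            simp only [List.cons_append, List.isChain_cons_cons] at hcc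
            exact hcc.1
          have hy : c y = true := by
            have h := hc x y hxy
            rw [Bool.not_eq_true] at hx
            rw [hx] at h
            cases hy' : c y with
            | true => rfl
            | false => exact absurd hy'.symm h
          have hrot : CC adj (y :: (l ++ [x])) := by
            have := (CC_rotate adj [x] l y).mp (by simpa using hcc)
            exact this
          have hcy : cy g (x :: y :: l) = cy g (y :: (l ++ [x])) := cy_rotate g [x] l y
          rw [hcy]
          exact core (y :: (l ++ [x])) (by simpa using hn) hrot (by simpa using hy)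

/-- the statement, with the bound for the lengths -/
theorem hol_aux [Fintype V] [DecidableEq V] (hs : ∀ x y, adj x y → adj y x) (hc : ∀ x y, adj x y → c x ≠ c y)
    (hg : ∀ x y, g y x = (g x y)⁻¹)
    (hS : ∀ (s : ℕ) (w : Fin (2 * (s + 2)) → V), Function.Injective w → c (w 0) = true →
      (∀ i j, adj (w i) (w j) ↔ j = i + 1 ∨ i = j + 1) → ∏ i, g (w i) (w (i + 1)) ∈ S) :
    ∃ pot : V → G, ∀ x y, adj x y → ∃ l : List G, l.length ≤ 2 * Fintype.card V ∧
      (∀ z ∈ l, z ∈ S ∨ z⁻¹ ∈ S) ∧ pot x * g x y * (pot y)⁻¹ = l.prod := by
  classical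
  let Gr : SimpleGraph V :=
    { Adj := adj
      symm := ⟨fun x y h => hs x y h⟩
      loopless := ⟨fun x h => hc x x h rfl⟩ }
  let root : V → V := fun x => (Gr.connectedComponentMk x).out
  have hreach : ∀ x, Gr.Reachable (root x) x := by
    intro x
    have : Gr.connectedComponentMk (root x) = Gr.connectedComponentMk x := Quot.out_eq _
    exact SimpleGraph.ConnectedComponent.exact this
  choose p hp using fun x => (hreach x).exists_isPath
  refine ⟨fun x => wt g (p x).support, fun x y hxy => ?_⟩
  have hroot : root x = root y := by
    have : Gr.connectedComponentMk x = Gr.connectedComponentMk y :=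
      SimpleGraph.ConnectedComponent.sound (SimpleGraph.Adj.reachable hxy)
    simp only [root, this]
  -- the supports
  obtain ⟨a', ha⟩ : ∃ a', (p x).support = root x :: a' := ⟨_, (SimpleGraph.Walk.cons_tail_support _).symm⟩
  obtain ⟨b', hb⟩ : ∃ b', (p y).support = root y :: b' := ⟨_, (SimpleGraph.Walk.cons_tail_support _).symm⟩
  obtain ⟨a'', ha''⟩ : ∃ a'', (p x).support = a'' ++ [x] :=
    ⟨_, (SimpleGraph.Walk.dropLast_support_concat _).symm⟩
  obtain ⟨b'', hb''⟩ : ∃ b'', (p y).support = b'' ++ [y] :=
    ⟨_, (SimpleGraph.Walk.dropLast_support_concat _).symm⟩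
  have hla : a'.length < Fintype.card V := by
    have h1 := (hp x).length_lt
    have h2 := SimpleGraph.Walk.length_support (p x)
    rw [ha, List.length_cons] at h2
    omega
  have hlb : b'.length < Fintype.card V := by
    have h1 := (hp y).length_lt
    have h2 := SimpleGraph.Walk.length_support (p y)
    rw [hb, List.length_cons] at h2
    omega
  have hclosed : root x :: ((a' ++ b'.reverse) ++ [root x]) = a'' ++ x :: y :: b''.reverse := by
    have h1 : root x :: a' = a'' ++ [x] := ha.symm.trans ha''
    have h2 : b'.reverse ++ [root x] = y :: b''.reverse := by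
      have h3 : root y :: b' = b'' ++ [y] := hb.symm.trans hb''
      have h4 := congrArg List.reverse h3
      rw [List.reverse_cons, List.reverse_append, List.reverse_singleton, List.singleton_append] at h4
      rw [hroot]
      exact h4
    calc root x :: ((a' ++ b'.reverse) ++ [root x]) = (root x :: a') ++ (b'.reverse ++ [root x]) := by simp
      _ = (a'' ++ [x]) ++ (y :: b''.reverse) := by rw [h1, h2]
      _ = _ := by simp
  have hcc : CC adj (root x :: (a' ++ b'.reverse)) := by
    rw [CC_cons, hclosed]
    have h1 : List.IsChain adj (a'' ++ [x]) := by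
      rw [← ha'']
      exact (p x).isChain_adj_support
    have h2 : List.IsChain adj (y :: b''.reverse) := by
      have h3 : List.IsChain adj (b'' ++ [y]) := by
        rw [← hb'']
        exact (p y).isChain_adj_support
      have h4 : (y :: b''.reverse) = (b'' ++ [y]).reverse := by simp
      rw [h4, List.isChain_reverse]
      exact h3.imp fun u v huv => hs u v huv
    rw [List.isChain_split, List.isChain_cons_cons]
    exact ⟨h1, hxy, h2⟩
  obtain ⟨r, hr1, hr2, hr3⟩ := closed adj c g S hs hc hg hS _ _ rfl hcc
  refine ⟨r, ?_, hr2, ?_⟩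
  · simp only [List.length_cons, List.length_append, List.length_reverse] at hr1
    omega
  · rw [← hr3, cy_cons, hclosed, wt_append2, ← ha'']
    congr 1
    have h4 : (y :: b''.reverse) = (p y).support.reverse := by
      rw [hb'']
      simp
    rw [h4, wt_reverse g hg]

end Pool.Agent.N175.BG.Hol
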