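import Pool.Agent.N175.BG.Defs
import Pool.Agent.N175.BG.HolAux

set_option autoImplicit false

namespace Pool.Agent.N175.BG

theorem hol : S_HOL := by
  intro V G _ _ _ adj c g S hs hc hg hS
  exact Hol.hol_aux adj c g S hs hc hg hS

end Pool.Agent.N175.BG
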