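import Mathlib
import Pool.Agent.N175.BG.Defs

set_option autoImplicit false

/-!
# Project BG: counting by a covering in a normed space
-/

namespace Pool.Agent.N175.BG

open Finset MeasureTheory Metric Module

theorem sep_card {E : Type*} [NormedAddCommGroup E] [NormedSpace ℝ E] [FiniteDimensional ℝ E]
    (s : Finset E) (R ε : ℝ) (hε : 0 < ε) (hR : 0 ≤ R) (hs : ∀ c ∈ s, ‖c‖ ≤ R)
    (h : ∀ c ∈ s, ∀ d ∈ s, c ≠ d → ε / 2 ≤ ‖c - d‖) :
    (s.card : ℝ) ≤ (4 * R / ε + 1) ^ finrank ℝ E := by
  borelize E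
  let μ : Measure E := Measure.addHaar
  let δ : ℝ := ε / 4
  let ρ : ℝ := R + ε / 4
  have δpos : 0 < δ := by show 0 < ε / 4; positivity
  have ρpos : 0 < ρ := by show 0 < R + ε / 4; positivity
  set A := ⋃ c ∈ s, ball (c : E) δ with hA
  have D : Set.Pairwise (s : Set E) (Function.onFun Disjoint fun c => ball (c : E) δ) := by
    rintro c hc d hd hcd
    apply ball_disjoint_ball
    rw [dist_eq_norm]
    have := h c hc d hd hcd
    show ε / 4 + ε / 4 ≤ _
    linarith
  have A_subset : A ⊆ ball (0 : E) ρ := by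
    refine Set.iUnion₂_subset fun x hx => ?_
    apply ball_subset_ball'
    rw [dist_zero_right]
    show ε / 4 + ‖x‖ ≤ R + ε / 4
    have := hs x hx
    linarith
  have I : (s.card : ENNReal) * ENNReal.ofReal (δ ^ finrank ℝ E) * μ (ball 0 1) ≤
      ENNReal.ofReal (ρ ^ finrank ℝ E) * μ (ball 0 1) :=
    calc
      (s.card : ENNReal) * ENNReal.ofReal (δ ^ finrank ℝ E) * μ (ball 0 1) = μ A := by
        rw [hA, measure_biUnion_finset D fun c _ => measurableSet_ball]
        simp only [μ.addHaar_ball_of_pos _ δpos, Finset.sum_const, nsmul_eq_mul, mul_assoc]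
      _ ≤ μ (ball (0 : E) ρ) := measure_mono A_subset
      _ = ENNReal.ofReal (ρ ^ finrank ℝ E) * μ (ball 0 1) := by
        simp only [μ.addHaar_ball_of_pos _ ρpos]
  have J : (s.card : ENNReal) * ENNReal.ofReal (δ ^ finrank ℝ E) ≤
      ENNReal.ofReal (ρ ^ finrank ℝ E) :=
    (ENNReal.mul_le_mul_iff_left (measure_ball_pos _ _ zero_lt_one).ne'
      measure_ball_lt_top.ne).1 I
  have K : (s.card : ℝ) * δ ^ finrank ℝ E ≤ ρ ^ finrank ℝ E := by
    have := ENNReal.toReal_le_of_le_ofReal (pow_nonneg ρpos.le _) J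
    rwa [ENNReal.toReal_mul, ENNReal.toReal_natCast,
      ENNReal.toReal_ofReal (pow_nonneg δpos.le _)] at this
  have h1 : (4 * R / ε + 1) = ρ / δ := by
    show 4 * R / ε + 1 = (R + ε / 4) / (ε / 4)
    field_simp
  rw [h1, div_pow, le_div_iff₀ (pow_pos δpos _)]
  exact K

theorem pack : S_PACK := by
  classical
  intro E _ _ ι _ U d F f R ε M hfin hd hε hR hF hG
  -- a maximal separated subset
  let P : Finset (Finset ι) := F.powerset.filter fun S =>
    ∀ x ∈ S, ∀ y ∈ S, x ≠ y → ε / 2 < ‖f x - f y‖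
  have hPne : P.Nonempty := ⟨∅, by
    rw [mem_filter]
    exact ⟨mem_powerset.2 (empty_subset _), fun x hx => absurd hx (notMem_empty x)⟩⟩
  obtain ⟨S, hS, hmax⟩ := P.exists_max_image Finset.card hPne
  rw [mem_filter, mem_powerset] at hS
  obtain ⟨hSF, hsep⟩ := hS
  -- the points of `S`
  have hinj : ∀ x ∈ S, ∀ y ∈ S, f x = f y → x = y := by
    intro x hx y hy hxy
    by_contra hne
    have := hsep x hx y hy hne
    rw [hxy, sub_self, norm_zero] at this
    linarith
  have hcard : (S.card : ℝ) ≤ (4 * R / ε + 1) ^ d := by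
    let φ : ι → U := fun x => if h : f x ∈ U then ⟨f x, h⟩ else 0
    have hφ : ∀ x ∈ S, (φ x : E) = f x := by
      intro x hx
      show ((if h : f x ∈ U then (⟨f x, h⟩ : U) else 0 : U) : E) = f x
      rw [dif_pos (hF x (hSF hx)).1]
    have h1 := sep_card (S.image φ) R ε hε hR (by
      intro c hc
      obtain ⟨x, hx, rfl⟩ := mem_image.1 hc
      rw [Submodule.coe_norm, hφ x hx]
      exact (hF x (hSF hx)).2) (by
      intro c hc e he hne
      obtain ⟨x, hx, rfl⟩ := mem_image.1 hc
      obtain ⟨y, hy, rfl⟩ := mem_image.1 he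
      rw [Submodule.coe_norm, Submodule.coe_sub, hφ x hx, hφ y hy]
      refine (hsep x hx y hy ?_).le
      rintro rfl
      exact hne rfl)
    rw [card_image_of_injOn] at h1
    · refine h1.trans (pow_le_pow_right₀ ?_ hd)
      have : 0 ≤ 4 * R / ε := by positivity
      linarith
    · intro x hx y hy hxy
      apply hinj x hx y hy
      rw [← hφ x hx, ← hφ y hy, hxy]
  have hcov : F ⊆ S.biUnion fun x => F.filter fun y => ‖f y - f x‖ ≤ ε / 2 := by
    intro y hy
    rw [mem_biUnion]
    by_contra hcon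
    push Not at hcon
    have hfar : ∀ x ∈ S, ε / 2 < ‖f y - f x‖ := by
      intro x hx
      have h1 := hcon x hx
      rw [mem_filter] at h1
      push Not at h1
      exact h1 hy
    have hyS : y ∉ S := by
      intro h
      have := hfar y h
      rw [sub_self, norm_zero] at this
      linarith
    have h1 : insert y S ∈ P := by
      rw [mem_filter, mem_powerset]
      refine ⟨insert_subset hy hSF, ?_⟩
      intro a ha b hb hne
      rcases mem_insert.1 ha with ha' | ha'
      · rcases mem_insert.1 hb with hb' | hb'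
        · exact absurd (ha'.trans hb'.symm) hne
        · rw [ha']; exact hfar b hb'
      · rcases mem_insert.1 hb with hb' | hb'
        · rw [norm_sub_rev, hb']; exact hfar a ha'
        · exact hsep a ha' b hb' hne
    have h2 := hmax _ h1
    rw [card_insert_of_notMem hyS] at h2
    omega
  have hle : F.card ≤ S.card * M := by
    refine (card_le_card hcov).trans (card_biUnion_le_card_mul _ _ _ ?_)
    intro x hx
    refine hG _ (filter_subset _ _) ?_
    intro a ha b hb
    rw [mem_filter] at ha hb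
    calc ‖f a - f b‖ = ‖(f a - f x) - (f b - f x)‖ := by congr 1; abel
      _ ≤ ‖f a - f x‖ + ‖f b - f x‖ := norm_sub_le _ _
      _ ≤ ε := by linarith [ha.2, hb.2]
  calc (F.card : ℝ) ≤ ((S.card * M : ℕ) : ℝ) := by exact_mod_cast hle
    _ = M * S.card := by push_cast; ring
    _ ≤ M * (4 * R / ε + 1) ^ d := mul_le_mul_of_nonneg_left hcard (Nat.cast_nonneg _)

end Pool.Agent.N175.BG
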