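import Mathlib
import Pool.Agent.N175.BG.Defs

set_option autoImplicit false

/-!
# BG/SPEC: specialisation of finitely many solutions of `x + 1 = y` to a number field
-/

namespace Pool.Agent.N175.BG

namespace Spec

open Finset

/-- A nonzero finitely generated `ℚ`-algebra has a homomorphism to a number field. -/
theorem exists_hom (A : Type) [CommRing A] [Nontrivial A] [Algebra ℚ A]
    (hft : Algebra.FiniteType ℚ A) :
    ∃ (K : Type) (_ : Field K) (_ : NumberField K), Nonempty (A →+* K) := by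
  obtain ⟨m, hm⟩ := Ideal.exists_maximal A
  let fK : Field (A ⧸ m) := Ideal.Quotient.field m
  have hft2 : Algebra.FiniteType ℚ (A ⧸ m) :=
    Algebra.FiniteType.of_surjective (Ideal.Quotient.mkₐ ℚ m) (Ideal.Quotient.mkₐ_surjective ℚ m)
  have hfin : Module.Finite ℚ (A ⧸ m) := finite_of_finite_type_of_isJacobsonRing ℚ (A ⧸ m)
  have hch : CharZero (A ⧸ m) := algebraRat.charZero (A ⧸ m)
  have hN : NumberField (A ⧸ m) := @NumberField.mk (A ⧸ m) fK hch (by
    convert hfin
    exact Subsingleton.elim _ _)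
  exact ⟨A ⧸ m, fK, hN, ⟨Ideal.Quotient.mk m⟩⟩

/-- Finitely many nonzero elements of a field of characteristic zero become units of a finitely
generated `ℚ`-algebra, which has a homomorphism to a number field. -/
theorem exists_spec {F : Type} [Field F] [CharZero F] (T : Finset F) (hT : ∀ t ∈ T, t ≠ 0) :
    ∃ (K : Type) (_ : Field K) (_ : NumberField K) (A : Subalgebra ℚ F) (_ : A →+* K),
      ∀ t ∈ T, ∃ U : Aˣ, ((U : A) : F) = t := by
  classical
  obtain ⟨A, hA⟩ : ∃ A, A = Algebra.adjoin ℚ ((T ∪ T.image fun t => t⁻¹ : Finset F) : Set F) :=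
    ⟨_, rfl⟩
  have hfg : A.FG := ⟨_, hA.symm⟩
  have hft : Algebra.FiniteType ℚ A := (Subalgebra.fg_iff_finiteType _).1 hfg
  obtain ⟨K, fK, hN, ⟨ψ⟩⟩ := exists_hom A hft
  refine ⟨K, fK, hN, A, ψ, fun t ht => ?_⟩
  have h1 : t ∈ A := by
    rw [hA]
    exact Algebra.subset_adjoin (by simp [ht])
  have h2 : t⁻¹ ∈ A := by
    rw [hA]
    exact Algebra.subset_adjoin (by simp [ht])
  refine ⟨⟨⟨t, h1⟩, ⟨t⁻¹, h2⟩, ?_, ?_⟩, rfl⟩
  · ext
    simp [hT t ht]
  · ext
    simp [hT t ht]

lemma indiv_map {F K : Type} [Field F] [Field K] {k : Type} [Field k] [Algebra k F]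
    {A : Subalgebra k F} (ψ : A →+* K) {r : ℕ} (g : Fin r → F) (G : Fin r → Aˣ)
    (hG : ∀ j, ((G j : A) : F) = g j) (z : F) (Z : Aˣ) (hZ : ((Z : A) : F) = z)
    (h : InDiv g z) : InDiv (fun j => ψ (G j : A)) (ψ (Z : A)) := by
  obtain ⟨m, hm, a, e⟩ := h
  refine ⟨m, hm, a, ?_⟩
  have e1 : Z ^ m = ∏ j, G j ^ a j := by
    have inj : Function.Injective (Units.map (A.val : A →* F)) :=
      Units.map_injective Subtype.val_injective
    apply inj
    apply Units.ext
    rw [map_pow, map_prod, Units.val_pow_eq_pow_val, Units.coe_prod]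
    simp only [map_zpow, Units.val_zpow_eq_zpow_val]
    have e2 : ∀ W : Aˣ, ((Units.map (A.val : A →* F) W : Fˣ) : F) = ((W : A) : F) := fun W => rfl
    simp only [e2, hG, hZ]
    exact e
  have e3 := congrArg (fun W => ((Units.map (ψ : A →* K) W : Kˣ) : K)) e1
  simp only [map_pow, map_prod, Units.val_pow_eq_pow_val, Units.coe_prod, map_zpow,
    Units.val_zpow_eq_zpow_val] at e3
  exact e3

end Spec

/-- **Specialisation to number fields.** -/
theorem spec : S_SPEC := by
  intro F _ _ r g E hg hE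
  classical
  set T : Finset F := Finset.univ.image g ∪ E ∪ E.image (fun x => x + 1) ∪
    E.offDiag.image (fun q => q.1 - q.2) with hTd
  have hT : ∀ t ∈ T, t ≠ 0 := by
    intro t ht
    rw [hTd] at ht
    simp only [Finset.mem_union, Finset.mem_image, Finset.mem_univ, true_and,
      Finset.mem_offDiag] at ht
    rcases ht with ((⟨j, rfl⟩ | ht) | ⟨x, hx, rfl⟩) | ⟨q, hq, rfl⟩
    · exact hg j
    · exact (hE t ht).1
    · exact (hE x hx).2.1
    · exact sub_ne_zero.2 hq.2.2
  have m1 : ∀ j, g j ∈ T := fun j => by simp [hTd]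
  have m2 : ∀ x ∈ E, x ∈ T := fun x hx => by simp [hTd, hx]
  have m3 : ∀ x ∈ E, x + 1 ∈ T := fun x hx => by
    rw [hTd]
    simp only [Finset.mem_union, Finset.mem_image]
    exact Or.inl (Or.inr ⟨x, hx, rfl⟩)
  have m4 : ∀ x ∈ E, ∀ y ∈ E, x ≠ y → x - y ∈ T := fun x hx y hy hxy => by
    rw [hTd]
    simp only [Finset.mem_union, Finset.mem_image, Finset.mem_offDiag]
    exact Or.inr ⟨(x, y), ⟨hx, hy, hxy⟩, rfl⟩
  obtain ⟨K, fK, nK, A, ψ, lift⟩ := Spec.exists_spec T hT
  choose! U hU using lift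
  have nz : ∀ W : Aˣ, ψ (W : A) ≠ 0 := fun W => (Units.map (ψ : A →* K) W).ne_zero
  have add1 : ∀ x ∈ E, ψ (U x : A) + 1 = ψ (U (x + 1) : A) := by
    intro x hx
    rw [← map_one ψ, ← map_add]
    congr 1
    apply Subtype.ext
    rw [hU _ (m3 x hx)]
    push_cast
    rw [hU _ (m2 x hx)]
  refine ⟨K, fK, nK, fun j => ψ (U (g j) : A), E.image (fun x => ψ (U x : A)), fun j => nz _,
    ?_, ?_⟩
  · refine Finset.card_image_of_injOn ?_
    intro x hx y hy hxy
    by_contra hne
    have hx' : x ∈ E := hx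
    have hy' : y ∈ E := hy
    apply nz (U (x - y))
    have e : (U (x - y) : A) = (U x : A) - (U y : A) := by
      apply Subtype.ext
      rw [hU _ (m4 x hx' y hy' hne)]
      push_cast
      rw [hU _ (m2 x hx'), hU _ (m2 y hy')]
    have hxy' : ψ (U x : A) = ψ (U y : A) := hxy
    rw [e, map_sub, hxy', sub_self]
  · intro w hw
    obtain ⟨x, hx, rfl⟩ := Finset.mem_image.1 hw
    obtain ⟨h1, h2, h3, h4⟩ := hE x hx
    refine ⟨nz _, ?_, ?_, ?_⟩
    · rw [add1 x hx]
      exact nz _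
    · exact Spec.indiv_map ψ g (fun j => U (g j)) (fun j => hU _ (m1 j)) x (U x)
        (hU _ (m2 x hx)) h3
    · rw [add1 x hx]
      exact Spec.indiv_map ψ g (fun j => U (g j)) (fun j => hU _ (m1 j)) (x + 1) (U (x + 1))
        (hU _ (m3 x hx)) h4

end Pool.Agent.N175.BG
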