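import Mathlib
import Pool.Agent.N175.BG.Defs

set_option autoImplicit false

/-!
# A lower bound for the height of the points of `x + y = 1` (Zagier), by compactness
-/

namespace Pool.Agent.N175.BG

open Finset NumberField IsDedekindDomain Pool.Agent.H691R3 Pool.Agent.TH876.Loc

theorem cpx_zero {a b : ℂ} (ha : ‖a‖ = 1) (hb : ‖b‖ = 1) (hab : ‖a + b‖ = 1) :
    a ^ 2 + a * b + b ^ 2 = 0 := by
  have h1 : a * (starRingEnd ℂ) a = 1 := by
    rw [Complex.mul_conj, Complex.normSq_eq_norm_sq, ha]; norm_num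
  have h2 : b * (starRingEnd ℂ) b = 1 := by
    rw [Complex.mul_conj, Complex.normSq_eq_norm_sq, hb]; norm_num
  have h3 : (a + b) * ((starRingEnd ℂ) a + (starRingEnd ℂ) b) = 1 := by
    rw [← map_add, Complex.mul_conj, Complex.normSq_eq_norm_sq, hab]; norm_num
  linear_combination (a * b) * h3 - (a * b) * h1 - a ^ 2 * h2 - b ^ 2 * h1 - (a * b) * h2

theorem cpx : ∃ t : ℕ, ∀ a b : ℂ, ‖a‖ ≤ 1 → ‖b‖ ≤ 1 → ‖a + b‖ ≤ 1 →
    ‖a ^ 2 + a * b + b ^ 2‖ * (‖a‖ * ‖b‖ * ‖a + b‖) ^ t ≤ 1 / 2 := by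
  set f : ℂ × ℂ → ℝ := fun p => ‖p.1 ^ 2 + p.1 * p.2 + p.2 ^ 2‖ with hf
  set g : ℂ × ℂ → ℝ := fun p => ‖p.1‖ * ‖p.2‖ * ‖p.1 + p.2‖ with hg
  have hfc : Continuous f := by fun_prop
  have hgc : Continuous g := by fun_prop
  set S : Set (ℂ × ℂ) := {p | ‖p.1‖ ≤ 1 ∧ ‖p.2‖ ≤ 1 ∧ ‖p.1 + p.2‖ ≤ 1 ∧ 1 / 2 ≤ f p} with hS
  have hcl : IsClosed S := by
    have c1 : Continuous fun p : ℂ × ℂ => ‖p.1‖ := by fun_prop
    have c2 : Continuous fun p : ℂ × ℂ => ‖p.2‖ := by fun_prop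
    have c3 : Continuous fun p : ℂ × ℂ => ‖p.1 + p.2‖ := by fun_prop
    exact (isClosed_le c1 continuous_const).inter ((isClosed_le c2 continuous_const).inter
      ((isClosed_le c3 continuous_const).inter (isClosed_le continuous_const hfc)))
  have hcpt : IsCompact S := by
    refine IsCompact.of_isClosed_subset (isCompact_closedBall (0 : ℂ × ℂ) 1) hcl ?_
    intro p hp
    rw [mem_closedBall_zero_iff, Prod.norm_def]
    exact max_le hp.1 hp.2.1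
  have hg0 : ∀ p, 0 ≤ g p := fun p => by rw [hg]; positivity
  have key : ∃ ρ : ℝ, 0 ≤ ρ ∧ ρ < 1 ∧ ∀ p ∈ S, g p ≤ ρ := by
    by_cases hne : S.Nonempty
    swap
    · refine ⟨0, le_rfl, one_pos, fun p hp => ?_⟩
      exact absurd ⟨p, hp⟩ hne
    obtain ⟨p, hp, hmax⟩ := hcpt.exists_isMaxOn hne hgc.continuousOn
    refine ⟨g p, hg0 p, ?_, fun q hq => hmax hq⟩
    by_contra hcon
    push Not at hcon
    obtain ⟨h1, h2, h3, h4⟩ := hp
    have n1 := norm_nonneg p.1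
    have n2 := norm_nonneg p.2
    have n3 := norm_nonneg (p.1 + p.2)
    have hcon' : 1 ≤ ‖p.1‖ * ‖p.2‖ * ‖p.1 + p.2‖ := hcon
    have e12 : ‖p.1‖ * ‖p.2‖ ≤ 1 := mul_le_one₀ h1 n2 h2
    have e3 : ‖p.1 + p.2‖ = 1 := by
      refine le_antisymm h3 ?_
      calc 1 ≤ ‖p.1‖ * ‖p.2‖ * ‖p.1 + p.2‖ := hcon'
        _ ≤ 1 * ‖p.1 + p.2‖ := mul_le_mul_of_nonneg_right e12 n3
        _ = _ := one_mul _
    rw [e3, mul_one] at hcon'
    have e1 : ‖p.1‖ = 1 := by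
      refine le_antisymm h1 ?_
      calc 1 ≤ ‖p.1‖ * ‖p.2‖ := hcon'
        _ ≤ ‖p.1‖ * 1 := mul_le_mul_of_nonneg_left h2 n1
        _ = _ := mul_one _
    have e2 : ‖p.2‖ = 1 := by
      refine le_antisymm h2 ?_
      rw [e1, one_mul] at hcon'
      exact hcon'
    have e4 := cpx_zero e1 e2 e3
    have h4' : 1 / 2 ≤ ‖p.1 ^ 2 + p.1 * p.2 + p.2 ^ 2‖ := h4
    rw [e4, norm_zero] at h4'
    norm_num at h4'
  obtain ⟨ρ, hρ0, hρ1, hρ⟩ := key
  obtain ⟨t, ht⟩ := exists_pow_lt_of_lt_one (by norm_num : (0 : ℝ) < 1 / 6) hρ1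
  refine ⟨t, fun a b ha hb hab => ?_⟩
  have n1 := norm_nonneg a
  have n2 := norm_nonneg b
  have n3 := norm_nonneg (a + b)
  have hga : g (a, b) = ‖a‖ * ‖b‖ * ‖a + b‖ := rfl
  by_cases h : 1 / 2 ≤ f (a, b)
  · have h1 : g (a, b) ≤ ρ := hρ (a, b) ⟨ha, hb, hab, h⟩
    rw [← hga]
    have h2 : ‖a ^ 2 + a * b + b ^ 2‖ ≤ 3 := by
      refine (norm_add₃_le).trans ?_
      rw [norm_pow, norm_mul, norm_pow]
      have e1 : ‖a‖ ^ 2 ≤ 1 := pow_le_one₀ n1 ha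
      have e2 : ‖b‖ ^ 2 ≤ 1 := pow_le_one₀ n2 hb
      have e3 : ‖a‖ * ‖b‖ ≤ 1 := mul_le_one₀ ha n2 hb
      linarith
    calc ‖a ^ 2 + a * b + b ^ 2‖ * g (a, b) ^ t ≤ 3 * ρ ^ t :=
          mul_le_mul h2 (pow_le_pow_left₀ (hg0 _) h1 t) (pow_nonneg (hg0 _) _) (by norm_num)
      _ ≤ 1 / 2 := by linarith
  · push Not at h
    have h1 : ‖a ^ 2 + a * b + b ^ 2‖ < 1 / 2 := h
    have h2 : (‖a‖ * ‖b‖ * ‖a + b‖) ^ t ≤ 1 :=
      pow_le_one₀ (by positivity) (mul_le_one₀ (mul_le_one₀ ha n2 hb) n3 hab)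
    have h3 : 0 ≤ (‖a‖ * ‖b‖ * ‖a + b‖) ^ t := by positivity
    calc ‖a ^ 2 + a * b + b ^ 2‖ * (‖a‖ * ‖b‖ * ‖a + b‖) ^ t ≤ 1 / 2 * 1 :=
          mul_le_mul h1.le h2 h3 (by norm_num)
      _ = 1 / 2 := mul_one _

theorem cpx_hom {t : ℕ} (ht : ∀ a b : ℂ, ‖a‖ ≤ 1 → ‖b‖ ≤ 1 → ‖a + b‖ ≤ 1 →
    ‖a ^ 2 + a * b + b ^ 2‖ * (‖a‖ * ‖b‖ * ‖a + b‖) ^ t ≤ 1 / 2) (a b : ℂ) {m : ℝ} (hm : 0 < m)
    (ha : ‖a‖ ≤ m) (hb : ‖b‖ ≤ m) (hab : ‖a + b‖ ≤ m) :
    2 * (‖a ^ 2 + a * b + b ^ 2‖ * (‖a‖ * ‖b‖ * ‖a + b‖) ^ t) ≤ m ^ (2 + 3 * t) := by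
  have hmc : (m : ℂ) ≠ 0 := by exact_mod_cast hm.ne'
  have hn : ‖(m : ℂ)‖ = m := by rw [Complex.norm_real, Real.norm_of_nonneg hm.le]
  have ea : ‖a / m‖ = ‖a‖ / m := by rw [norm_div, hn]
  have eb : ‖b / m‖ = ‖b‖ / m := by rw [norm_div, hn]
  have eab : ‖a / m + b / m‖ = ‖a + b‖ / m := by rw [← add_div, norm_div, hn]
  have ef : ‖(a / m) ^ 2 + a / m * (b / m) + (b / m) ^ 2‖ = ‖a ^ 2 + a * b + b ^ 2‖ / m ^ 2 := by
    have : (a / m) ^ 2 + a / m * (b / m) + (b / m) ^ 2 = (a ^ 2 + a * b + b ^ 2) / (m : ℂ) ^ 2 := by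
      field_simp
    rw [this, norm_div, norm_pow, hn]
  have h := ht (a / m) (b / m) (by rw [ea]; exact (div_le_one hm).2 ha)
    (by rw [eb]; exact (div_le_one hm).2 hb) (by rw [eab]; exact (div_le_one hm).2 hab)
  rw [ef, ea, eb, eab] at h
  have e : ‖a ^ 2 + a * b + b ^ 2‖ / m ^ 2 * (‖a‖ / m * (‖b‖ / m) * (‖a + b‖ / m)) ^ t =
      ‖a ^ 2 + a * b + b ^ 2‖ * (‖a‖ * ‖b‖ * ‖a + b‖) ^ t / m ^ (2 + 3 * t) := by
    rw [pow_add, pow_mul]
    have : ‖a‖ / m * (‖b‖ / m) * (‖a + b‖ / m) = ‖a‖ * ‖b‖ * ‖a + b‖ / m ^ 3 := by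
      field_simp
    rw [this, div_pow, div_mul_div_comm]
  rw [e, div_le_iff₀ (by positivity)] at h
  linarith

/-- the local inequality -/
theorem zag_local {K : Type} [Field K] [NumberField K] {t : ℕ}
    (ht : ∀ a b : ℂ, ‖a‖ ≤ 1 → ‖b‖ ≤ 1 → ‖a + b‖ ≤ 1 →
      ‖a ^ 2 + a * b + b ^ 2‖ * (‖a‖ * ‖b‖ * ‖a + b‖) ^ t ≤ 1 / 2) (v : Pl K) (x : K) :
    cv v * (av v (1 + x + x ^ 2) * (av v (L 0 x) * av v (L 1 x) * av v (L 2 x)) ^ t) ≤
      M v x ^ (2 + 3 * t) := by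
  have hM := one_le_M v x
  have hM0 : 0 < M v x := lt_of_lt_of_le one_pos hM
  have h0 := av_L_le v x 0
  have h1 := av_L_le v x 1
  have h2 := av_L_le v x 2
  rcases v with w | v
  · have e : ∀ z : K, av (Sum.inl w : Pl K) z = ‖w.embedding z‖ := fun z => by
      rw [InfinitePlace.norm_embedding_eq]; rfl
    have e1 : ‖w.embedding (1 : K)‖ = 1 := by rw [map_one, norm_one]
    have e2 : ‖w.embedding (-x - 1)‖ = ‖w.embedding x + 1‖ := by
      have : -x - 1 = -(x + 1) := by ring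
      rw [this, map_neg, norm_neg, map_add, map_one]
    have L0 : L 0 x = x := rfl
    have L1 : L 1 x = 1 := rfl
    have L2 : L 2 x = -x - 1 := rfl
    rw [L0, e] at h0
    rw [L1, e, map_one] at h1
    rw [L2, e, e2] at h2
    rw [L0, L1, L2, e, e, e, e, e2, map_one]
    have h3 := cpx_hom ht (w.embedding x) 1 hM0 h0 h1 h2
    have e3 : w.embedding (1 + x + x ^ 2) = (w.embedding x) ^ 2 + w.embedding x * 1 + 1 ^ 2 := by
      rw [map_add, map_add, map_one, map_pow]; ring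
    rw [e3]
    exact h3
  · show 1 * (fv v (1 + x + x ^ 2) * (fv v (L 0 x) * fv v (L 1 x) * fv v (L 2 x)) ^ t) ≤ _
    rw [one_mul]
    have f0 : fv v x ≤ M (Sum.inr v : Pl K) x := h0
    have p0 : 0 ≤ fv v x := (fv v).nonneg _
    have hf : fv v (1 + x + x ^ 2) ≤ M (Sum.inr v : Pl K) x ^ 2 := by
      refine (fv_na v _ _).trans (max_le ((fv_na v _ _).trans (max_le ?_ ?_)) ?_)
      · rw [map_one]; exact one_le_pow₀ hM
      · exact f0.trans (le_self_pow₀ hM two_ne_zero)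
      · rw [map_pow]; exact pow_le_pow_left₀ p0 f0 2
    have hp : fv v (L 0 x) * fv v (L 1 x) * fv v (L 2 x) ≤ M (Sum.inr v : Pl K) x ^ 3 := by
      calc fv v (L 0 x) * fv v (L 1 x) * fv v (L 2 x) ≤
            M (Sum.inr v : Pl K) x * M (Sum.inr v : Pl K) x * M (Sum.inr v : Pl K) x :=
            mul_le_mul (mul_le_mul h0 h1 ((fv v).nonneg _) hM0.le) h2 ((fv v).nonneg _)
              (mul_nonneg hM0.le hM0.le)
        _ = _ := by ring
    calc fv v (1 + x + x ^ 2) * (fv v (L 0 x) * fv v (L 1 x) * fv v (L 2 x)) ^ t ≤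
          M (Sum.inr v : Pl K) x ^ 2 * (M (Sum.inr v : Pl K) x ^ 3) ^ t :=
          mul_le_mul hf (pow_le_pow_left₀ (mul_nonneg (mul_nonneg ((fv v).nonneg _)
            ((fv v).nonneg _)) ((fv v).nonneg _)) hp t)
            (pow_nonneg (mul_nonneg (mul_nonneg ((fv v).nonneg _) ((fv v).nonneg _))
              ((fv v).nonneg _)) _) (pow_nonneg hM0.le _)
      _ = M (Sum.inr v : Pl K) x ^ (2 + 3 * t) := by rw [← pow_mul, ← pow_add]

theorem zag : S_ZAG := by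
  classical
  obtain ⟨t, ht⟩ := cpx
  refine ⟨Real.log 2 / (2 + 3 * t), div_pos (Real.log_pos (by norm_num)) (by positivity), ?_⟩
  intro K _ _ x hx hf
  have hloc : ∀ v : Pl K, mt v * Real.log (cv v) + (lg v (1 + x + x ^ 2) +
      t * (lg v (L 0 x) + lg v (L 1 x) + lg v (L 2 x))) ≤ (2 + 3 * t) * mx v x := by
    intro v
    have hmt := mt_pos v
    have hcv0 : 0 < cv v := lt_of_lt_of_le one_pos (one_le_cv v)
    have hM0 : 0 < M v x := lt_of_lt_of_le one_pos (one_le_M v x)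
    have hF : 0 < av v (1 + x + x ^ 2) := (av v).pos hf
    have h0 : 0 < av v (L 0 x) := (av v).pos (L_ne hx 0)
    have h1 : 0 < av v (L 1 x) := (av v).pos (L_ne hx 1)
    have h2 : 0 < av v (L 2 x) := (av v).pos (L_ne hx 2)
    have h := Real.log_le_log (by positivity) (zag_local ht v x)
    rw [Real.log_mul hcv0.ne' (by positivity), Real.log_mul hF.ne' (by positivity), Real.log_pow,
      Real.log_mul (by positivity) h2.ne', Real.log_mul h0.ne' h1.ne', Real.log_pow] at h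
    have h' := mul_le_mul_of_nonneg_left h hmt.le
    push_cast at h'
    unfold lg mx
    linarith
  set V : Finset (Pr K) := sp x ∪ (fv_support_finite hf).toFinset with hV
  have hVx : sp x ⊆ V := Finset.subset_union_left
  have hVf : ∀ v, v ∉ V → fv v (1 + x + x ^ 2) = 1 := by
    intro v hv
    by_contra h
    apply hv
    rw [hV]
    refine Finset.mem_union_right _ ?_
    rw [Set.Finite.mem_toFinset]
    exact h
  have hsum := Finset.sum_le_sum (s := Spl V) fun v _ => hloc v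
  rw [Finset.sum_add_distrib, sum_cv, Finset.sum_add_distrib, sum_lg hf hVf, ← Finset.mul_sum,
    ← Finset.mul_sum, hgt_eq hx hVx, Finset.sum_add_distrib, Finset.sum_add_distrib,
    sum_lgL hx hVx, sum_lgL hx hVx, sum_lgL hx hVx] at hsum
  have hpos : (0 : ℝ) < 2 + 3 * t := by positivity
  rw [div_mul_eq_mul_div, div_le_iff₀ hpos]
  linarith

end Pool.Agent.N175.BG
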