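import Mathlib
import Pool.Agent.N175.BG.Pk
import Pool.Agent.N175.BG.Big
import Pool.Agent.N175.BG.Zag
import Pool.Agent.N424.BG.Vdm
import Pool.Agent.N175.BG.Spec
import Pool.Agent.N175.BG.Det
import Pool.Agent.N175.BG.Hol
import Pool.Agent.N175.BG.Nf
import Pool.Agent.N175.BG.Cls
import Pool.Agent.TH71.GR.Main

set_option autoImplicit false

/-!
# Project BG: all parts together
-/

namespace Pool.Agent.N175.BG

open Finset Pool.Agent.H558R2 Pool.Agent.H622R3.SM

theorem t_count : S_COUNT := count (nf pack big zag Pool.Agent.N424.BG.vdm) spec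

theorem t_cls (k : ℕ) : ∃ k', ∀ (m n : ℕ) (A : Matrix (Fin m) (Fin n) ℝ), 1 ≤ m → 1 ≤ n →
    BR k m n A → Pool.Agent.TH71.GR.PolyNum k' m n A := cls t_count det hol k

end Pool.Agent.N175.BG
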