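import Mathlib
import Pool.Agent.N175.BG.Cr
import Pool.Agent.Y648.CW.T_SPAN

set_option autoImplicit false

/-!
# Project BG: minors in a group of bounded rank
-/

namespace Pool.Agent.N175.BG

open Finset NumberField

/-- The minors. -/
def MG (k s : ℕ) {m n : ℕ} (A : Matrix (Fin m) (Fin n) ℝ) : Prop :=
  ∃ (F : Subfield ℝ) (g : Fin k → F) (ρ : Fin m → ℝ) (B : Matrix (Fin m) (Fin n) ℝ)
    (G : Matrix (Fin n) (Fin n) ℝ) (t : ℝ), (∀ j, g j ≠ 0) ∧ (∀ i, ρ i ≠ 0) ∧ G.det ≠ 0 ∧ t ≠ 0 ∧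
    (∀ i j, ρ i * A i j = (B * G) i j) ∧
    ∀ (f : Fin B.rank → Fin m) (h : Fin B.rank → Fin n), (B.submatrix f h).det ≠ 0 →
      ∃ c γ : F, Sml F s c ∧ InDiv g γ ∧ (B.submatrix f h).det = t * (c * γ)

theorem Sml.ne_zero {F : Type} [Field F] [CharZero F] {s : ℕ} {c : F} (h : Sml F s c) : c ≠ 0 := by
  rcases h with rfl | ⟨-, -, a, b, ha, hb, -, -, -, h⟩
  · exact one_ne_zero
  · intro h0
    rw [h0, zero_mul] at h
    exact ha h.symm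

theorem Sml.mono {F : Type} [Field F] [CharZero F] {s s' : ℕ} (hs : s ≤ s') {c : F}
    (h : Sml F s c) : Sml F s' c := by
  rcases h with rfl | ⟨h1, h2, a, b, ha, hb, hia, hib, hσ, h⟩
  · exact Or.inl rfl
  · have hp : (2 : ℝ) ^ s ≤ 2 ^ s' := pow_le_pow_right₀ (by norm_num) hs
    exact Or.inr ⟨h1, h2.trans hs, a, b, ha, hb, hia, hib,
      fun σ => ⟨(hσ σ).1.trans hp, (hσ σ).2.trans hp⟩, h⟩

theorem Sml.div {F : Type} [Field F] [CharZero F] {s : ℕ} {c c' : F}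
    (h : Sml F s c) (h' : Sml F s c') : Sml F (2 * s) (c * c'⁻¹) := by
  have hone : ∀ σ : F →+* ℂ, ‖σ (1 : F)‖ ≤ (2 : ℝ) ^ s := by
    intro σ
    rw [map_one, norm_one]
    exact one_le_pow₀ (by norm_num)
  have key : ∀ {a b a' b' : F}, FiniteDimensional ℚ F → Module.finrank ℚ F ≤ s →
      a ≠ 0 → b ≠ 0 → a' ≠ 0 → b' ≠ 0 → IsIntegral ℤ a → IsIntegral ℤ b → IsIntegral ℤ a' →
      IsIntegral ℤ b' → (∀ σ : F →+* ℂ, ‖σ a‖ ≤ 2 ^ s ∧ ‖σ b‖ ≤ 2 ^ s) →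
      (∀ σ : F →+* ℂ, ‖σ a'‖ ≤ 2 ^ s ∧ ‖σ b'‖ ≤ 2 ^ s) → c * b = a → c' * b' = a' →
      Sml F (2 * s) (c * c'⁻¹) := by
    intro a b a' b' h1 h2 ha hb ha' hb' ia ib ia' ib' hσ hσ' e e'
    have hc' : c' ≠ 0 := fun h0 => ha' (by rw [← e', h0, zero_mul])
    refine Or.inr ⟨h1, by omega, a * b', b * a', mul_ne_zero ha hb', mul_ne_zero hb ha',
      ia.mul ib', ib.mul ia', fun σ => ⟨?_, ?_⟩, ?_⟩
    · rw [map_mul, norm_mul, two_mul, pow_add]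
      exact mul_le_mul (hσ σ).1 (hσ' σ).2 (norm_nonneg _) (by positivity)
    · rw [map_mul, norm_mul, two_mul, pow_add]
      exact mul_le_mul (hσ σ).2 (hσ' σ).1 (norm_nonneg _) (by positivity)
    · rw [← e, ← e']
      field_simp
  rcases h with rfl | ⟨h1, h2, a, b, ha, hb, ia, ib, hσ, e⟩
  · rcases h' with rfl | ⟨h1', h2', a', b', ha', hb', ia', ib', hσ', e'⟩
    · left; simp
    · exact key h1' h2' one_ne_zero one_ne_zero ha' hb' isIntegral_one isIntegral_one ia' ib'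
        (fun σ => ⟨hone σ, hone σ⟩) hσ' (by ring) e'
  · rcases h' with rfl | ⟨h1', h2', a', b', ha', hb', ia', ib', hσ', e'⟩
    · exact key h1 h2 ha hb one_ne_zero one_ne_zero ia ib isIntegral_one isIntegral_one
        hσ (fun σ => ⟨hone σ, hone σ⟩) e (by ring)
    · exact key h1 h2 ha hb ha' hb' ia ib ia' ib' hσ hσ' e e'

theorem gr_of_mg {k s m n : ℕ} {A : Matrix (Fin m) (Fin n) ℝ} (h : MG k s A) :
    GR k (2 * s) (LinearMap.ker (Matrix.vecMulLinear A)) := by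
  obtain ⟨F, g, ρ, B, G, t, hg, hρ, hG, ht, hAB, hB⟩ := h
  refine ⟨F, g, fun i => (ρ i)⁻¹, hg, fun i => inv_ne_zero (hρ i), ?_⟩
  intro C hC i j ci cj
  have hCirc : Pool.Agent.Y648.CS.Circ A C := by
    exact ⟨hC.2.1, hC.1, fun D hD hs => hC.2.2 D hD hs⟩
  have hCB := Pool.Agent.Y648.CS.W.TSPAN.circ_scale hρ hG hAB hCirc
  by_cases hij : i = j
  · subst hij
    refine ⟨1, 1, Or.inl rfl, InDiv.one, ?_⟩
    rw [div_self (mul_ne_zero (inv_ne_zero (hρ i)) ci)]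
    simp
  · obtain ⟨f, f', h, h1, h2⟩ := Pool.Agent.Y648.CS.W.TSPAN.circ_minor hCB hij
      (div_ne_zero ci (hρ i)) (div_ne_zero cj (hρ j))
    have h3 : (B.submatrix f' h).det ≠ 0 := by
      rw [h2]
      exact mul_ne_zero (neg_ne_zero.2 (div_ne_zero (div_ne_zero ci (hρ i))
        (div_ne_zero cj (hρ j)))) h1
    obtain ⟨c1, γ1, s1, d1, e1⟩ := hB f h h1
    obtain ⟨c2, γ2, s2, d2, e2⟩ := hB f' h h3
    refine ⟨c2 * c1⁻¹, -(γ2 * γ1⁻¹), s2.div s1, (InDiv.mul hg d2 d1.inv).neg, ?_⟩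
    have hc1 : (c1 : ℝ) ≠ 0 := by exact_mod_cast s1.ne_zero
    have hγ1 : (γ1 : ℝ) ≠ 0 := by exact_mod_cast d1.ne_zero hg
    have h4 : (ρ i)⁻¹ * C i / ((ρ j)⁻¹ * C j) = -((B.submatrix f' h).det / (B.submatrix f h).det) := by
      rw [h2]
      have := hρ i; have := hρ j
      field_simp
    rw [h4, e1, e2]
    push_cast
    field_simp

theorem gc_of_gr {k s m : ℕ} {L : Submodule ℝ (Fin m → ℝ)} (h : GR k s L) : GC k (2 * s) L := by
  obtain ⟨F, g, μ, hg, hμ, hL⟩ := h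
  refine ⟨F, g, hg, ?_⟩
  intro C D hC hD _ i j ci cj di dj
  obtain ⟨c1, γ1, s1, d1, e1⟩ := hL C hC i j ci cj
  obtain ⟨c2, γ2, s2, d2, e2⟩ := hL D hD i j di dj
  refine ⟨c1 * c2⁻¹, γ1 * γ2⁻¹, s1.div s2, InDiv.mul hg d1 d2.inv, ?_⟩
  have hc2 : (c2 : ℝ) ≠ 0 := by exact_mod_cast s2.ne_zero
  have hγ2 : (γ2 : ℝ) ≠ 0 := by exact_mod_cast d2.ne_zero hg
  have h1 : C i / C j / (D i / D j) = (μ i * C i / (μ j * C j)) / (μ i * D i / (μ j * D j)) := by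
    have := hμ i; have := hμ j
    field_simp
  rw [h1, e1, e2]
  push_cast
  field_simp

theorem gc_of_mg {k s m n : ℕ} {A : Matrix (Fin m) (Fin n) ℝ} (h : MG k s A) :
    GC k (2 * (2 * s)) (LinearMap.ker (Matrix.vecMulLinear A)) := gc_of_gr (gr_of_mg h)

end Pool.Agent.N175.BG
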