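import Mathlib
import Pool.Agent.N175.BG.Nf
import Pool.Agent.N175.BG.Cr

set_option autoImplicit false

/-!
# Project BG: the number of the solutions of `x + 1 = y` in groups of rank `r`, explicit bound
-/

namespace Pool.Agent.N175.BG

open Finset NumberField IsDedekindDomain Pool.Agent.H691R3 Pool.Agent.TH876.Loc

/-- NFQ: the number of the solutions of `x + 1 = y` in groups of rank `r` in number fields. -/
def S_NFQ (N : ℕ → ℕ) : Prop :=
  ∀ (r : ℕ) (K : Type) [Field K] [NumberField K] (g : Fin r → K), (∀ j, g j ≠ 0) →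
    ∀ E : Finset K, (∀ x ∈ E, x ≠ 0 ∧ x + 1 ≠ 0 ∧ InDiv g x ∧ InDiv g (x + 1)) → E.card ≤ N r

theorem nfq (hP : S_PACK) (hB : S_BIG) (hZ : S_ZAG) (hV : S_VDM) :
    ∃ C : ℕ, S_NFQ (fun r => C ^ (r + 1)) := by
  classical
  obtain ⟨c, hc, hZ⟩ := hZ
  obtain ⟨M, δ, hδ, hV⟩ := hV c hc
  have hlog2 : 0 < Real.log 2 := Real.log_pos (by norm_num)
  obtain ⟨a, ha⟩ : ∃ a : ℝ, a = 4 * (240 * Real.log 2) / δ + 1 := ⟨_, rfl⟩
  obtain ⟨C, hC⟩ : ∃ C : ℕ, C = M + ⌈a ^ 2⌉₊ + 37249 + 13 := ⟨_, rfl⟩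
  refine ⟨C, ?_⟩
  intro r K _ _ g hg E hE
  show E.card ≤ C ^ (r + 1)
  have hd1 : 1 ≤ dK K := dK_one
  have hd0 : 0 < dK K := by linarith
  have hPt : ∀ x ∈ E, Pt x := fun x hx => ⟨(hE x hx).1, (hE x hx).2.1⟩
  obtain ⟨V, hVdef⟩ : ∃ V, V = E.biUnion sp := ⟨_, rfl⟩
  have hsp : ∀ x ∈ E, sp x ⊆ V := fun x hx => by
    rw [hVdef]; exact Finset.subset_biUnion_of_mem sp hx
  have hfin : FiniteDimensional ℝ (Submodule.span ℝ (Set.range (gen V g))) :=
    FiniteDimensional.span_of_finite ℝ (Set.finite_range _)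
  set E0 := E.filter (fun x => 1 + x + x ^ 2 = 0) with hE0
  set E1 := E.filter (fun x => ¬ (1 + x + x ^ 2 = 0)) with hE1
  set Es := E1.filter (fun x => ¬ (40 * (dK K * Real.log 2) ≤ hgt x)) with hEs
  set Eb := E1.filter (fun x => 40 * (dK K * Real.log 2) ≤ hgt x) with hEb
  have c0 : E0.card ≤ 2 := card_roots E0 fun x hx => (Finset.mem_filter.1 hx).2
  have hsum : E.card = E0.card + (Eb.card + Es.card) := by
    rw [← Finset.card_filter_add_card_filter_not (s := E) (fun x => 1 + x + x ^ 2 = 0),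
      ← Finset.card_filter_add_card_filter_not (s := E1) (fun x => 40 * (dK K * Real.log 2) ≤ hgt x)]
  -- small points
  have cs : (Es.card : ℝ) ≤ M * (4 * (240 * Real.log 2) / δ + 1) ^ (2 * r) := by
    refine hP (LW V) K _ (2 * r) Es (fun x => vec V (dK K)⁻¹ x) _ δ M hfin (finrank_gen V g) hδ
      (by positivity) ?_ ?_
    · intro x hx
      rw [hEs, hE1, Finset.mem_filter, Finset.mem_filter] at hx
      obtain ⟨⟨hx, _⟩, h2⟩ := hx
      refine ⟨vec_mem V hg (hE x hx).2.2.1 (hE x hx).2.2.2 _, ?_⟩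
      refine (norm_vec_le (hPt x hx) (hsp x hx) (inv_nonneg.2 hd0.le)).trans ?_
      rw [not_le] at h2
      rw [inv_mul_le_iff₀ hd0]
      nlinarith
    · intro G hG hcl
      refine hV K V G ?_ ?_
      · intro x hx
        have hx := hG hx
        rw [hEs, hE1, Finset.mem_filter, Finset.mem_filter] at hx
        obtain ⟨⟨hx, h1⟩, h2⟩ := hx
        exact ⟨hPt x hx, hsp x hx, hZ K x (hPt x hx) h1⟩
      · intro x hx y hy
        have h1 := hcl x hx y hy
        rw [norm_sub_vec] at h1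
        have h2 : ∑ v ∈ Spl V, ∑ i : Fin 3, |(dK K)⁻¹ * lg v (L i x) - (dK K)⁻¹ * lg v (L i y)| =
            (dK K)⁻¹ * ∑ v ∈ Spl V, ∑ i : Fin 3, |lg v (L i x) - lg v (L i y)| := by
          rw [Finset.mul_sum]
          refine Finset.sum_congr rfl fun v _ => ?_
          rw [Finset.mul_sum]
          refine Finset.sum_congr rfl fun i _ => ?_
          rw [← mul_sub, abs_mul, abs_of_pos (inv_pos.2 hd0)]
        rw [h2, inv_mul_le_iff₀ hd0] at h1
        linarith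
  -- big points
  have cb : (Eb.card : ℝ) ≤ (11 : ℕ) * (4 * (6 : ℝ) / (1 / 8) + 1) ^ (2 * r) := by
    refine hP (LW V) K _ (2 * r) Eb (fun x => vec V (hgt x)⁻¹ x) _ (1 / 8) 11 hfin
      (finrank_gen V g) (by norm_num) (by norm_num) ?_ ?_
    · intro x hx
      rw [hEb, hE1, Finset.mem_filter, Finset.mem_filter] at hx
      obtain ⟨⟨hx, _⟩, h2⟩ := hx
      have h3 : 0 < hgt x := lt_of_lt_of_le (by positivity) h2
      refine ⟨vec_mem V hg (hE x hx).2.2.1 (hE x hx).2.2.2 _, ?_⟩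
      refine (norm_vec_le (hPt x hx) (hsp x hx) (inv_nonneg.2 h3.le)).trans ?_
      rw [inv_mul_le_iff₀ h3]
      linarith
    · intro G hG hcl
      refine hB K V G ?_ ?_
      · intro x hx
        have hx := hG hx
        rw [hEb, hE1, Finset.mem_filter, Finset.mem_filter] at hx
        obtain ⟨⟨hx, _⟩, h2⟩ := hx
        exact ⟨hPt x hx, hsp x hx, h2⟩
      · intro x hx y hy
        have h1 := hcl x hx y hy
        rw [norm_sub_vec] at h1
        refine le_trans (le_of_eq ?_) h1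
        refine Finset.sum_congr rfl fun v _ => Finset.sum_congr rfl fun i _ => ?_
        congr 1
        ring
  have ha0 : 0 ≤ a ^ 2 := sq_nonneg a
  have haC : a ^ 2 ≤ C := by
    have := Nat.le_ceil (a ^ 2)
    rw [hC]
    push_cast
    linarith
  have hCM : (M : ℝ) + 13 ≤ C := by
    rw [hC]
    push_cast
    have : (0 : ℝ) ≤ (⌈a ^ 2⌉₊ : ℝ) := Nat.cast_nonneg _
    linarith
  have hC1 : (37249 : ℝ) ≤ C := by
    rw [hC]
    push_cast
    have : (0 : ℝ) ≤ (⌈a ^ 2⌉₊ : ℝ) := Nat.cast_nonneg _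
    have : (0 : ℝ) ≤ (M : ℝ) := Nat.cast_nonneg _
    linarith
  have hCr : (1 : ℝ) ≤ (C : ℝ) ^ r := one_le_pow₀ (by linarith)
  have e1 : (Es.card : ℝ) ≤ M * (C : ℝ) ^ r := by
    refine cs.trans ?_
    rw [← ha, pow_mul]
    exact mul_le_mul_of_nonneg_left (pow_le_pow_left₀ ha0 haC r) (Nat.cast_nonneg _)
  have e2 : (Eb.card : ℝ) ≤ 11 * (C : ℝ) ^ r := by
    refine cb.trans ?_
    rw [pow_mul, show (4 * (6 : ℝ) / (1 / 8) + 1) ^ 2 = 37249 by norm_num]
    push_cast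
    exact mul_le_mul_of_nonneg_left (pow_le_pow_left₀ (by norm_num) hC1 r) (by norm_num)
  have e3 : (E0.card : ℝ) ≤ 2 := by exact_mod_cast c0
  have e4 : (E.card : ℝ) ≤ (C : ℝ) ^ (r + 1) := by
    rw [hsum]
    push_cast
    calc (E0.card : ℝ) + (Eb.card + Es.card) ≤ 2 * (C : ℝ) ^ r + (11 * (C : ℝ) ^ r +
          M * (C : ℝ) ^ r) := by linarith
      _ = (M + 13) * (C : ℝ) ^ r := by ring
      _ ≤ C * (C : ℝ) ^ r := mul_le_mul_of_nonneg_right hCM (by linarith)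
      _ = (C : ℝ) ^ (r + 1) := by ring
  exact_mod_cast e4

theorem cntq {N : ℕ → ℕ} (hN : S_NFQ N) (hS : S_SPEC) : S_CNT N := by
  intro r F _ _ g hg E hE
  obtain ⟨K, i1, i2, g', E', hg', hc, hE'⟩ := hS F r g E hg hE
  rw [← hc]
  exact hN r K g' hg' E' hE'

end Pool.Agent.N175.BG
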