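import Mathlib
import Pool.Agent.N175.BG.Pk
import Pool.Agent.N175.BG.Big
import Pool.Agent.N175.BG.Zag
import Pool.Agent.N424.BG.Vdm
import Pool.Agent.N175.BG.Spec
import Pool.Agent.N175.BG.Nq
import Pool.Agent.N175.BG.Mnr
import Pool.Agent.Y648.XR.All
import Pool.Agent.Y648.CX.All

set_option autoImplicit false

/-!
# Project BG: the second theorem
-/

namespace Pool.Agent.N175.BG

open Finset Pool.Agent.H558R2 Pool.Agent.H622R3.SM

theorem t_cnt : ∃ C : ℕ, S_CNT (fun r => C ^ (r + 1)) := by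
  obtain ⟨C, hC⟩ := nfq pack big zag Pool.Agent.N424.BG.vdm
  exact ⟨C, cntq hC spec⟩

theorem t_sc : S_SC (fun r => 11 * 449 ^ (2 * r) + 1) := sc pack big

/-- A bound for the number of scales of the cross ratios. -/
theorem t_cross : ∃ C : ℕ, 1 ≤ C ∧ ∀ (k m s : ℕ) (L : Submodule ℝ (Fin m → ℝ)), GC k s L →
    ∃ T : Finset ℝ, T.card ≤ C ^ (k + 1) ∧ Pool.Agent.Y648.XR.CR T (rh s) L := by
  obtain ⟨C, hC⟩ := t_cnt
  refine ⟨C + 449 ^ 2 + 13, by omega, fun k m s L h => ?_⟩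
  obtain ⟨T, h1, h2⟩ := cross hC t_sc k m s L h
  refine ⟨T, h1.trans ?_, h2⟩
  show C ^ (k + 1) + (11 * 449 ^ (2 * k) + 1) + 1 ≤ (C + 449 ^ 2 + 13) ^ (k + 1)
  have e0 : 1 ≤ (C + 449 ^ 2 + 13) ^ k := Nat.one_le_pow _ _ (by omega)
  have e1 : C ^ k ≤ (C + 449 ^ 2 + 13) ^ k := Nat.pow_le_pow_left (by omega) k
  have e2 : 449 ^ (2 * k) ≤ (C + 449 ^ 2 + 13) ^ k := by
    rw [pow_mul]
    exact Nat.pow_le_pow_left (by omega) k
  have e3 : C ^ (k + 1) ≤ C * (C + 449 ^ 2 + 13) ^ k := by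
    rw [pow_succ, mul_comm]
    exact Nat.mul_le_mul_left _ e1
  rw [pow_succ (C + 449 ^ 2 + 13)]
  nlinarith

theorem scales_mono {m r r' : ℕ} {L : Submodule ℝ (Fin m → ℝ)} (h : r ≤ r')
    (hL : Pool.Agent.Y648.XR.Scales r L) : Pool.Agent.Y648.XR.Scales r' L := by
  obtain ⟨S, a1, a2⟩ := hL
  refine ⟨S, fun i j => ⟨(a1 i j).1.trans h, (a1 i j).2⟩, fun C hC i j hi hj => ?_⟩
  obtain ⟨s', hs, h4, h5⟩ := a2 C hC i j hi hj
  refine ⟨s', hs, h4, h5.trans ?_⟩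
  exact mul_le_mul_of_nonneg_right (pow_le_pow_right₀ (by norm_num) h) ((a1 i j).2 s' hs).le

theorem bound1 {x m s : ℕ} (hx : m + s + 2 ≤ x) : 2 * ((m + 1) * (5 * m + 5)) + 1 ≤ x ^ 6 := by
  have h2 : 2 ≤ x := by omega
  have h4 : 2 ^ 4 ≤ x ^ 4 := Nat.pow_le_pow_left h2 4
  have h5 : (m + 1) * (m + 1) ≤ x * x := Nat.mul_le_mul (by omega) (by omega)
  have h6 : 1 ≤ x * x := Nat.mul_pos (by omega) (by omega)
  calc 2 * ((m + 1) * (5 * m + 5)) + 1 = 10 * ((m + 1) * (m + 1)) + 1 := by ring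
    _ ≤ 10 * (x * x) + x * x := by omega
    _ ≤ 2 ^ 4 * (x * x) := by omega
    _ ≤ x ^ 4 * (x * x) := Nat.mul_le_mul_right _ h4
    _ = x ^ 6 := by ring

theorem bound2 {x m s : ℕ} (hx : m + s + 2 ≤ x) :
    2 * ((m + 1) * (5 * m + 5)) * rh s + 1 ≤ x ^ 20 := by
  have h2 : 2 ≤ x := by omega
  have h12 : 2 ^ 12 ≤ x ^ 12 := Nat.pow_le_pow_left h2 12
  have h6 : 1 ≤ x * x := Nat.mul_pos (by omega) (by omega)
  have hs : s * s ≤ x * x := Nat.mul_le_mul (by omega) (by omega)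
  have hs' : s ≤ x * x := by nlinarith
  have e1 : rh s ≤ x ^ 14 := by
    unfold rh
    calc 12 * (40 * s + 64 * (4 * s * s)) = 480 * s + 3072 * (s * s) := by ring
      _ ≤ 480 * (x * x) + 3072 * (x * x) := by omega
      _ ≤ 2 ^ 12 * (x * x) := by omega
      _ ≤ x ^ 12 * (x * x) := Nat.mul_le_mul_right _ h12
      _ = x ^ 14 := by ring
  have e2 := Nat.mul_le_mul (bound1 hx) e1
  have e3 : 1 ≤ rh s + 1 := by omega
  calc 2 * ((m + 1) * (5 * m + 5)) * rh s + 1 ≤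
        (2 * ((m + 1) * (5 * m + 5)) + 1) * x ^ 14 := by
        have h7 : 2 * ((m + 1) * (5 * m + 5)) * rh s ≤ 2 * ((m + 1) * (5 * m + 5)) * x ^ 14 :=
          Nat.mul_le_mul_left _ e1
        have h8 : 1 ≤ x ^ 14 := Nat.one_le_pow _ _ (by omega)
        calc _ ≤ 2 * ((m + 1) * (5 * m + 5)) * x ^ 14 + x ^ 14 := by omega
          _ = _ := by ring
    _ ≤ x ^ 6 * x ^ 14 := Nat.mul_le_mul_right _ (bound1 hx)
    _ = x ^ 20 := by ring

/-- The number of scales. -/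
theorem t_scales : ∃ C : ℕ, 1 ≤ C ∧ ∀ (k m s x : ℕ) (L : Submodule ℝ (Fin m → ℝ)), m + s + 2 ≤ x →
    GC k s L → Pool.Agent.Y648.XR.Scales (x ^ (C ^ (k + 1))) L := by
  obtain ⟨C, hC1, hC⟩ := t_cross
  refine ⟨26 * C, by omega, fun k m s x L hx hL => ?_⟩
  obtain ⟨T, hT, hCR⟩ := hC k m s L hL
  refine scales_mono ?_ (Pool.Agent.Y648.XR.xr_all T (rh s) m ((m + 1) * (5 * m + 5)) L hCR le_rfl)
  have h2 : 2 ≤ x := by omega
  have hG : 1 ≤ C ^ (k + 1) := Nat.one_le_pow _ _ hC1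
  calc (2 * ((m + 1) * (5 * m + 5)) + 1) ^ T.card * (2 * ((m + 1) * (5 * m + 5)) * rh s + 1) ≤
        (x ^ 6) ^ (C ^ (k + 1)) * x ^ 20 := by
        refine Nat.mul_le_mul ?_ (bound2 hx)
        exact (Nat.pow_le_pow_right (by omega) hT).trans (Nat.pow_le_pow_left (bound1 hx) _)
    _ = x ^ (6 * C ^ (k + 1) + 20) := by rw [← pow_mul, ← pow_add]
    _ ≤ x ^ ((26 * C) ^ (k + 1)) := by
        refine Nat.pow_le_pow_right (by omega) ?_
        have h3 : 26 * C ^ (k + 1) ≤ (26 * C) ^ (k + 1) := by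
          rw [mul_pow]
          refine Nat.mul_le_mul_right _ ?_
          calc 26 = 26 ^ 1 := (pow_one _).symm
            _ ≤ 26 ^ (k + 1) := Nat.pow_le_pow_right (by norm_num) (by omega)
        omega

theorem poly_pow (P : Polynomial ℕ) : ∃ D : ℕ, 1 ≤ D ∧ ∀ y, P.eval y ≤ (y + 2) ^ D := by
  induction P using Polynomial.induction_on' with
  | add p q hp hq =>
    obtain ⟨D, hD, h1⟩ := hp
    obtain ⟨E, hE, h2⟩ := hq
    refine ⟨D + E + 1, by omega, fun y => ?_⟩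
    rw [Polynomial.eval_add]
    have e1 : (y + 2) ^ D ≤ (y + 2) ^ (D + E) := Nat.pow_le_pow_right (by omega) (by omega)
    have e2 : (y + 2) ^ E ≤ (y + 2) ^ (D + E) := Nat.pow_le_pow_right (by omega) (by omega)
    calc p.eval y + q.eval y ≤ (y + 2) ^ (D + E) + (y + 2) ^ (D + E) :=
          Nat.add_le_add ((h1 y).trans e1) ((h2 y).trans e2)
      _ = (y + 2) ^ (D + E) * 2 := by ring
      _ ≤ (y + 2) ^ (D + E) * (y + 2) := Nat.mul_le_mul_left _ (by omega)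
      _ = (y + 2) ^ (D + E + 1) := by ring
  | monomial n a =>
    refine ⟨n + a + 1, by omega, fun y => ?_⟩
    rw [Polynomial.eval_monomial]
    have e1 : a ≤ (y + 2) ^ (a + 1) :=
      (Nat.lt_two_pow_self (n := a)).le.trans
        ((Nat.pow_le_pow_left (by omega) a).trans (Nat.pow_le_pow_right (by omega) (by omega)))
    have e2 : y ^ n ≤ (y + 2) ^ n := Nat.pow_le_pow_left (by omega) n
    calc a * y ^ n ≤ (y + 2) ^ (a + 1) * (y + 2) ^ n := Nat.mul_le_mul e1 e2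
      _ = (y + 2) ^ (n + a + 1) := by rw [← pow_add]; congr 1; omega

theorem run_mono (O : Set (List Bool)) (α : List Outcome → List Instr × Test) :
    ∀ (k k' : ℕ) (h : List Outcome) (ρ : Reg → ℝ) (q : Bool × List ℝ × ℕ), k ≤ k' →
      run O α k h ρ = some q → run O α k' h ρ = some q := by
  intro k
  induction k with
  | zero => intro k' h ρ q _ hq; exact absurd hq (by unfold run; simp)
  | succ k ih =>
    intro k' h ρ q hk hq
    obtain ⟨l, rfl⟩ : ∃ l, k' = l + 1 := ⟨k' - 1, by omega⟩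
    have hl : k ≤ l := by omega
    unfold run at hq ⊢
    rw [Option.bind_eq_some_iff] at hq ⊢
    obtain ⟨r, hr, hq⟩ := hq
    refine ⟨r, hr, ?_⟩
    revert hq
    cases (α h).2 with
    | answer a => exact id
    | sign x =>
      intro hq
      simp only [Option.map_eq_some_iff] at hq ⊢
      obtain ⟨p, hp, he⟩ := hq
      exact ⟨p, ih l _ _ _ hl hp, he⟩
    | ask w =>
      intro hq
      simp only [Option.map_eq_some_iff] at hq ⊢
      obtain ⟨p, hp, he⟩ := hq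
      exact ⟨p, ih l _ _ _ hl hp, he⟩

/-- One algorithm, explicit dependence on the rank. -/
theorem t_alg : ∃ (α : Alg) (C : ℕ), PolyControl α ∧ OracleFree α ∧
    ∀ m n : ℕ, 1 ≤ m → 1 ≤ n → ∀ (A : Matrix (Fin m) (Fin n) ℝ) (b : Fin m → ℝ) (k s : ℕ)
      (L : Submodule ℝ (Fin m → ℝ)),
      (Pool.Agent.Y648.CS.V.Hyp L (Pool.Agent.Y648.CS.V.lker A) ∨
        Pool.Agent.Y648.CS.V.Hyp (Pool.Agent.Y648.CS.V.lker A) L) → GC k s L →
      ∃ ans nums steps,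
        run ∅ (α m n) ((m + n + s + 2) ^ C ^ (k + 1)) [] (start A b) = some (ans, nums, steps) ∧
        (ans = true ↔ ∃ x : Fin n → ℝ, b ≤ A.mulVec x) ∧
        steps ≤ (m + n + s + 2) ^ C ^ (k + 1) ∧
        ∀ (A' : Matrix (Fin m) (Fin n) ℚ) (b' : Fin m → ℚ),
          (∀ i j, ((A' i j : ℚ) : ℝ) = A i j) → (∀ i, ((b' i : ℚ) : ℝ) = b i) →
          ∀ v ∈ nums, ∃ q : ℚ, (q : ℝ) = v ∧
            bitLength q ≤ (inputLength A' b' + s + 2) ^ C ^ (k + 1) := by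
  obtain ⟨h1, h2, p, hp⟩ := Pool.Agent.Y648.CS.V.main
  obtain ⟨D, hD, hpD⟩ := poly_pow p
  obtain ⟨C, hC1, hC⟩ := t_scales
  refine ⟨_, 2 * D * C, h1, h2, fun m n hm hn A b k s L hL hG => ?_⟩
  -- the estimate
  have key : ∀ X Y : ℕ, 2 ≤ X → Y + 2 ≤ X →
      p.eval (Y + X ^ C ^ (k + 1)) ≤ X ^ (2 * D * C) ^ (k + 1) := by
    intro X Y hX hY
    have hE : 1 ≤ C ^ (k + 1) := Nat.one_le_pow _ _ hC1
    have e1 : Y + X ^ C ^ (k + 1) + 2 ≤ X ^ (C ^ (k + 1) + 1) := by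
      have h3 : X ≤ X ^ C ^ (k + 1) := by
        calc X = X ^ 1 := (pow_one _).symm
          _ ≤ _ := Nat.pow_le_pow_right (by omega) hE
      calc Y + X ^ C ^ (k + 1) + 2 ≤ X ^ C ^ (k + 1) * 2 := by omega
        _ ≤ X ^ C ^ (k + 1) * X := Nat.mul_le_mul_left _ hX
        _ = _ := (pow_succ _ _).symm
    calc p.eval (Y + X ^ C ^ (k + 1)) ≤ (Y + X ^ C ^ (k + 1) + 2) ^ D := hpD _
      _ ≤ (X ^ (C ^ (k + 1) + 1)) ^ D := Nat.pow_le_pow_left e1 D
      _ = X ^ ((C ^ (k + 1) + 1) * D) := (pow_mul _ _ _).symm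
      _ ≤ X ^ (2 * D * C) ^ (k + 1) := by
          refine Nat.pow_le_pow_right (by omega) ?_
          have h4 : 2 * D ≤ (2 * D) ^ (k + 1) := by
            calc 2 * D = (2 * D) ^ 1 := (pow_one _).symm
              _ ≤ _ := Nat.pow_le_pow_right (by omega) (by omega)
          calc (C ^ (k + 1) + 1) * D ≤ (C ^ (k + 1) + C ^ (k + 1)) * D :=
                Nat.mul_le_mul_right _ (by omega)
            _ = 2 * D * C ^ (k + 1) := by ring
            _ ≤ (2 * D) ^ (k + 1) * C ^ (k + 1) := Nat.mul_le_mul_right _ h4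
            _ = (2 * D * C) ^ (k + 1) := (mul_pow _ _ _).symm
  have hsc := hC k m s (m + n + s + 2) L (by omega) hG
  obtain ⟨ans, nums, steps, c1, c2, c3, c4⟩ := hp m n hm hn A b ((m + n + s + 2) ^ C ^ (k + 1))
    ⟨L, hL, hsc⟩
  have hk1 := key (m + n + s + 2) (m + n) (by omega) (by omega)
  refine ⟨ans, nums, steps, run_mono _ _ _ _ _ _ _ hk1 c1, c2, c3.trans hk1, ?_⟩
  intro A' b' hA' hb' v hv
  obtain ⟨x, hx1, hx2⟩ := c4 A' b' hA' hb' v hv
  refine ⟨x, hx1, hx2.trans ?_⟩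
  have hle := Pool.Agent.W920.FD.TFINAL.le_inputLength hm A' b'
  refine le_trans ?_ (key (inputLength A' b' + s + 2) (inputLength A' b') (by omega) (by omega))
  refine Pool.Agent.Y648.CS.pe_mono p ?_
  have h3 : (m + n + s + 2) ^ C ^ (k + 1) ≤ (inputLength A' b' + s + 2) ^ C ^ (k + 1) :=
    Nat.pow_le_pow_left (by omega) _
  omega

end Pool.Agent.N175.BG
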