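import Pool.Agent.N175.BG.Defs

set_option autoImplicit false

namespace Pool.Agent.N175.BG

open MeasureTheory Module Metric ENNReal Finset

/-- separated points in a ball of a finite-dimensional normed space -/
theorem card_le_of_sep {E : Type*} [NormedAddCommGroup E] [NormedSpace ℝ E]
    [FiniteDimensional ℝ E] (s : Finset E) (R ε : ℝ) (hR : 0 ≤ R) (hε : 0 < ε)
    (hs : ∀ c ∈ s, ‖c‖ ≤ R) (h : ∀ c ∈ s, ∀ d ∈ s, c ≠ d → ε / 2 ≤ ‖c - d‖) :
    (s.card : ℝ) ≤ (4 * R / ε + 1) ^ finrank ℝ E := by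
  borelize E
  let μ : Measure E := Measure.addHaar
  have δpos : 0 < ε / 4 := by positivity
  have ρpos : 0 < R + ε / 4 := by positivity
  set A := ⋃ c ∈ s, ball (c : E) (ε / 4) with hA
  have D : Set.Pairwise (s : Set E) (Function.onFun Disjoint fun c => ball (c : E) (ε / 4)) := by
    rintro c hc d hd hcd
    apply ball_disjoint_ball
    rw [dist_eq_norm]
    have := h c hc d hd hcd
    linarith
  have A_subset : A ⊆ ball (0 : E) (R + ε / 4) := by
    refine Set.iUnion₂_subset fun x hx => ?_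
    apply ball_subset_ball'
    rw [dist_zero_right]
    have := hs x hx
    linarith
  have I :
    (s.card : ℝ≥0∞) * ENNReal.ofReal ((ε / 4) ^ finrank ℝ E) * μ (ball 0 1) ≤
      ENNReal.ofReal ((R + ε / 4) ^ finrank ℝ E) * μ (ball 0 1) :=
    calc
      (s.card : ℝ≥0∞) * ENNReal.ofReal ((ε / 4) ^ finrank ℝ E) * μ (ball 0 1) = μ A := by
        rw [hA, measure_biUnion_finset D fun c _ => measurableSet_ball]
        simp only [μ.addHaar_ball_of_pos _ δpos]
        simp only [Finset.sum_const, nsmul_eq_mul, mul_assoc]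
      _ ≤ μ (ball (0 : E) (R + ε / 4)) := measure_mono A_subset
      _ = ENNReal.ofReal ((R + ε / 4) ^ finrank ℝ E) * μ (ball 0 1) := by
        simp only [μ.addHaar_ball_of_pos _ ρpos]
  have J : (s.card : ℝ≥0∞) * ENNReal.ofReal ((ε / 4) ^ finrank ℝ E) ≤
      ENNReal.ofReal ((R + ε / 4) ^ finrank ℝ E) :=
    (ENNReal.mul_le_mul_iff_left (measure_ball_pos _ _ zero_lt_one).ne'
      measure_ball_lt_top.ne).1 I
  have K : (s.card : ℝ) * (ε / 4) ^ finrank ℝ E ≤ (R + ε / 4) ^ finrank ℝ E := by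
    have := ENNReal.toReal_le_of_le_ofReal (pow_nonneg ρpos.le _) J
    rwa [ENNReal.toReal_mul, ENNReal.toReal_natCast,
      ENNReal.toReal_ofReal (pow_nonneg δpos.le _)] at this
  have hq : (4 * R / ε + 1) = (R + ε / 4) / (ε / 4) := by
    field_simp
  rw [hq, div_pow, le_div_iff₀ (by positivity)]
  exact K


theorem pack : S_PACK := by
  classical
  intro E _ _ ι _ U d F f R ε M hfd hd hε hR hF hG
  obtain ⟨P, hP⟩ : ∃ P : Finset ι → Prop,
      ∀ T, P T ↔ ∀ x ∈ T, ∀ y ∈ T, x ≠ y → ε / 2 < ‖f x - f y‖ := ⟨_, fun _ => Iff.rfl⟩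
  obtain ⟨T, hTP, hTmax⟩ := Finset.exists_max_image
    ((F.powerset).filter P) (fun T => T.card)
    ⟨∅, Finset.mem_filter.2 ⟨Finset.empty_mem_powerset _, (hP _).2 (by simp)⟩⟩
  rw [Finset.mem_filter, Finset.mem_powerset, hP] at hTP
  obtain ⟨hTF, hTs⟩ := hTP
  have hcov : ∀ x ∈ F, ∃ t ∈ T, ‖f x - f t‖ ≤ ε / 2 := by
    intro x hx
    by_cases hxT : x ∈ T
    · exact ⟨x, hxT, by rw [sub_self, norm_zero]; positivity⟩
    by_contra hcon
    push Not at hcon
    have hins : insert x T ∈ (F.powerset).filter P := by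
      rw [Finset.mem_filter, Finset.mem_powerset, hP]
      refine ⟨Finset.insert_subset hx hTF, ?_⟩
      intro a ha b hb hab
      rw [Finset.mem_insert] at ha hb
      rcases ha with rfl | ha
      · rcases hb with rfl | hb
        · exact absurd rfl hab
        · exact hcon b hb
      · rcases hb with rfl | hb
        · rw [norm_sub_rev]
          exact hcon a ha
        · exact hTs a ha b hb hab
    have h1 := hTmax _ hins
    rw [Finset.card_insert_of_notMem hxT] at h1
    omega
  have hcard : F.card ≤ T.card * M := by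
    have hsub : F ⊆ T.biUnion (fun t => F.filter (fun x => ‖f x - f t‖ ≤ ε / 2)) := by
      intro x hx
      obtain ⟨t, ht, hxt⟩ := hcov x hx
      rw [Finset.mem_biUnion]
      exact ⟨t, ht, Finset.mem_filter.2 ⟨hx, hxt⟩⟩
    refine (Finset.card_le_card hsub).trans ?_
    refine Finset.card_biUnion_le_card_mul _ _ _ ?_
    intro t ht
    apply hG _ (Finset.filter_subset _ _)
    intro x hx y hy
    rw [Finset.mem_filter] at hx hy
    calc ‖f x - f y‖ = ‖(f x - f t) - (f y - f t)‖ := by congr 1; abel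
      _ ≤ ‖f x - f t‖ + ‖f y - f t‖ := norm_sub_le _ _
      _ ≤ ε / 2 + ε / 2 := add_le_add hx.2 hy.2
      _ = ε := by ring
  have hinj : Function.Injective
      (fun x : {x // x ∈ T} => (⟨f x.1, (hF x.1 (hTF x.2)).1⟩ : U)) := by
    intro x y hxy
    by_contra hne
    have h1 : f x.1 = f y.1 := congrArg Subtype.val hxy
    have h2 := hTs x.1 x.2 y.1 y.2 (fun h => hne (Subtype.ext h))
    rw [h1, sub_self, norm_zero] at h2
    linarith
  have hT : (T.card : ℝ) ≤ (4 * R / ε + 1) ^ d := by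
    have h1 : ((T.attach.image
        (fun x : {x // x ∈ T} => (⟨f x.1, (hF x.1 (hTF x.2)).1⟩ : U))).card : ℝ) ≤
        (4 * R / ε + 1) ^ finrank ℝ U := by
      apply card_le_of_sep _ R ε hR hε
      · intro c hc
        rw [Finset.mem_image] at hc
        obtain ⟨x, -, rfl⟩ := hc
        exact (hF x.1 (hTF x.2)).2
      · intro c hc c' hc' hne
        rw [Finset.mem_image] at hc hc'
        obtain ⟨x, -, rfl⟩ := hc
        obtain ⟨y, -, rfl⟩ := hc'
        have hxy : x.1 ≠ y.1 := by
          intro h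
          apply hne
          apply Subtype.ext
          change f x.1 = f y.1
          rw [h]
        exact (hTs x.1 x.2 y.1 y.2 hxy).le
    rw [Finset.card_image_of_injective _ hinj, Finset.card_attach] at h1
    refine h1.trans (pow_le_pow_right₀ ?_ hd)
    have : 0 ≤ 4 * R / ε := by positivity
    linarith
  calc (F.card : ℝ) ≤ ((T.card * M : ℕ) : ℝ) := by exact_mod_cast hcard
    _ = M * (T.card : ℝ) := by push_cast; ring
    _ ≤ M * (4 * R / ε + 1) ^ d := by gcongr

end Pool.Agent.N175.BG
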